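import Mathlib.Data.Int.Star
import Mathlib.Algebra.Order.Ring.Star
import Mathlib.Algebra.Order.Floor.Semifield
import Mathlib.Algebra.Order.Star.Real
import Mathlib.Combinatorics.Additive.AP.Three.Behrend
import Mathlib.Data.Nat.Nth
import Mathlib.Tactic.Algebra.Basic

-- ======== part 0: formerly Pool.Agent.MP_d19b84_nt.H59Basic
section MrgPart0

set_option autoImplicit false

namespace Pool.Agent.MP_d19b84_nt.H59

open Finset

/-- Fixed point of a history-dependent choice rule. -/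
noncomputable def fixp {α : Type} [Inhabited α] (f : (ℕ → α) → ℕ → α) (t : ℕ) : α :=
  f (fun u => if _h : u < t then fixp f u else default) t
termination_by t

theorem exists_run {α : Type} [Inhabited α] (R : (ℕ → α) → ℕ → α → Prop)
    (hloc : ∀ p p' t a, (∀ u < t, p u = p' u) → R p t a → R p' t a)
    (hex : ∀ p t, ∃ a, R p t a) : ∃ p : ℕ → α, ∀ t, R p t (p t) := by
  choose f hf using hex
  refine ⟨fixp f, fun t => ?_⟩
  have h := hf (fun u => if _h : u < t then fixp f u else default) t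
  have e : fixp f t = f (fun u => if _h : u < t then fixp f u else default) t := by
    rw [fixp]
  rw [← e] at h
  refine hloc _ _ _ _ ?_ h
  intro u hu
  simp [hu]

theorem exists_run2 (R : (ℕ → ℕ) → (ℕ → ℕ) → ℕ → ℕ → ℕ → Prop)
    (hloc : ∀ x θ x' θ' t y φ, (∀ u < t, x u = x' u) → (∀ u < t, θ u = θ' u) →
      R x θ t y φ → R x' θ' t y φ)
    (hex : ∀ x θ t, ∃ y φ, R x θ t y φ) : ∃ x θ : ℕ → ℕ, ∀ t, R x θ t (x t) (θ t) := by
  obtain ⟨p, hp⟩ := exists_run (α := ℕ × ℕ)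
    (fun p t a => R (fun u => (p u).1) (fun u => (p u).2) t a.1 a.2)
    (fun p p' t a h hR => hloc _ _ _ _ _ _ _ (fun u hu => by rw [h u hu])
      (fun u hu => by rw [h u hu]) hR)
    (fun p t => by
      obtain ⟨y, φ, h⟩ := hex (fun u => (p u).1) (fun u => (p u).2) t
      exact ⟨(y, φ), h⟩)
  exact ⟨fun u => (p u).1, fun u => (p u).2, hp⟩

/-- Gap counting: values in a window of length `B`, pairwise at least `L` apart. -/
theorem gap_count (S : Finset ℕ) (g : ℕ → ℕ) (A B L : ℕ) (hL : 0 < L)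
    (hgap : ∀ a ∈ S, ∀ b ∈ S, a < b → g a + L ≤ g b)
    (hwin : ∀ a ∈ S, A ≤ g a ∧ g a < A + B) : S.card * L ≤ B + L := by
  have h1 : S.card ≤ (range (B / L + 1)).card := by
    apply card_le_card_of_injOn (fun a => (g a - A) / L)
    · intro a ha
      have := hwin a ha
      simp only [coe_range, Set.mem_Iio]
      exact Nat.lt_succ_of_le (Nat.div_le_div_right (by omega))
    · intro a ha b hb hab
      have key : ∀ a ∈ S, ∀ b ∈ S, a < b → (g a - A) / L < (g b - A) / L := by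
        intro a ha b hb h
        have h1 := hgap a ha b hb h
        have h2 := hwin a ha
        have h3 : g a - A + L ≤ g b - A := by omega
        calc (g a - A) / L < (g a - A) / L + 1 := Nat.lt_succ_self _
          _ = (g a - A + L) / L := (Nat.add_div_right _ hL).symm
          _ ≤ _ := Nat.div_le_div_right h3
      rcases lt_trichotomy a b with h | h | h
      · exact absurd hab (ne_of_lt (key a ha b hb h))
      · exact h
      · exact absurd hab.symm (ne_of_lt (key b hb a ha h))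
  rw [card_range] at h1
  calc S.card * L ≤ (B / L + 1) * L := Nat.mul_le_mul_right _ h1
    _ = B / L * L + L := by ring
    _ ≤ B + L := Nat.add_le_add_right (Nat.div_mul_le_self _ _) _

/-- Periodic schedule on a convex set of slots. -/
theorem per_count (I : Finset ℕ) (W q φ l : ℕ) (hW : 0 < W) (hq : 0 < q)
    (hconv : ∀ a ∈ I, ∀ b ∈ I, ∀ u, a ≤ u → u ≤ b → u ∈ I) :
    q * (I.filter (fun k => (k / W + φ) % q = l)).card ≤ I.card + q * W := by
  rcases I.eq_empty_or_nonempty with h | h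
  · subst h; simp
  set a := I.min' h with ha
  have hQ : 0 < W * q := Nat.mul_pos hW hq
  have h1 : (I.filter (fun k => (k / W + φ) % q = l)).card ≤
      ((range (I.card / (W * q) + 1)) ×ˢ (range W)).card := by
    apply card_le_card_of_injOn (fun k => ((k - a) / (W * q), k % W))
    · intro k hk
      have hk' : k ∈ I := (mem_filter.1 hk).1
      have hsub : Icc a k ⊆ I := by
        intro u hu
        rw [mem_Icc] at hu
        exact hconv a (I.min'_mem h) k hk' u hu.1 hu.2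
      have hc := card_le_card hsub
      rw [Nat.card_Icc] at hc
      simp only [coe_product, coe_range, Set.mem_prod, Set.mem_Iio]
      exact ⟨Nat.lt_succ_of_le (Nat.div_le_div_right (by omega)), Nat.mod_lt _ hW⟩
    · have key : ∀ k ∈ I.filter (fun k => (k / W + φ) % q = l),
          ∀ k' ∈ I.filter (fun k => (k / W + φ) % q = l), k ≤ k' →
          (k - a) / (W * q) = (k' - a) / (W * q) → k % W = k' % W → k = k' := by
        intro k hk k' hk' hle h1 h2
        rw [mem_filter] at hk hk'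
        have hak : a ≤ k := I.min'_le k hk.1
        have hlt : k' - k < W * q := by
          have e1 := Nat.div_add_mod (k - a) (W * q)
          have e2 := Nat.div_add_mod (k' - a) (W * q)
          have e3 := Nat.mod_lt (k' - a) hQ
          rw [← h1] at e2
          omega
        have hm : k / W ≡ k' / W [MOD q] := by
          have : (k / W + φ) ≡ (k' / W + φ) [MOD q] := by
            unfold Nat.ModEq; rw [hk.2, hk'.2]
          exact Nat.ModEq.add_right_cancel' φ this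
        have hdiv : k / W ≤ k' / W := Nat.div_le_div_right hle
        obtain ⟨r, hr⟩ := (Nat.modEq_iff_dvd' hdiv).1 hm
        have e1 := Nat.div_add_mod k W
        have e2 := Nat.div_add_mod k' W
        have e3 : k' / W = k / W + q * r := by omega
        rw [e3] at e2
        have e4 : k' - k = W * q * r := by
          have : W * (k / W + q * r) = W * (k / W) + W * q * r := by ring
          omega
        rcases Nat.eq_zero_or_pos r with h0 | h0
        · subst h0; omega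
        · have : W * q * 1 ≤ W * q * r := Nat.mul_le_mul_left _ h0
          omega
      intro k hk k' hk' hkk
      simp only [Prod.mk.injEq] at hkk
      rcases le_total k k' with h | h
      · exact key k hk k' hk' h hkk.1 hkk.2
      · exact (key k' hk' k hk h hkk.1.symm hkk.2.symm).symm
  rw [card_product, card_range, card_range] at h1
  calc q * _ ≤ q * ((I.card / (W * q) + 1) * W) := Nat.mul_le_mul_left _ h1
    _ = I.card / (W * q) * (W * q) + q * W := by ring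
    _ ≤ _ := Nat.add_le_add_right (Nat.div_mul_le_self _ _) _

theorem sum_dyadic (F : ℕ → ℕ) (N s : ℕ) :
    ∑ t ∈ Ico N (N * 2 ^ s), F t = ∑ i ∈ range s, ∑ t ∈ Ico (N * 2 ^ i) (N * 2 ^ (i + 1)), F t := by
  induction s with
  | zero => simp
  | succ s ih =>
    rw [sum_range_succ, ← ih, sum_Ico_consecutive]
    · exact Nat.le_mul_of_pos_right _ (by positivity)
    · exact Nat.mul_le_mul_left _ (Nat.pow_le_pow_right (by norm_num) (Nat.le_succ _))

theorem sum_scaled (T : Finset ℕ) (f : ℕ → ℕ) (L B W : ℕ) (hL : 0 < L)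
    (hf : ∀ t ∈ T, f t * L ≤ B) (hT : T.card * W ≤ L) : (∑ t ∈ T, f t) * W ≤ B := by
  have h1 : (∑ t ∈ T, f t) * L ≤ T.card * B := by
    rw [sum_mul]
    calc _ ≤ ∑ _t ∈ T, B := sum_le_sum hf
      _ = _ := by simp
  have h2 : (∑ t ∈ T, f t) * W * L ≤ B * L := by
    calc (∑ t ∈ T, f t) * W * L = (∑ t ∈ T, f t) * L * W := by ring
      _ ≤ T.card * B * W := Nat.mul_le_mul_right _ h1
      _ = B * (T.card * W) := by ring
      _ ≤ B * L := Nat.mul_le_mul_left _ hT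
  exact Nat.le_of_mul_le_mul_right h2 hL

theorem sum_min_pow (w s : ℕ) :
    ∑ i ∈ range s, min (2 ^ s) (2 ^ w * 2 ^ i) ≤ (w + 1) * 2 ^ s := by
  rcases le_or_gt s w with h | h
  · calc _ ≤ ∑ _i ∈ range s, 2 ^ s := sum_le_sum (fun i _ => min_le_left _ _)
      _ = s * 2 ^ s := by simp
      _ ≤ _ := Nat.mul_le_mul_right _ (by omega)
  · obtain ⟨r, rfl⟩ : ∃ r, s = r + w := ⟨s - w, by omega⟩
    rw [sum_range_add]
    have h1 : ∑ i ∈ range r, min (2 ^ (r + w)) (2 ^ w * 2 ^ i) ≤ 2 ^ (r + w) := by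
      calc _ ≤ ∑ i ∈ range r, 2 ^ w * 2 ^ i := sum_le_sum (fun i _ => min_le_right _ _)
        _ = 2 ^ w * ∑ i ∈ range r, 2 ^ i := by rw [mul_sum]
        _ ≤ 2 ^ w * 2 ^ r := Nat.mul_le_mul_left _ (Nat.geomSum_lt (le_refl 2) (by simp)).le
        _ = _ := by ring
    have h2 : ∑ i ∈ range w, min (2 ^ (r + w)) (2 ^ w * 2 ^ (r + i)) ≤ w * 2 ^ (r + w) := by
      calc _ ≤ ∑ _i ∈ range w, 2 ^ (r + w) := sum_le_sum (fun i _ => min_le_left _ _)
        _ = _ := by simp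
    calc _ ≤ 2 ^ (r + w) + w * 2 ^ (r + w) := Nat.add_le_add h1 h2
      _ = _ := by ring

theorem card_pairs_left (A B : Finset ℕ) (r : ℕ → ℕ → Prop) [∀ a b, Decidable (r a b)] :
    ((A ×ˢ B).filter (fun p => r p.1 p.2)).card = ∑ a ∈ A, (B.filter (fun b => r a b)).card := by
  rw [card_filter, sum_product]
  refine sum_congr rfl (fun a _ => ?_)
  rw [card_filter]

theorem card_pairs_right (A B : Finset ℕ) (r : ℕ → ℕ → Prop) [∀ a b, Decidable (r a b)] :
    ((A ×ˢ B).filter (fun p => r p.1 p.2)).card = ∑ b ∈ B, (A.filter (fun a => r a b)).card := by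
  rw [card_filter, sum_product, sum_comm]
  refine sum_congr rfl (fun a _ => ?_)
  rw [card_filter]

/-- Averaging over the phase. -/
theorem exists_phase (S : Finset (ℕ × ℕ)) (g l : ℕ × ℕ → ℕ) (q : ℕ) (hq : 0 < q) :
    ∃ φ, q * (S.filter (fun p => (g p + φ) % q = l p)).card ≤ S.card := by
  have h1 : ∑ φ ∈ range q, (S.filter (fun p => (g p + φ) % q = l p)).card ≤ S.card := by
    simp_rw [card_filter]
    rw [sum_comm]
    calc _ ≤ ∑ _p ∈ S, 1 := by
          refine sum_le_sum (fun p _ => ?_)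
          rw [← card_filter]
          refine card_le_one.2 ?_
          intro a ha b hb
          rw [mem_filter, mem_range] at ha hb
          have : (g p + a) ≡ (g p + b) [MOD q] := by
            unfold Nat.ModEq; rw [ha.2, hb.2]
          exact Nat.ModEq.eq_of_lt_of_lt (Nat.ModEq.add_left_cancel' _ this) ha.1 hb.1
      _ = _ := by simp
  by_contra hcon
  push Not at hcon
  have h2 : ∑ _φ ∈ range q, S.card <
      ∑ φ ∈ range q, q * (S.filter (fun p => (g p + φ) % q = l p)).card :=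
    sum_lt_sum_of_nonempty ⟨0, mem_range.2 hq⟩ (fun φ _ => hcon φ)
  rw [← mul_sum] at h2
  simp only [sum_const, card_range, smul_eq_mul] at h2
  have := Nat.mul_le_mul_left q h1
  omega

end Pool.Agent.MP_d19b84_nt.H59

end MrgPart0

-- ======== part 1: formerly Pool.Agent.MP_d19b84_nt.H59Run
section MrgPart1

set_option autoImplicit false

namespace Pool.Agent.MP_d19b84_nt.H59

open Finset

/-- Sum of the terms placed in the slots below `k`. -/
def sg (x : ℕ → ℕ) (k : ℕ) : ℕ := ∑ u ∈ range k, x u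

/-- The state aimed at, from state `e` with scheduled type `ρ`. -/
def nxt (M : ℕ) (e ρ : ℤ) : ℤ :=
  if e = ρ ∨ e = -ρ then -e else if e = 6 * (M : ℤ) then ρ else 6 * (M : ℤ)

/-- Index of the scheduled type of slot `t`. -/
def io (W q : ℕ) (θ : ℕ → ℕ) (t : ℕ) : ℕ := (t / W + θ t) % q

/-- State before slot `t`. -/
def st (M W q : ℕ) (v x θ : ℕ → ℕ) : ℕ → ℤ
  | 0 => 6 * (M : ℤ)
  | t + 1 => if x t = 0 then st M W q v x θ t
      else nxt M (st M W q v x θ t) (v (io W q θ t))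

/-- `y` is a block sum of earlier terms. -/
def Blk (x : ℕ → ℕ) (D t y : ℕ) : Prop :=
  (∃ j ≤ t, ∃ k ≤ t, y + sg x j = sg x k) ∨ ∃ k ≤ t, ∃ d ≤ D, y = sg x k + d

/-- The block from after slot `j` to slot `k` has sum in `[cP, 2cP)`. -/
abbrev Win (c : ℕ) (x : ℕ → ℕ) (P j k : ℕ) : Prop :=
  c * P + sg x (j + 1) ≤ sg x (k + 1) ∧ sg x (k + 1) < c * P + sg x (j + 1) + c * P

/-- Pairs of occupied slots of the same scheduled type with block sum in the window. -/
def HS (c W q N : ℕ) (x θ : ℕ → ℕ) (P : ℕ) : Finset (ℕ × ℕ) :=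
  (Ico N P ×ˢ Ico N P).filter (fun p => p.1 < p.2 ∧ x p.1 ≠ 0 ∧ x p.2 ≠ 0 ∧
    io W q θ p.1 = io W q θ p.2 ∧ Win c x P p.1 p.2)

/-- Those pairs that hit a slot of their own type under phase `φ`. -/
def Bad (c W q N : ℕ) (x θ : ℕ → ℕ) (P φ : ℕ) : Finset (ℕ × ℕ) :=
  (HS c W q N x θ P).filter
    (fun p => ((sg x (p.2 + 1) - sg x (p.1 + 1)) / c / W + φ) % q = io W q θ p.1)

/-- One step of the construction. -/
def Step (M W q N D : ℕ) (v x θ : ℕ → ℕ) (t y φ : ℕ) : Prop :=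
  ((∃ s, t = N * 2 ^ s) →
    q * (Bad (12 * M) W q N x θ t φ).card ≤ (HS (12 * M) W q N x θ t).card) ∧
  ((¬ ∃ s, t = N * 2 ^ s) → ∀ t', t = t' + 1 → φ = θ t') ∧
  (t < N → y = 0) ∧
  (N ≤ t → ∃ y0 : ℕ, 12 * M * t ≤ y0 ∧ y0 < 12 * M * (t + 1) ∧
    (y0 : ℤ) ≡ nxt M (st M W q v x θ t) (v ((t / W + φ) % q)) - st M W q v x θ t
      [ZMOD (12 * (M : ℤ))] ∧
    ((Blk x D t y0 ∧ y = 0) ∨ (¬ Blk x D t y0 ∧ y = y0)))

theorem sg_succ (x : ℕ → ℕ) (k : ℕ) : sg x (k + 1) = sg x k + x k := sum_range_succ _ _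

theorem sg_zero (x : ℕ → ℕ) : sg x 0 = 0 := rfl

theorem sg_mono (x : ℕ → ℕ) {a b : ℕ} (h : a ≤ b) : sg x a ≤ sg x b :=
  sum_le_sum_of_subset (range_mono h)

theorem sg_congr {x x' : ℕ → ℕ} {t : ℕ} (h : ∀ u < t, x u = x' u) {k : ℕ} (hk : k ≤ t) :
    sg x k = sg x' k :=
  sum_congr rfl (fun u hu => h u (lt_of_lt_of_le (mem_range.1 hu) hk))

theorem io_congr {W q : ℕ} {θ θ' : ℕ → ℕ} {t : ℕ} (h : ∀ u < t, θ u = θ' u) {k : ℕ}
    (hk : k < t) : io W q θ k = io W q θ' k := by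
  unfold io; rw [h k hk]

theorem st_congr {M W q : ℕ} {v x θ x' θ' : ℕ → ℕ} {t : ℕ} (hx : ∀ u < t, x u = x' u)
    (hθ : ∀ u < t, θ u = θ' u) : ∀ k ≤ t, st M W q v x θ k = st M W q v x' θ' k := by
  intro k
  induction k with
  | zero => intro _; rfl
  | succ k ih =>
    intro hk
    simp only [st]
    rw [ih (by omega), hx k (by omega), io_congr hθ (show k < t by omega)]

theorem Blk_congr {x x' : ℕ → ℕ} {D t y : ℕ} (h : ∀ u < t, x u = x' u) (hb : Blk x D t y) :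
    Blk x' D t y := by
  rcases hb with ⟨j, hj, k, hk, e⟩ | ⟨k, hk, d, hd, e⟩
  · exact Or.inl ⟨j, hj, k, hk, by rw [← sg_congr h hj, ← sg_congr h hk]; exact e⟩
  · exact Or.inr ⟨k, hk, d, hd, by rw [← sg_congr h hk]; exact e⟩

theorem HS_congr {c W q N : ℕ} {x θ x' θ' : ℕ → ℕ} {t : ℕ} (hx : ∀ u < t, x u = x' u)
    (hθ : ∀ u < t, θ u = θ' u) : HS c W q N x θ t = HS c W q N x' θ' t := by
  unfold HS
  refine filter_congr (fun p hp => ?_)
  rw [mem_product, mem_Ico, mem_Ico] at hp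
  unfold Win
  rw [hx p.1 hp.1.2, hx p.2 hp.2.2, io_congr hθ hp.1.2, io_congr hθ hp.2.2,
    sg_congr hx (show p.1 + 1 ≤ t from hp.1.2), sg_congr hx (show p.2 + 1 ≤ t from hp.2.2)]

theorem Bad_congr {c W q N φ : ℕ} {x θ x' θ' : ℕ → ℕ} {t : ℕ} (hx : ∀ u < t, x u = x' u)
    (hθ : ∀ u < t, θ u = θ' u) : Bad c W q N x θ t φ = Bad c W q N x' θ' t φ := by
  unfold Bad
  rw [← HS_congr hx hθ]
  refine filter_congr (fun p hp => ?_)
  unfold HS at hp
  rw [mem_filter, mem_product, mem_Ico, mem_Ico] at hp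
  rw [io_congr hθ hp.1.1.2,
    sg_congr hx (show p.1 + 1 ≤ t from hp.1.1.2), sg_congr hx (show p.2 + 1 ≤ t from hp.1.2.2)]

theorem Step_congr (M W q N D : ℕ) (v x θ x' θ' : ℕ → ℕ) (t y φ : ℕ)
    (hx : ∀ u < t, x u = x' u) (hθ : ∀ u < t, θ u = θ' u)
    (h : Step M W q N D v x θ t y φ) : Step M W q N D v x' θ' t y φ := by
  obtain ⟨h1, h2, h3, h4⟩ := h
  refine ⟨fun hs => ?_, fun hs t' ht => ?_, h3, fun hN => ?_⟩
  · rw [← Bad_congr hx hθ, ← HS_congr hx hθ]; exact h1 hs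
  · rw [← hθ t' (by omega)]; exact h2 hs t' ht
  · obtain ⟨y0, a1, a2, a3, a4⟩ := h4 hN
    refine ⟨y0, a1, a2, ?_, ?_⟩
    · rw [← st_congr hx hθ t le_rfl]; exact a3
    · rcases a4 with ⟨b1, b2⟩ | ⟨b1, b2⟩
      · exact Or.inl ⟨Blk_congr hx b1, b2⟩
      · exact Or.inr ⟨fun hb => b1 (Blk_congr (fun u hu => (hx u hu).symm) hb), b2⟩

theorem exists_residue (c t : ℕ) (hc : 0 < c) (r : ℤ) :
    ∃ y0 : ℕ, c * t ≤ y0 ∧ y0 < c * (t + 1) ∧ (y0 : ℤ) ≡ r [ZMOD (c : ℤ)] := by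
  have h0 : 0 ≤ r % (c : ℤ) := Int.emod_nonneg _ (by exact_mod_cast hc.ne')
  have h1 : r % (c : ℤ) < c := Int.emod_lt_of_pos _ (by exact_mod_cast hc)
  refine ⟨c * t + (r % (c : ℤ)).toNat, Nat.le_add_right _ _, ?_, ?_⟩
  · have : (r % (c : ℤ)).toNat < c := by omega
    rw [mul_add, mul_one]; omega
  · push_cast
    rw [Int.toNat_of_nonneg h0]
    have : ((c : ℤ) * t + r % c) ≡ 0 + r [ZMOD (c : ℤ)] := by
      refine Int.ModEq.add ?_ (Int.mod_modEq _ _)
      exact (Int.modEq_zero_iff_dvd).2 (dvd_mul_right _ _)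
    simpa using this

theorem Step_exists (M W q N D : ℕ) (hM : 0 < M) (hq : 0 < q) (v x θ : ℕ → ℕ) (t : ℕ) :
    ∃ y φ, Step M W q N D v x θ t y φ := by
  have hφ : ∃ φ, ((∃ s, t = N * 2 ^ s) →
      q * (Bad (12 * M) W q N x θ t φ).card ≤ (HS (12 * M) W q N x θ t).card) ∧
      ((¬ ∃ s, t = N * 2 ^ s) → ∀ t', t = t' + 1 → φ = θ t') := by
    by_cases hs : ∃ s, t = N * 2 ^ s
    · obtain ⟨φ, h⟩ := exists_phase (HS (12 * M) W q N x θ t)
        (fun p => (sg x (p.2 + 1) - sg x (p.1 + 1)) / (12 * M) / W) (fun p => io W q θ p.1) q hq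
      exact ⟨φ, fun _ => h, fun h' => absurd hs h'⟩
    · exact ⟨θ (t - 1), fun h' => absurd h' hs, fun _ t' ht => by rw [ht]; rfl⟩
  obtain ⟨φ, h1, h2⟩ := hφ
  rcases lt_or_ge t N with hN | hN
  · exact ⟨0, φ, h1, h2, fun _ => rfl, fun h => absurd hN (by omega)⟩
  · obtain ⟨y0, a1, a2, a3⟩ := exists_residue (12 * M) t (by omega)
      (nxt M (st M W q v x θ t) (v ((t / W + φ) % q)) - st M W q v x θ t)
    push_cast at a3
    by_cases hb : Blk x D t y0
    · exact ⟨0, φ, h1, h2, fun _ => rfl, fun _ => ⟨y0, a1, a2, a3, Or.inl ⟨hb, rfl⟩⟩⟩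
    · exact ⟨y0, φ, h1, h2, fun h => absurd h (by omega),
        fun _ => ⟨y0, a1, a2, a3, Or.inr ⟨hb, rfl⟩⟩⟩

/-- The properties of a complete run. -/
structure Run (M W q N D : ℕ) (v x θ : ℕ → ℕ) : Prop where
  slot : ∀ t, x t = 0 ∨ (N ≤ t ∧ 12 * M * t ≤ x t ∧ x t < 12 * M * (t + 1))
  occ : ∀ t, x t ≠ 0 → ¬ Blk x D t (x t) ∧
    (x t : ℤ) ≡ nxt M (st M W q v x θ t) (v (io W q θ t)) - st M W q v x θ t
      [ZMOD (12 * (M : ℤ))]
  emp : ∀ t, N ≤ t → x t = 0 → ∃ y : ℕ, 12 * M * t ≤ y ∧ y < 12 * M * (t + 1) ∧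
    (y : ℤ) ≡ nxt M (st M W q v x θ t) (v (io W q θ t)) - st M W q v x θ t
      [ZMOD (12 * (M : ℤ))] ∧ Blk x D t y
  avg : ∀ s, q * (Bad (12 * M) W q N x θ (N * 2 ^ s) (θ (N * 2 ^ s))).card ≤
    (HS (12 * M) W q N x θ (N * 2 ^ s)).card
  phase : ∀ s t, N * 2 ^ s ≤ t → t < N * 2 ^ (s + 1) → θ t = θ (N * 2 ^ s)

theorem exists_Run (M W q N D : ℕ) (hM : 0 < M) (hq : 0 < q) (v : ℕ → ℕ) :
    ∃ x θ, Run M W q N D v x θ := by
  obtain ⟨x, θ, h⟩ := exists_run2 (Step M W q N D v)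
    (fun x θ x' θ' t y φ => Step_congr M W q N D v x θ x' θ' t y φ)
    (fun x θ t => Step_exists M W q N D hM hq v x θ t)
  refine ⟨x, θ, ⟨fun t => ?_, fun t ht => ?_, fun t hN1 ht => ?_, fun s => ?_, fun s t h1 h2 => ?_⟩⟩
  · rcases lt_or_ge t N with hN | hN
    · exact Or.inl ((h t).2.2.1 hN)
    · obtain ⟨y0, a1, a2, -, a4⟩ := (h t).2.2.2 hN
      rcases a4 with ⟨-, b⟩ | ⟨-, b⟩
      · exact Or.inl b
      · exact Or.inr ⟨hN, by rw [b]; exact a1, by rw [b]; exact a2⟩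
  · rcases lt_or_ge t N with hN | hN
    · exact absurd ((h t).2.2.1 hN) ht
    · obtain ⟨y0, -, -, a3, a4⟩ := (h t).2.2.2 hN
      rcases a4 with ⟨-, b⟩ | ⟨b1, b⟩
      · exact absurd b ht
      · exact ⟨by rw [b]; exact b1, by rw [b]; exact a3⟩
  · obtain ⟨y0, a1, a2, a3, a4⟩ := (h t).2.2.2 hN1
    rcases a4 with ⟨b1, -⟩ | ⟨b1, b⟩
    · exact ⟨y0, a1, a2, a3, b1⟩
    · exfalso
      apply b1
      rw [← b, ht]
      exact Or.inl ⟨0, Nat.zero_le _, 0, Nat.zero_le _, by simp⟩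
  · exact (h _).1 ⟨s, rfl⟩
  · induction t, h1 using Nat.le_induction with
    | base => rfl
    | succ t h1 ih =>
      rw [← ih (by omega)]
      refine (h (t + 1)).2.1 ?_ t rfl
      rintro ⟨s', hs'⟩
      have l1 : N * 2 ^ s < N * 2 ^ s' := by omega
      have l2 : N * 2 ^ s' < N * 2 ^ (s + 1) := by omega
      have l3 := (Nat.pow_lt_pow_iff_right (by norm_num : 1 < 2)).1 (Nat.lt_of_mul_lt_mul_left l1)
      have l4 := (Nat.pow_lt_pow_iff_right (by norm_num : 1 < 2)).1 (Nat.lt_of_mul_lt_mul_left l2)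
      omega

end Pool.Agent.MP_d19b84_nt.H59

end MrgPart1

-- ======== part 2: formerly Pool.Agent.MP_d19b84_nt.H59Struct
section MrgPart2

set_option autoImplicit false

namespace Pool.Agent.MP_d19b84_nt.H59

open Finset

/-- `v 0, ..., v (q-1)` is a progression-free family inside `[M, 2M)`. -/
def Typ (M q : ℕ) (v : ℕ → ℕ) : Prop :=
  (∀ i < q, M ≤ v i ∧ v i < 2 * M) ∧
    ∀ a < q, ∀ b < q, ∀ l < q, v a + v b = 2 * v l → a = l ∧ b = l

theorem nxt_cases (M : ℕ) (e ρ : ℤ) :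
    nxt M e ρ = 6 * (M : ℤ) ∨ nxt M e ρ = ρ ∨ nxt M e ρ = -ρ := by
  unfold nxt
  split_ifs with h1 h2
  · rcases h1 with h | h
    · right; right; rw [h]
    · right; left; rw [h]; ring
  · right; left; rfl
  · left; rfl

theorem eq_zero_of_dvd_small {c y : ℤ} (h : c ∣ y) (h1 : -c < y) (h2 : y < c) : y = 0 := by
  obtain ⟨k, rfl⟩ := h
  have hc : 0 < c := by linarith
  have a1 : -1 < k := by nlinarith
  have a2 : k < 1 := by nlinarith
  have : k = 0 := by omega
  rw [this]; ring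

theorem alg {M q : ℕ} {v : ℕ → ℕ} (hv : Typ M q v) {e f g : ℤ} {a b l : ℕ}
    (he : e = 6 * (M : ℤ) ∨ ∃ i < q, e = v i ∨ e = -(v i : ℤ))
    (ha : a < q) (hb : b < q) (hl : l < q)
    (hf : f = v a ∨ f = -(v a : ℤ)) (hg : g = v b ∨ g = -(v b : ℤ))
    (h : g - f ≡ nxt M e (v l) - e [ZMOD (12 * (M : ℤ))]) : a = l ∧ b = l := by
  have hd := (Int.modEq_iff_dvd).1 h
  obtain ⟨a1, a2⟩ := hv.1 a ha
  obtain ⟨b1, b2⟩ := hv.1 b hb
  obtain ⟨l1, l2⟩ := hv.1 l hl
  unfold nxt at hd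
  split_ifs at hd with h1 h2
  · have h0 : -e - e - (g - f) = 0 := by
      apply eq_zero_of_dvd_small hd <;> omega
    apply hv.2 a ha b hb l hl
    omega
  · exfalso
    have h0 : (v l : ℤ) - e - (g - f) = 0 := by
      apply eq_zero_of_dvd_small hd <;> omega
    omega
  · exfalso
    rcases he with he | ⟨i, hi, he⟩
    · exact h2 he
    · obtain ⟨i1, i2⟩ := hv.1 i hi
      have h0 : 6 * (M : ℤ) - e - (g - f) = 0 := by
        apply eq_zero_of_dvd_small hd <;> omega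
      omega

theorem io_lt {W q : ℕ} (hq : 0 < q) (θ : ℕ → ℕ) (t : ℕ) : io W q θ t < q := Nat.mod_lt _ hq

theorem st_succ_occ {M W q : ℕ} {v x θ : ℕ → ℕ} {t : ℕ} (h : x t ≠ 0) :
    st M W q v x θ (t + 1) = nxt M (st M W q v x θ t) (v (io W q θ t)) := by
  simp only [st, if_neg h]

theorem st_succ_emp {M W q : ℕ} {v x θ : ℕ → ℕ} {t : ℕ} (h : x t = 0) :
    st M W q v x θ (t + 1) = st M W q v x θ t := by
  simp only [st, if_pos h]

theorem st_mem {M W q : ℕ} (hq : 0 < q) (v x θ : ℕ → ℕ) (t : ℕ) :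
    st M W q v x θ t = 6 * (M : ℤ) ∨
      ∃ i < q, st M W q v x θ t = v i ∨ st M W q v x θ t = -(v i : ℤ) := by
  induction t with
  | zero => left; rfl
  | succ t ih =>
    by_cases h : x t = 0
    · rw [st_succ_emp h]; exact ih
    · rw [st_succ_occ h]
      rcases nxt_cases M (st M W q v x θ t) (v (io W q θ t)) with h1 | h1
      · exact Or.inl h1
      · exact Or.inr ⟨_, io_lt hq θ t, h1⟩

theorem sg_norm (x : ℕ → ℕ) (k : ℕ) :
    sg x k = 0 ∨ ∃ k' < k, x k' ≠ 0 ∧ sg x k = sg x (k' + 1) := by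
  induction k with
  | zero => left; rfl
  | succ k ih =>
    by_cases h : x k = 0
    · rw [sg_succ, h, add_zero]
      rcases ih with ih | ⟨k', h1, h2, h3⟩
      · exact Or.inl ih
      · exact Or.inr ⟨k', by omega, h2, h3⟩
    · exact Or.inr ⟨k, by omega, h, rfl⟩

theorem sg_add_le (x : ℕ → ℕ) {a u b : ℕ} (h1 : a ≤ u) (h2 : u < b) :
    sg x a + x u ≤ sg x b := by
  have e1 := sg_mono x h1
  have e2 := sg_mono x (show u + 1 ≤ b from h2)
  rw [sg_succ] at e2
  omega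

theorem sg_jump (x : ℕ → ℕ) {a b : ℕ} (h : sg x a < sg x b) :
    ∃ u, a ≤ u ∧ u < b ∧ x u ≠ 0 := by
  by_contra hcon
  push Not at hcon
  have hab : a ≤ b := by
    by_contra hh
    have := sg_mono x (show b ≤ a by omega)
    omega
  have : ∀ k, a ≤ k → k ≤ b → sg x k = sg x a := by
    intro k hk
    induction k, hk using Nat.le_induction with
    | base => intro _; rfl
    | succ k hk ih =>
      intro h2
      rw [sg_succ, hcon k hk (by omega), add_zero, ih (by omega)]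
  have := this b hab le_rfl
  omega

section
variable {M W q N D : ℕ} {v x θ : ℕ → ℕ}

theorem Run.ge (hR : Run M W q N D v x θ) {t : ℕ} (h : x t ≠ 0) : N ≤ t := by
  rcases hR.slot t with h1 | h1
  · exact absurd h1 h
  · exact h1.1

theorem Run.lo (hR : Run M W q N D v x θ) {t : ℕ} (h : x t ≠ 0) : 12 * M * t ≤ x t := by
  rcases hR.slot t with h1 | h1
  · exact absurd h1 h
  · exact h1.2.1

theorem Run.lo' (hR : Run M W q N D v x θ) {t L : ℕ} (h : x t ≠ 0) (hL : L ≤ t) :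
    12 * M * L ≤ x t :=
  le_trans (Nat.mul_le_mul_left _ hL) (hR.lo h)

theorem Run.hi (hR : Run M W q N D v x θ) {t : ℕ} (h : x t ≠ 0) : x t < 12 * M * (t + 1) := by
  rcases hR.slot t with h1 | h1
  · exact absurd h1 h
  · exact h1.2.2

theorem Run.cong (hR : Run M W q N D v x θ) (t : ℕ) :
    (sg x t : ℤ) + 6 * (M : ℤ) ≡ st M W q v x θ t [ZMOD (12 * (M : ℤ))] := by
  induction t with
  | zero => simp [sg_zero, st]
  | succ t ih =>
    by_cases h : x t = 0
    · rw [st_succ_emp h, sg_succ, h, add_zero]; exact ih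
    · rw [st_succ_occ h, sg_succ]
      have := ih.add (hR.occ t h).2
      push_cast
      convert this using 1 <;> ring

theorem z_once (hq : 0 < q) (hv : Typ M q v) {j k : ℕ} (hjk : j < k)
    (hj : st M W q v x θ (j + 1) = 6 * (M : ℤ)) (hk : x k ≠ 0)
    (hio : ∀ u, j ≤ u → u ≤ k → io W q θ u = io W q θ j) :
    st M W q v x θ (k + 1) ≠ 6 * (M : ℤ) := by
  obtain ⟨b1, b2⟩ := hv.1 _ (io_lt (W := W) hq θ j)
  have key : ∀ u, j + 1 ≤ u → u ≤ k → st M W q v x θ u = 6 * (M : ℤ) ∨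
      st M W q v x θ u = v (io W q θ j) ∨ st M W q v x θ u = -(v (io W q θ j) : ℤ) := by
    intro u hu
    induction u, hu using Nat.le_induction with
    | base => intro _; exact Or.inl hj
    | succ u hu ih =>
      intro h2
      by_cases h : x u = 0
      · rw [st_succ_emp h]; exact ih (by omega)
      · rw [st_succ_occ h, hio u (by omega) (by omega)]
        exact nxt_cases _ _ _
  rw [st_succ_occ hk, hio k hjk.le le_rfl]
  have := key k hjk le_rfl
  unfold nxt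
  split_ifs with h1 h2 <;> omega

theorem Run.z_card (hR : Run M W q N D v x θ) (hq : 0 < q) (hv : Typ M q v) (hW : 0 < W)
    (hWN : W ∣ N) (i : ℕ) :
    ((Ico (N * 2 ^ i) (N * 2 ^ (i + 1))).filter
      (fun j => x j ≠ 0 ∧ st M W q v x θ (j + 1) = 6 * (M : ℤ))).card * W ≤ N * 2 ^ i := by
  obtain ⟨n, rfl⟩ := hWN
  have h1 : ((Ico (W * n * 2 ^ i) (W * n * 2 ^ (i + 1))).filter
      (fun j => x j ≠ 0 ∧ st M W q v x θ (j + 1) = 6 * (M : ℤ))).card ≤
      (Ico (n * 2 ^ i) (n * 2 ^ (i + 1))).card := by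
    apply card_le_card_of_injOn (fun j => j / W)
    · intro j hj
      have hj' := mem_Ico.1 (mem_filter.1 hj).1
      simp only [coe_Ico, Set.mem_Ico]
      constructor
      · rw [Nat.le_div_iff_mul_le hW]
        calc n * 2 ^ i * W = W * n * 2 ^ i := by ring
          _ ≤ j := hj'.1
      · rw [Nat.div_lt_iff_lt_mul hW]
        calc j < W * n * 2 ^ (i + 1) := hj'.2
          _ = _ := by ring
    · have key : ∀ j ∈ (Ico (W * n * 2 ^ i) (W * n * 2 ^ (i + 1))).filter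
          (fun j => x j ≠ 0 ∧ st M W q v x θ (j + 1) = 6 * (M : ℤ)),
          ∀ k ∈ (Ico (W * n * 2 ^ i) (W * n * 2 ^ (i + 1))).filter
          (fun j => x j ≠ 0 ∧ st M W q v x θ (j + 1) = 6 * (M : ℤ)), j < k → j / W ≠ k / W := by
        intro j hj k hk hjk he
        rw [mem_filter, mem_Ico] at hj hk
        refine z_once hq hv hjk hj.2.2 hk.2.1 ?_ hk.2.2
        intro u h1 h2
        unfold io
        rw [hR.phase i u (by omega) (by omega), hR.phase i j hj.1.1 hj.1.2]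
        have a1 : j / W ≤ u / W := Nat.div_le_div_right h1
        have a2 : u / W ≤ k / W := Nat.div_le_div_right h2
        have : u / W = j / W := by omega
        rw [this]
      intro j hj k hk he
      rcases lt_trichotomy j k with h | h | h
      · exact absurd he (key j hj k hk h)
      · exact h
      · exact absurd he.symm (key k hk j hj h)
  rw [Nat.card_Ico] at h1
  have e : n * 2 ^ (i + 1) - n * 2 ^ i = n * 2 ^ i := by
    rw [pow_succ, ← mul_assoc]; omega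
  rw [e] at h1
  calc _ ≤ n * 2 ^ i * W := Nat.mul_le_mul_right _ h1
    _ = _ := by ring

theorem Run.classify (hR : Run M W q N D v x θ) (hM : 0 < M) (hq : 0 < q) (hv : Typ M q v)
    (hD : D < 12 * M * N) {P t : ℕ} (hNP : N ≤ P) (h1 : P ≤ t) (h2 : t < 2 * P) (ht : x t = 0) :
    (∃ d ≤ D, ∃ k < 2 * P, x k ≠ 0 ∧ 12 * M * P ≤ sg x (k + 1) + d ∧
      sg x (k + 1) + d < 12 * M * P + 12 * M * P ∧ (sg x (k + 1) + d) / (12 * M) = t) ∨
    ∃ j k, j < k ∧ k < 2 * P ∧ j < P ∧ x j ≠ 0 ∧ x k ≠ 0 ∧ Win (12 * M) x P j k ∧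
      (sg x (k + 1) - sg x (j + 1)) / (12 * M) = t ∧
      (P ≤ k ∨ st M W q v x θ (j + 1) = 6 * (M : ℤ) ∨ st M W q v x θ (k + 1) = 6 * (M : ℤ) ∨
        (io W q θ j = io W q θ t ∧ io W q θ k = io W q θ t)) := by
  obtain ⟨y, y1, y2, y3, y4⟩ := hR.emp t (by omega) ht
  have hc : 0 < 12 * M := by omega
  have ydiv : y / (12 * M) = t := by
    rw [Nat.div_eq_iff hc]
    constructor
    · rw [mul_comm]; exact y1
    · have : 12 * M * (t + 1) = t * (12 * M) + 12 * M := by ring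
      omega
  have ylo : 12 * M * P ≤ y := le_trans (Nat.mul_le_mul_left _ h1) y1
  have yN : 12 * M * N ≤ y := le_trans (Nat.mul_le_mul_left _ hNP) ylo
  have yhi : y < 12 * M * P + 12 * M * P := by
    have : 12 * M * (t + 1) ≤ 12 * M * (2 * P) := Nat.mul_le_mul_left _ h2
    have e : 12 * M * (2 * P) = 12 * M * P + 12 * M * P := by ring
    omega
  have caseD : ∀ k ≤ t, ∀ d ≤ D, y = sg x k + d →
      (∃ d ≤ D, ∃ k < 2 * P, x k ≠ 0 ∧ 12 * M * P ≤ sg x (k + 1) + d ∧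
      sg x (k + 1) + d < 12 * M * P + 12 * M * P ∧ (sg x (k + 1) + d) / (12 * M) = t) := by
    intro k hk d hd e
    rcases sg_norm x k with h0 | ⟨k', a1, a2, a3⟩
    · exfalso; omega
    · refine ⟨d, hd, k', by omega, a2, ?_, ?_, ?_⟩ <;> rw [← a3, ← e] <;> assumption
  rcases y4 with ⟨j, hj, k, hk, e⟩ | ⟨k, hk, d, hd, e⟩
  swap
  · exact Or.inl (caseD k hk d hd e)
  rcases sg_norm x j with h0 | ⟨j', b1, b2, b3⟩
  · exact Or.inl (caseD k hk 0 (Nat.zero_le _) (by omega))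
  rcases sg_norm x k with h0 | ⟨k', a1, a2, a3⟩
  · exfalso; omega
  right
  rw [a3, b3] at e
  have hjk : j' < k' := by
    by_contra hh
    have := sg_mono x (show k' + 1 ≤ j' + 1 by omega)
    omega
  have hjP : j' < P := by
    by_contra hh
    have c1 := hR.hi a2
    have c2 : 12 * M * (k' + 1) ≤ 12 * M * t := Nat.mul_le_mul_left _ (by omega)
    have c3 := sg_succ x k'
    obtain ⟨u, u1, u2, u3⟩ := sg_jump x (show sg x (j' + 1) < sg x k' by omega)
    have c4 := sg_add_le x u1 u2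
    have c5 := hR.lo' u3 (show P ≤ u by omega)
    have c6 := hR.lo' a2 (show P ≤ k' by omega)
    omega
  refine ⟨j', k', hjk, by omega, hjP, b2, a2, ⟨by omega, by omega⟩, ?_, ?_⟩
  · rw [← ydiv]; congr 1; omega
  by_cases z1 : st M W q v x θ (j' + 1) = 6 * (M : ℤ)
  · exact Or.inr (Or.inl z1)
  by_cases z2 : st M W q v x θ (k' + 1) = 6 * (M : ℤ)
  · exact Or.inr (Or.inr (Or.inl z2))
  right; right; right
  have f1 := nxt_cases M (st M W q v x θ j') (v (io W q θ j'))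
  have f2 := nxt_cases M (st M W q v x θ k') (v (io W q θ k'))
  rw [← st_succ_occ b2] at f1
  rw [← st_succ_occ a2] at f2
  refine alg hv (st_mem (W := W) hq v x θ t) (io_lt hq θ j') (io_lt hq θ k') (io_lt hq θ t)
    (f1.resolve_left z1) (f2.resolve_left z2) ?_
  refine Int.ModEq.trans ?_ y3
  have := (hR.cong (k' + 1)).sub (hR.cong (j' + 1))
  refine this.symm.trans ?_
  have e' : (y : ℤ) + sg x (j' + 1) = sg x (k' + 1) := by exact_mod_cast e
  rw [← e']
  have : (y : ℤ) + sg x (j' + 1) + 6 * M - (sg x (j' + 1) + 6 * M) = y := by ring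
  rw [this]

end

end Pool.Agent.MP_d19b84_nt.H59

end MrgPart2

-- ======== part 3: formerly Pool.Agent.MP_d19b84_nt.H59Count
section MrgPart3

set_option autoImplicit false

namespace Pool.Agent.MP_d19b84_nt.H59

open Finset

/-- Epoch `i` is at least half full. -/
def HF (N : ℕ) (x : ℕ → ℕ) (i : ℕ) : Prop :=
  2 * ((Ico (N * 2 ^ i) (N * 2 ^ (i + 1))).filter (fun t => x t = 0)).card ≤ N * 2 ^ i

theorem card_epoch (N i : ℕ) : (Ico (N * 2 ^ i) (N * 2 ^ (i + 1))).card = N * 2 ^ i := by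
  rw [Nat.card_Ico, pow_succ, ← mul_assoc]; omega

theorem HF.occ {N : ℕ} {x : ℕ → ℕ} {i : ℕ} (h : HF N x i) :
    N * 2 ^ i ≤ 2 * ((Ico (N * 2 ^ i) (N * 2 ^ (i + 1))).filter (fun t => x t ≠ 0)).card := by
  have h1 := card_filter_add_card_filter_not (s := Ico (N * 2 ^ i) (N * 2 ^ (i + 1)))
    (fun t => x t = 0)
  rw [card_epoch] at h1
  unfold HF at h
  simp only [ne_eq]
  omega

theorem ep_le {N i s : ℕ} (h : i ≤ s) : N * 2 ^ i ≤ N * 2 ^ s :=
  Nat.mul_le_mul_left _ (Nat.pow_le_pow_right (by norm_num) h)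

theorem ep_lt {N i s : ℕ} (h : N * 2 ^ i < N * 2 ^ s) : i < s :=
  (Nat.pow_lt_pow_iff_right (by norm_num : 1 < 2)).1 (Nat.lt_of_mul_lt_mul_left h)

theorem ep_succ (N i : ℕ) : N * 2 ^ (i + 1) = 2 * (N * 2 ^ i) := by ring

theorem ep_ge (N i : ℕ) : N ≤ N * 2 ^ i := Nat.le_mul_of_pos_right _ (by positivity)

section
variable {M W q N D : ℕ} {v x θ : ℕ → ℕ}

theorem Run.epoch_sum (hR : Run M W q N D v x θ) {i : ℕ} (h : HF N x i) :
    2 * sg x (N * 2 ^ i) + N * 2 ^ i * (12 * M * (N * 2 ^ i)) ≤ 2 * sg x (N * 2 ^ (i + 1)) := by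
  have e : sg x (N * 2 ^ (i + 1)) =
      sg x (N * 2 ^ i) + ∑ u ∈ Ico (N * 2 ^ i) (N * 2 ^ (i + 1)), x u := by
    unfold sg
    rw [sum_range_add_sum_Ico _ (ep_le (Nat.le_succ i))]
  have h1 : ((Ico (N * 2 ^ i) (N * 2 ^ (i + 1))).filter (fun t => x t ≠ 0)).card *
      (12 * M * (N * 2 ^ i)) ≤ ∑ u ∈ Ico (N * 2 ^ i) (N * 2 ^ (i + 1)), x u := by
    calc _ = ∑ _u ∈ (Ico (N * 2 ^ i) (N * 2 ^ (i + 1))).filter (fun t => x t ≠ 0),
          12 * M * (N * 2 ^ i) := by simp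
      _ ≤ ∑ u ∈ (Ico (N * 2 ^ i) (N * 2 ^ (i + 1))).filter (fun t => x t ≠ 0), x u := by
          refine sum_le_sum (fun u hu => ?_)
          rw [mem_filter, mem_Ico] at hu
          exact hR.lo' hu.2 hu.1.1
      _ ≤ _ := sum_le_sum_of_subset (filter_subset _ _)
  have h2 := Nat.mul_le_mul_right (12 * M * (N * 2 ^ i)) h.occ
  rw [mul_assoc 2] at h2
  omega

theorem Run.nofar (hR : Run M W q N D v x θ) {s : ℕ} (hNs : 4 * 2 ^ s ≤ N)
    (hHF : ∀ i < s, HF N x i) {j t i : ℕ} (hj : x j ≠ 0) (ht : t < N * 2 ^ s)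
    (hw : Win (12 * M) x (N * 2 ^ s) j t) (hi : N * 2 ^ i ≤ t) : N * 2 ^ i ≤ 2 * j := by
  by_contra hcon
  have hNj := hR.ge hj
  rcases i with _ | i
  · simp at hcon; omega
  have e := ep_succ N i
  have his : i + 1 < s := ep_lt (lt_of_le_of_lt hi ht)
  have h1 := hR.epoch_sum (hHF i (by omega))
  have h2 := sg_mono x (show j + 1 ≤ N * 2 ^ i by omega)
  have h3 := sg_mono x (show N * 2 ^ (i + 1) ≤ t + 1 by omega)
  have h4 : 4 * (12 * M * (N * 2 ^ s)) ≤ N * 2 ^ i * (12 * M * (N * 2 ^ i)) := by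
    calc 4 * (12 * M * (N * 2 ^ s)) = (4 * 2 ^ s) * (12 * M * N) := by ring
      _ ≤ N * 2 ^ i * (12 * M * (N * 2 ^ i)) :=
        Nat.mul_le_mul (le_trans hNs (ep_ge N i)) (Nat.mul_le_mul_left _ (ep_ge N i))
  have h5 := hw.2
  omega

theorem Run.cntR (hR : Run M W q N D v x θ) (hM : 0 < M) (S : Finset ℕ) (A d L P : ℕ)
    (hL : 0 < L) (hS : ∀ k ∈ S, x k ≠ 0 ∧ L ≤ k ∧ A ≤ sg x (k + 1) + d ∧
      sg x (k + 1) + d < A + 12 * M * P) : S.card * L ≤ P + L := by
  have h := gap_count S (fun k => sg x (k + 1) + d) A (12 * M * P) (12 * M * L)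
    (by positivity) (fun a _ b hb hab => by
      have h1 := sg_add_le x (show a + 1 ≤ b from hab) (Nat.lt_succ_self b)
      have h2 := hR.lo' (hS b hb).1 (hS b hb).2.1
      simp only [Nat.succ_eq_add_one] at h1
      omega) (fun a ha => (hS a ha).2.2)
  have h' : S.card * L * (12 * M) ≤ (P + L) * (12 * M) := by
    calc S.card * L * (12 * M) = S.card * (12 * M * L) := by ring
      _ ≤ _ := h
      _ = _ := by ring
  exact Nat.le_of_mul_le_mul_right h' (by omega)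

theorem Run.cntL (hR : Run M W q N D v x θ) (hM : 0 < M) (S : Finset ℕ) (t L P : ℕ)
    (hL : 0 < L) (hS : ∀ j ∈ S, x j ≠ 0 ∧ L ≤ 2 * j ∧ Win (12 * M) x P j t) :
    S.card * L ≤ 2 * P + L := by
  have h := gap_count S (fun j => 2 * sg x (j + 1))
    (2 * (sg x (t + 1) + 1 - 2 * (12 * M * P))) (2 * (12 * M * P)) (12 * M * L)
    (by positivity) (fun a _ b hb hab => by
      have h1 := sg_add_le x (show a + 1 ≤ b from hab) (Nat.lt_succ_self b)
      have h2 := hR.lo (hS b hb).1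
      have h3 := Nat.mul_le_mul_left (12 * M) (hS b hb).2.1
      have h4 : 12 * M * (2 * b) = 2 * (12 * M * b) := by ring
      simp only [Nat.succ_eq_add_one] at h1
      omega) (fun a ha => by
        obtain ⟨h1, h2⟩ := (hS a ha).2.2
        constructor <;> omega)
  have h' : S.card * L * (12 * M) ≤ (2 * P + L) * (12 * M) := by
    calc S.card * L * (12 * M) = S.card * (12 * M * L) := by ring
      _ ≤ _ := h
      _ = _ := by ring
  exact Nat.le_of_mul_le_mul_right h' (by omega)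

theorem Run.T_sum (hR : Run M W q N D v x θ) (hM : 0 < M) (hN : 0 < N) {s : ℕ}
    (hNs : 4 * 2 ^ s ≤ N) (hHF : ∀ i < s, HF N x i) :
    ∑ j ∈ Ico N (N * 2 ^ s), ((Ico N (N * 2 ^ s)).filter
      (fun t => x j ≠ 0 ∧ j < t ∧ Win (12 * M) x (N * 2 ^ s) j t)).card ≤
        s * (3 * (N * 2 ^ s)) := by
  rw [← card_pairs_left _ _ (fun j t => x j ≠ 0 ∧ j < t ∧ Win (12 * M) x (N * 2 ^ s) j t),
    card_pairs_right _ _ (fun j t => x j ≠ 0 ∧ j < t ∧ Win (12 * M) x (N * 2 ^ s) j t),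
    sum_dyadic]
  calc _ ≤ ∑ _i ∈ range s, 3 * (N * 2 ^ s) := by
        refine sum_le_sum (fun i hi => ?_)
        rw [mem_range] at hi
        rw [← mul_one (∑ t ∈ Ico (N * 2 ^ i) (N * 2 ^ (i + 1)), _)]
        refine sum_scaled _ _ (N * 2 ^ i) _ 1 (by positivity) (fun t ht => ?_)
          (by rw [card_epoch, mul_one])
        rw [mem_Ico] at ht
        have h1 : N * 2 ^ (i + 1) ≤ N * 2 ^ s := ep_le hi
        have h2 : N * 2 ^ i ≤ N * 2 ^ s := ep_le hi.le
        refine le_trans (hR.cntL hM _ t (N * 2 ^ i) (N * 2 ^ s) (by positivity) ?_) (by omega)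
        intro j hj
        rw [mem_filter] at hj
        exact ⟨hj.2.1, hR.nofar hNs hHF hj.2.1 (by omega) hj.2.2.2 ht.1, hj.2.2.2⟩
    _ = _ := by simp

theorem Run.K_le (hR : Run M W q N D v x θ) (hq : 0 < q) (hW : 0 < W) {s : ℕ}
    (hNs : 4 * 2 ^ s ≤ N) (hHF : ∀ i < s, HF N x i) {i j : ℕ} (h1 : N * 2 ^ i ≤ j)
    (h2 : j < N * 2 ^ (i + 1)) :
    q * ((Ico N (N * 2 ^ s)).filter (fun k => j < k ∧ x j ≠ 0 ∧ x k ≠ 0 ∧
      io W q θ j = io W q θ k ∧ Win (12 * M) x (N * 2 ^ s) j k)).card ≤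
    ((Ico N (N * 2 ^ s)).filter
      (fun t => x j ≠ 0 ∧ j < t ∧ Win (12 * M) x (N * 2 ^ s) j t)).card + 2 * (q * W) := by
  set I := (Ico N (N * 2 ^ s)).filter
      (fun t => x j ≠ 0 ∧ j < t ∧ Win (12 * M) x (N * 2 ^ s) j t) with hI
  have hconv : ∀ a ∈ I, ∀ b ∈ I, ∀ u, a ≤ u → u ≤ b → u ∈ I := by
    intro a ha b hb u hau hub
    rw [hI, mem_filter, mem_Ico] at ha hb ⊢
    have m1 := sg_mono x (show a + 1 ≤ u + 1 by omega)
    have m2 := sg_mono x (show u + 1 ≤ b + 1 by omega)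
    have w1 := ha.2.2.2.1
    have w2 := hb.2.2.2.2
    exact ⟨⟨by omega, by omega⟩, ha.2.1, by omega, by omega, by omega⟩
  have p1 := per_count (I.filter (fun t => t < N * 2 ^ (i + 1))) W q (θ (N * 2 ^ i))
    (io W q θ j) hW hq (fun a ha b hb u hau hub => by
      rw [mem_filter] at ha hb ⊢
      exact ⟨hconv a ha.1 b hb.1 u hau hub, by omega⟩)
  have p2 := per_count (I.filter (fun t => ¬ t < N * 2 ^ (i + 1))) W q (θ (N * 2 ^ (i + 1)))
    (io W q θ j) hW hq (fun a ha b hb u hau hub => by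
      rw [mem_filter] at ha hb ⊢
      exact ⟨hconv a ha.1 b hb.1 u hau hub, by omega⟩)
  have p3 := card_filter_add_card_filter_not (s := I) (fun t => t < N * 2 ^ (i + 1))
  have hsub : (Ico N (N * 2 ^ s)).filter (fun k => j < k ∧ x j ≠ 0 ∧ x k ≠ 0 ∧
      io W q θ j = io W q θ k ∧ Win (12 * M) x (N * 2 ^ s) j k) ⊆
      ((I.filter (fun t => t < N * 2 ^ (i + 1))).filter
        (fun k => (k / W + θ (N * 2 ^ i)) % q = io W q θ j)) ∪
      ((I.filter (fun t => ¬ t < N * 2 ^ (i + 1))).filter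
        (fun k => (k / W + θ (N * 2 ^ (i + 1))) % q = io W q θ j)) := by
    intro k hk
    rw [mem_filter] at hk
    obtain ⟨hk0, a1, a2, a3, a4, a5⟩ := hk
    have hkI : k ∈ I := by rw [hI, mem_filter]; exact ⟨hk0, a2, a1, a5⟩
    rw [mem_Ico] at hk0
    rw [mem_union]
    by_cases hc : k < N * 2 ^ (i + 1)
    · left
      refine mem_filter.2 ⟨mem_filter.2 ⟨hkI, hc⟩, ?_⟩
      rw [a4, ← hR.phase i k (by omega) hc]; rfl
    · right
      refine mem_filter.2 ⟨mem_filter.2 ⟨hkI, hc⟩, ?_⟩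
      have : k < N * 2 ^ (i + 1 + 1) := by
        by_contra hh
        have := hR.nofar hNs hHF a2 hk0.2 a5 (show N * 2 ^ (i + 1 + 1) ≤ k by omega)
        have e := ep_succ N (i + 1)
        omega
      rw [a4, ← hR.phase (i + 1) k (by omega) this]; rfl
  have p4 := Nat.mul_le_mul_left q (le_trans (card_le_card hsub) (card_union_le _ _))
  rw [mul_add] at p4
  omega

theorem Run.H_le (hR : Run M W q N D v x θ) (hM : 0 < M) (hN : 0 < N) (hq : 0 < q) {w : ℕ}
    (hW : W = 2 ^ w) {s : ℕ} (hNs : 4 * 2 ^ s ≤ N) (hHF : ∀ i < s, HF N x i) :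
    q * (HS (12 * M) W q N x θ (N * 2 ^ s)).card ≤
      s * (3 * (N * 2 ^ s)) + 2 * q * (w + 1) * (N * 2 ^ s) := by
  have hW0 : 0 < W := by rw [hW]; positivity
  have hT := hR.T_sum hM hN hNs hHF
  unfold HS
  rw [card_pairs_left _ _ (fun j k => j < k ∧ x j ≠ 0 ∧ x k ≠ 0 ∧
      io W q θ j = io W q θ k ∧ Win (12 * M) x (N * 2 ^ s) j k), sum_dyadic, mul_sum]
  rw [sum_dyadic] at hT
  have hmin := Nat.mul_le_mul_left (2 * q * N) (sum_min_pow w s)
  rw [mul_sum] at hmin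
  have e : 2 * q * N * ((w + 1) * 2 ^ s) = 2 * q * (w + 1) * (N * 2 ^ s) := by ring
  rw [e] at hmin
  refine le_trans ?_ (Nat.add_le_add hT hmin)
  rw [← sum_add_distrib]
  refine sum_le_sum (fun i hi => ?_)
  rw [mem_range] at hi
  have h2 : N * 2 ^ i ≤ N * 2 ^ s := ep_le hi.le
  rcases le_total (2 ^ s) (2 ^ w * 2 ^ i) with hc | hc
  · rw [min_eq_left hc]
    refine le_trans ?_ (Nat.le_add_left _ _)
    have : (∑ j ∈ Ico (N * 2 ^ i) (N * 2 ^ (i + 1)), ((Ico N (N * 2 ^ s)).filter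
        (fun k => j < k ∧ x j ≠ 0 ∧ x k ≠ 0 ∧
        io W q θ j = io W q θ k ∧ Win (12 * M) x (N * 2 ^ s) j k)).card) * 1 ≤
        2 * (N * 2 ^ s) := by
      refine sum_scaled _ _ (N * 2 ^ i) _ 1 (by positivity) (fun j hj => ?_)
        (by rw [card_epoch, mul_one])
      rw [mem_Ico] at hj
      refine le_trans (hR.cntR hM _ (12 * M * (N * 2 ^ s) + sg x (j + 1)) 0 (N * 2 ^ i)
        (N * 2 ^ s) (by positivity) ?_) (by omega)
      intro k hk
      rw [mem_filter] at hk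
      exact ⟨hk.2.2.2.1, by omega, hk.2.2.2.2.2.1, hk.2.2.2.2.2.2⟩
    rw [mul_one] at this
    calc _ ≤ q * (2 * (N * 2 ^ s)) := Nat.mul_le_mul_left _ this
      _ = _ := by ring
  · rw [min_eq_right hc, mul_sum]
    calc _ ≤ ∑ j ∈ Ico (N * 2 ^ i) (N * 2 ^ (i + 1)), (((Ico N (N * 2 ^ s)).filter
          (fun t => x j ≠ 0 ∧ j < t ∧ Win (12 * M) x (N * 2 ^ s) j t)).card + 2 * (q * W)) := by
          refine sum_le_sum (fun j hj => ?_)
          rw [mem_Ico] at hj
          exact hR.K_le hq hW0 hNs hHF hj.1 hj.2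
      _ = _ := by
          rw [sum_add_distrib, sum_const, card_epoch, smul_eq_mul, hW]; ring

theorem Run.Z1_le (hR : Run M W q N D v x θ) (hM : 0 < M) (hN : 0 < N) (hq : 0 < q)
    (hv : Typ M q v) (hW : 0 < W) (hWN : W ∣ N) (s : ℕ) :
    ((Ico N (N * 2 ^ s) ×ˢ Ico N (N * 2 ^ s)).filter (fun p => p.1 < p.2 ∧ x p.1 ≠ 0 ∧
      x p.2 ≠ 0 ∧ Win (12 * M) x (N * 2 ^ s) p.1 p.2 ∧
      st M W q v x θ (p.1 + 1) = 6 * (M : ℤ))).card * W ≤ s * (2 * (N * 2 ^ s)) := by
  rw [card_pairs_left _ _ (fun j k => j < k ∧ x j ≠ 0 ∧ x k ≠ 0 ∧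
      Win (12 * M) x (N * 2 ^ s) j k ∧ st M W q v x θ (j + 1) = 6 * (M : ℤ)), sum_dyadic, sum_mul]
  calc _ ≤ ∑ _i ∈ range s, 2 * (N * 2 ^ s) := by
        refine sum_le_sum (fun i hi => ?_)
        rw [mem_range] at hi
        have h2 : N * 2 ^ i ≤ N * 2 ^ s := ep_le hi.le
        rw [← sum_filter_of_ne (p := fun j => x j ≠ 0 ∧ st M W q v x θ (j + 1) = 6 * (M : ℤ))]
        · refine sum_scaled _ _ (N * 2 ^ i) _ W (by positivity) (fun j hj => ?_)
            (hR.z_card hq hv hW hWN i)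
          rw [mem_filter, mem_Ico] at hj
          refine le_trans (hR.cntR hM _ (12 * M * (N * 2 ^ s) + sg x (j + 1)) 0 (N * 2 ^ i)
            (N * 2 ^ s) (by positivity) ?_) (by omega)
          intro k hk
          rw [mem_filter] at hk
          exact ⟨hk.2.2.2.1, by omega, hk.2.2.2.2.1.1, hk.2.2.2.2.1.2⟩
        · intro j _ hne
          obtain ⟨k, hk⟩ := card_ne_zero.1 hne
          rw [mem_filter] at hk
          exact ⟨hk.2.2.1, hk.2.2.2.2.2⟩
    _ = _ := by simp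

theorem Run.Z2_le (hR : Run M W q N D v x θ) (hM : 0 < M) (hN : 0 < N) (hq : 0 < q)
    (hv : Typ M q v) (hW : 0 < W) (hWN : W ∣ N) {s : ℕ} (hNs : 4 * 2 ^ s ≤ N)
    (hHF : ∀ i < s, HF N x i) :
    ((Ico N (N * 2 ^ s) ×ˢ Ico N (N * 2 ^ s)).filter (fun p => p.1 < p.2 ∧ x p.1 ≠ 0 ∧
      x p.2 ≠ 0 ∧ Win (12 * M) x (N * 2 ^ s) p.1 p.2 ∧
      st M W q v x θ (p.2 + 1) = 6 * (M : ℤ))).card * W ≤ s * (3 * (N * 2 ^ s)) := by
  rw [card_pairs_right _ _ (fun j k => j < k ∧ x j ≠ 0 ∧ x k ≠ 0 ∧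
      Win (12 * M) x (N * 2 ^ s) j k ∧ st M W q v x θ (k + 1) = 6 * (M : ℤ)), sum_dyadic, sum_mul]
  calc _ ≤ ∑ _i ∈ range s, 3 * (N * 2 ^ s) := by
        refine sum_le_sum (fun i hi => ?_)
        rw [mem_range] at hi
        have h1 : N * 2 ^ (i + 1) ≤ N * 2 ^ s := ep_le hi
        have h2 : N * 2 ^ i ≤ N * 2 ^ s := ep_le hi.le
        rw [← sum_filter_of_ne (p := fun j => x j ≠ 0 ∧ st M W q v x θ (j + 1) = 6 * (M : ℤ))]
        · refine sum_scaled _ _ (N * 2 ^ i) _ W (by positivity) (fun k hk => ?_)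
            (hR.z_card hq hv hW hWN i)
          rw [mem_filter, mem_Ico] at hk
          refine le_trans (hR.cntL hM _ k (N * 2 ^ i) (N * 2 ^ s) (by positivity) ?_) (by omega)
          intro j hj
          rw [mem_filter] at hj
          exact ⟨hj.2.2.1, hR.nofar hNs hHF hj.2.2.1 (by omega) hj.2.2.2.2.1 hk.1.1,
            hj.2.2.2.2.1⟩
        · intro j _ hne
          obtain ⟨k, hk⟩ := card_ne_zero.1 hne
          rw [mem_filter] at hk
          exact ⟨hk.2.2.2.1, hk.2.2.2.2.2⟩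
    _ = _ := by simp

theorem Run.A_le (hR : Run M W q N D v x θ) (hM : 0 < M) (hN : 0 < N) {P : ℕ} (hNP : N ≤ P) :
    ((range (D + 1) ×ˢ range (2 * P)).filter (fun p => x p.2 ≠ 0 ∧
      12 * M * P ≤ sg x (p.2 + 1) + p.1 ∧
      sg x (p.2 + 1) + p.1 < 12 * M * P + 12 * M * P)).card * N ≤ (D + 1) * (2 * P) := by
  rw [card_pairs_left _ _ (fun d k => x k ≠ 0 ∧ 12 * M * P ≤ sg x (k + 1) + d ∧
      sg x (k + 1) + d < 12 * M * P + 12 * M * P), sum_mul]
  calc _ ≤ ∑ _d ∈ range (D + 1), 2 * P := by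
        refine sum_le_sum (fun d _ => ?_)
        refine le_trans (hR.cntR hM _ (12 * M * P) d N P hN ?_) (by omega)
        intro k hk
        rw [mem_filter] at hk
        exact ⟨hk.2.1, hR.ge hk.2.1, hk.2.2⟩
    _ = _ := by simp

theorem Run.B_le (hR : Run M W q N D v x θ) (hM : 0 < M) (hN : 0 < N) {P : ℕ} (hNP : N ≤ P) :
    ((range P ×ˢ range (2 * P)).filter (fun p => x p.1 ≠ 0 ∧ x p.2 ≠ 0 ∧ P ≤ p.2 ∧
      Win (12 * M) x P p.1 p.2)).card * N ≤ 3 * P := by
  set S := (range P ×ˢ range (2 * P)).filter (fun p => x p.1 ≠ 0 ∧ x p.2 ≠ 0 ∧ P ≤ p.2 ∧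
      Win (12 * M) x P p.1 p.2) with hS
  rcases S.eq_empty_or_nonempty with h | ⟨p0, hp0⟩
  · rw [h]; simp
  have key : ∀ p ∈ S, ∀ p' ∈ S, ¬ p'.2 < p.2 := by
    intro p hp p' hp' hlt
    rw [hS, mem_filter, mem_product, mem_range, mem_range] at hp hp'
    have c1 := hR.lo' hp.2.2.1 hp.2.2.2.1
    have c2 := hR.lo' hp'.2.2.1 hp'.2.2.2.1
    have c3 := sg_add_le x (show p.1 + 1 ≤ p'.2 by omega) hlt
    have c4 := sg_succ x p.2
    have c5 := hp.2.2.2.2.2
    omega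
  have h1 : S.card ≤ ((range P).filter
      (fun j => x j ≠ 0 ∧ Win (12 * M) x P j p0.2)).card := by
    apply card_le_card_of_injOn (fun p => p.1)
    · intro p hp
      have e : p.2 = p0.2 := by
        have := key p hp p0 hp0
        have := key p0 hp0 p hp
        omega
      have hp' : p ∈ S := hp
      rw [hS, mem_filter, mem_product] at hp'
      simp only [coe_filter, Set.mem_ofPred_eq]
      exact ⟨hp'.1.1, hp'.2.1, e ▸ hp'.2.2.2.2⟩
    · intro p hp p' hp' he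
      have := key p hp p' hp'
      have := key p' hp' p hp
      exact Prod.ext he (by omega)
  have h2 := hR.cntL hM ((range P).filter
      (fun j => x j ≠ 0 ∧ Win (12 * M) x P j p0.2)) p0.2 N P hN (fun j hj => by
        rw [mem_filter] at hj
        have := hR.ge hj.2.1
        exact ⟨hj.2.1, by omega, hj.2.2⟩)
  have h3 := Nat.mul_le_mul_right N h1
  omega

end

end Pool.Agent.MP_d19b84_nt.H59

end MrgPart3

-- ======== part 4: formerly Pool.Agent.MP_d19b84_nt.H59Epoch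
section MrgPart4

set_option autoImplicit false

namespace Pool.Agent.MP_d19b84_nt.H59

open Finset

section
variable {M W q N D : ℕ} {v x θ : ℕ → ℕ}

theorem Run.HF_step (hR : Run M W q N D v x θ) (hM : 0 < M) (hv : Typ M q v) {w m : ℕ}
    (hW : W = 2 ^ w) (hWN : W ∣ N) (hNm : 4 * 2 ^ m ≤ N) (hD : 8 * D + 20 ≤ N)
    (hWm : 40 * m ≤ W) (hqm : 48 * m ≤ q * q) (hqw : 32 * (w + 1) ≤ q) {s : ℕ} (hs : s ≤ m)
    (hHF : ∀ i < s, HF N x i) : HF N x s := by
  have hN : 0 < N := by omega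
  have hq : 0 < q := by omega
  have hW0 : 0 < W := by rw [hW]; positivity
  have hNs : 4 * 2 ^ s ≤ N :=
    le_trans (Nat.mul_le_mul_left _ (Nat.pow_le_pow_right (by norm_num) hs)) hNm
  have hD' : D < 12 * M * N := by
    have : 1 * N ≤ 12 * M * N := Nat.mul_le_mul_right _ (by omega)
    omega
  have hNP := ep_ge N s
  have hA := hR.A_le hM hN hNP
  have hB := hR.B_le hM hN hNP
  have hZ1 := hR.Z1_le hM hN hq hv hW0 hWN s
  have hZ2 := hR.Z2_le hM hN hq hv hW0 hWN hNs hHF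
  have hH := hR.H_le hM hN hq hW hNs hHF
  have hav := hR.avg s
  set P := N * 2 ^ s with hP
  set SA := (range (D + 1) ×ˢ range (2 * P)).filter (fun p => x p.2 ≠ 0 ∧
      12 * M * P ≤ sg x (p.2 + 1) + p.1 ∧
      sg x (p.2 + 1) + p.1 < 12 * M * P + 12 * M * P) with hSA
  set SB := (range P ×ˢ range (2 * P)).filter (fun p => x p.1 ≠ 0 ∧ x p.2 ≠ 0 ∧ P ≤ p.2 ∧
      Win (12 * M) x P p.1 p.2) with hSB
  set S1 := (Ico N P ×ˢ Ico N P).filter (fun p => p.1 < p.2 ∧ x p.1 ≠ 0 ∧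
      x p.2 ≠ 0 ∧ Win (12 * M) x P p.1 p.2 ∧
      st M W q v x θ (p.1 + 1) = 6 * (M : ℤ)) with hS1
  set S2 := (Ico N P ×ˢ Ico N P).filter (fun p => p.1 < p.2 ∧ x p.1 ≠ 0 ∧
      x p.2 ≠ 0 ∧ Win (12 * M) x P p.1 p.2 ∧
      st M W q v x θ (p.2 + 1) = 6 * (M : ℤ)) with hS2
  set S3 := Bad (12 * M) W q N x θ P (θ P) with hS3
  have hsub : (Ico P (N * 2 ^ (s + 1))).filter (fun t => x t = 0) ⊆
      SA.image (fun p => (sg x (p.2 + 1) + p.1) / (12 * M)) ∪
      (SB ∪ S1 ∪ S2 ∪ S3).image (fun p => (sg x (p.2 + 1) - sg x (p.1 + 1)) / (12 * M)) := by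
    intro t ht
    rw [mem_filter, mem_Ico] at ht
    have e := ep_succ N s
    rcases hR.classify hM hq hv hD' hNP ht.1.1 (by omega) ht.2 with
      ⟨d, hd, k, hk, a1, a2, a3, a4⟩ | ⟨j, k, a1, a2, a3, a4, a5, a6, a7, a8⟩
    · refine mem_union_left _ (mem_image.2 ⟨(d, k), ?_, a4⟩)
      rw [hSA, mem_filter, mem_product, mem_range, mem_range]
      exact ⟨⟨by omega, hk⟩, a1, a2, a3⟩
    · refine mem_union_right _ (mem_image.2 ⟨(j, k), ?_, a7⟩)
      simp only [mem_union]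
      by_cases hk : P ≤ k
      · left; left; left
        rw [hSB, mem_filter, mem_product, mem_range, mem_range]
        exact ⟨⟨a3, a2⟩, a4, a5, hk, a6⟩
      have hmem : (j, k) ∈ Ico N P ×ˢ Ico N P := by
        rw [mem_product, mem_Ico, mem_Ico]
        exact ⟨⟨hR.ge a4, a3⟩, hR.ge a5, by omega⟩
      rcases a8 with b | b | b | b
      · exact absurd b hk
      · left; left; right
        rw [hS1, mem_filter]
        exact ⟨hmem, a1, a4, a5, a6, b⟩
      · left; right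
        rw [hS2, mem_filter]
        exact ⟨hmem, a1, a4, a5, a6, b⟩
      · right
        rw [hS3, Bad, mem_filter, HS, mem_filter]
        refine ⟨⟨hmem, a1, a4, a5, b.1.trans b.2.symm, a6⟩, ?_⟩
        show ((sg x (k + 1) - sg x (j + 1)) / (12 * M) / W + θ P) % q = io W q θ j
        rw [a7, b.1, hP, ← hR.phase s t ht.1.1 ht.1.2]
        rfl
  have hcard := card_le_card hsub
  have c1 := card_union_le (SA.image (fun p => (sg x (p.2 + 1) + p.1) / (12 * M)))
    ((SB ∪ S1 ∪ S2 ∪ S3).image (fun p => (sg x (p.2 + 1) - sg x (p.1 + 1)) / (12 * M)))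
  have c2 := card_image_le (s := SA) (f := fun p => (sg x (p.2 + 1) + p.1) / (12 * M))
  have c3 := card_image_le (s := SB ∪ S1 ∪ S2 ∪ S3)
    (f := fun p => (sg x (p.2 + 1) - sg x (p.1 + 1)) / (12 * M))
  have c4 := card_union_le (SB ∪ S1 ∪ S2) S3
  have c5 := card_union_le (SB ∪ S1) S2
  have c6 := card_union_le SB S1
  have d1 : 4 * (SA.card + SB.card) ≤ P := by
    refine Nat.le_of_mul_le_mul_right ?_ hN
    calc 4 * (SA.card + SB.card) * N = 4 * (SA.card * N + SB.card * N) := by ring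
      _ ≤ 4 * ((D + 1) * (2 * P) + 3 * P) := Nat.mul_le_mul_left _ (Nat.add_le_add hA hB)
      _ = P * (8 * D + 20) := by ring
      _ ≤ P * N := Nat.mul_le_mul_left _ hD
  have d2 : 8 * (S1.card + S2.card) ≤ P := by
    refine Nat.le_of_mul_le_mul_right ?_ hW0
    calc 8 * (S1.card + S2.card) * W = 8 * (S1.card * W + S2.card * W) := by ring
      _ ≤ 8 * (s * (2 * P) + s * (3 * P)) := Nat.mul_le_mul_left _ (Nat.add_le_add hZ1 hZ2)
      _ = P * (40 * s) := by ring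
      _ ≤ P * W := Nat.mul_le_mul_left _ (by omega)
  have d3 : 8 * S3.card ≤ P := by
    have hqq : 0 < 2 * (q * q) := by positivity
    refine Nat.le_of_mul_le_mul_right ?_ hqq
    calc 8 * S3.card * (2 * (q * q)) = 16 * (q * (q * S3.card)) := by ring
      _ ≤ 16 * (s * (3 * P) + 2 * q * (w + 1) * P) :=
          Nat.mul_le_mul_left _ (le_trans (Nat.mul_le_mul_left _ hav) hH)
      _ = P * (48 * s + q * (32 * (w + 1))) := by ring
      _ ≤ P * (q * q + q * q) :=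
          Nat.mul_le_mul_left _ (Nat.add_le_add (by omega) (Nat.mul_le_mul_left _ hqw))
      _ = _ := by ring
  unfold HF
  rw [← hP]
  omega

end

/-- The slot form of one stage. -/
theorem slot_stage {M W q N D w m : ℕ} {v : ℕ → ℕ} (hM : 0 < M) (hv : Typ M q v)
    (hW : W = 2 ^ w) (hWN : W ∣ N) (hNm : 4 * 2 ^ m ≤ N) (hD : 8 * D + 20 ≤ N)
    (hWm : 40 * m ≤ W) (hqm : 48 * m ≤ q * q) (hqw : 32 * (w + 1) ≤ q) :
    ∃ x : ℕ → ℕ, (∀ t, x t = 0 ∨ (N ≤ t ∧ 12 * M * t ≤ x t ∧ x t < 12 * M * (t + 1))) ∧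
      (∀ t, x t ≠ 0 → ¬ Blk x D t (x t)) ∧ ∀ i < m, HF N x i := by
  obtain ⟨x, θ, hR⟩ := exists_Run M W q N D hM (by omega) v
  refine ⟨x, hR.slot, fun t ht => (hR.occ t ht).1, fun i => ?_⟩
  induction i using Nat.strong_induction_on with
  | _ i ih =>
    intro hi
    exact hR.HF_step hM hv hW hWN hNm hD hWm hqm hqw hi.le (fun j hj => ih j hj (by omega))

theorem exists_Typ {M q : ℕ} (h : q ≤ rothNumberNat M) : ∃ v, Typ M q v := by
  obtain ⟨B, hB, hcard, hfree⟩ := rothNumberNat_spec M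
  have hq : q ≤ B.card := by omega
  obtain ⟨B', hB', hc'⟩ := exists_subset_card_eq hq
  let f := B'.orderEmbOfFin hc'
  refine ⟨fun i => if h : i < q then M + f ⟨i, h⟩ else 0, fun i hi => ?_, ?_⟩
  · have : f ⟨i, hi⟩ ∈ range M := hB (hB' (B'.orderEmbOfFin_mem hc' _))
    rw [mem_range] at this
    simp only [dif_pos hi]
    omega
  · intro a ha b hb l hl e
    simp only [dif_pos ha, dif_pos hb, dif_pos hl] at e
    have m1 : f ⟨a, ha⟩ ∈ (B : Set ℕ) := hB' (B'.orderEmbOfFin_mem hc' _)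
    have m2 : f ⟨b, hb⟩ ∈ (B : Set ℕ) := hB' (B'.orderEmbOfFin_mem hc' _)
    have m3 : f ⟨l, hl⟩ ∈ (B : Set ℕ) := hB' (B'.orderEmbOfFin_mem hc' _)
    have e1 := hfree m1 m3 m2 (by omega)
    have e2 : f ⟨b, hb⟩ = f ⟨l, hl⟩ := by omega
    have i1 := f.injective e1
    have i2 := f.injective e2
    simp only [Fin.mk.injEq] at i1 i2
    exact ⟨i1, i2⟩

end Pool.Agent.MP_d19b84_nt.H59

end MrgPart4

-- ======== part 5: formerly Pool.Agent.MP_d19b84_nt.H59Stage
section MrgPart5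

set_option autoImplicit false

namespace Pool.Agent.MP_d19b84_nt.H59

open Finset

/-- Sum of the elements of `A` below `u`. -/
def pre (A : Finset ℕ) (u : ℕ) : ℕ := ∑ b ∈ A.filter (fun b => b < u), b

/-- No element is a sum of a block of consecutive smaller elements. -/
def Adm (A : Finset ℕ) : Prop := ∀ a ∈ A, ∀ u v, u ≤ v → v ≤ a → a + pre A u ≠ pre A v

theorem pre_mono (A : Finset ℕ) {u v : ℕ} (h : u ≤ v) : pre A u ≤ pre A v := by
  refine sum_le_sum_of_subset (fun b hb => ?_)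
  rw [mem_filter] at hb ⊢
  exact ⟨hb.1, by omega⟩

theorem pre_le (A : Finset ℕ) (u : ℕ) : pre A u ≤ ∑ b ∈ A, b :=
  sum_le_sum_of_subset (filter_subset _ _)

theorem pre_eq {A : Finset ℕ} {u : ℕ} (h : ∀ a ∈ A, a < u) : pre A u = ∑ b ∈ A, b := by
  unfold pre; rw [filter_true_of_mem h]

theorem sum_dyadic_real (F : ℕ → ℝ) (N s : ℕ) :
    ∑ t ∈ Ico N (N * 2 ^ s), F t = ∑ i ∈ range s, ∑ t ∈ Ico (N * 2 ^ i) (N * 2 ^ (i + 1)), F t := by
  induction s with
  | zero => simp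
  | succ s ih =>
    rw [sum_range_succ, ← ih, sum_Ico_consecutive]
    · exact ep_ge N s
    · exact ep_le (Nat.le_succ _)

theorem set_stage {M N D m U : ℕ} {x : ℕ → ℕ} (hM : 0 < M) (hN : 0 < N) (hm : 0 < m)
    (hslot : ∀ t, x t = 0 ∨ (N ≤ t ∧ 12 * M * t ≤ x t ∧ x t < 12 * M * (t + 1)))
    (hblk : ∀ t, x t ≠ 0 → ¬ Blk x D t (x t)) (hHF : ∀ i < m, HF N x i)
    (A : Finset ℕ) (hA : Adm A) (hU : ∀ a ∈ A, a < U) (hUN : U ≤ 12 * M * N)
    (hD : ∑ b ∈ A, b ≤ D) :
    ∃ A' : Finset ℕ, Adm A' ∧ A ⊆ A' ∧ (∀ a ∈ A', a ∈ A ∨ U ≤ a) ∧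
      (∀ a ∈ A', a < 12 * M * (N * 2 ^ m)) ∧ (∃ a ∈ A', U ≤ a) ∧
      (m : ℝ) / (48 * M) ≤ ∑ a ∈ A', (1 : ℝ) / a := by
  have hs : ∀ t, x t ≠ 0 → N ≤ t ∧ 12 * M * t ≤ x t ∧ x t < 12 * M * (t + 1) :=
    fun t ht => (hslot t).resolve_left ht
  have hbig : ∀ t, x t ≠ 0 → U ≤ x t := fun t ht =>
    le_trans hUN (le_trans (Nat.mul_le_mul_left _ (hs t ht).1) (hs t ht).2.1)
  have hmono : ∀ t t', x t ≠ 0 → x t' ≠ 0 → t < t' → x t < x t' := fun t t' h h' hlt =>
    lt_of_lt_of_le (hs t h).2.2 (le_trans (Nat.mul_le_mul_left _ hlt) (hs t' h').2.1)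
  have hinj : ∀ t t', x t ≠ 0 → x t' ≠ 0 → x t = x t' → t = t' := by
    intro t t' h h' e
    rcases lt_trichotomy t t' with l | l | l
    · exact absurd e (ne_of_lt (hmono t t' h h' l))
    · exact l
    · exact absurd e.symm (ne_of_lt (hmono t' t h' h l))
  set T := N * 2 ^ m with hT
  set O := (range T).filter (fun t => x t ≠ 0) with hO
  have hOinj : Set.InjOn x (O : Set ℕ) := fun t ht t' ht' e =>
    hinj t t' (mem_filter.1 ht).2 (mem_filter.1 ht').2 e
  have hdisj : Disjoint A (O.image x) := by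
    rw [disjoint_left]
    intro a ha hb
    obtain ⟨t, ht, rfl⟩ := mem_image.1 hb
    have := hbig t (mem_filter.1 ht).2
    have := hU _ ha
    omega
  have hpre : ∀ u j, j ≤ T → (∀ t, x t ≠ 0 → (x t < u ↔ t < j)) →
      pre (A ∪ O.image x) u = pre A u + sg x j := by
    intro u j hj h
    unfold pre sg
    rw [filter_union, sum_union (disjoint_filter_filter hdisj), filter_image,
      sum_image (fun t ht t' ht' e => hOinj (mem_filter.1 ht).1 (mem_filter.1 ht').1 e)]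
    congr 1
    rw [← sum_filter_of_ne (s := range j) (p := fun t => x t ≠ 0) (fun t _ ht => ht)]
    refine sum_congr ?_ (fun _ _ => rfl)
    ext t
    simp only [hO, mem_filter, mem_range]
    constructor
    · rintro ⟨⟨-, a2⟩, a3⟩
      exact ⟨(h t a2).1 a3, a2⟩
    · rintro ⟨a1, a2⟩
      exact ⟨⟨by omega, a2⟩, (h t a2).2 a1⟩
  have hcut : ∀ t0, x t0 ≠ 0 → ∀ u ≤ x t0, ∃ j ≤ t0, ∀ t, x t ≠ 0 → (x t < u ↔ t < j) := by
    intro t0 h0 u hu
    have hex : ∃ j, x j ≠ 0 ∧ u ≤ x j := ⟨t0, h0, hu⟩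
    refine ⟨Nat.find hex, Nat.find_min' hex ⟨h0, hu⟩, fun t ht => ⟨fun h => ?_, fun h => ?_⟩⟩
    · by_contra hh
      obtain ⟨b1, b2⟩ := Nat.find_spec hex
      rcases Nat.eq_or_lt_of_le (not_lt.1 hh) with e | e
      · rw [e] at b2; omega
      · have := hmono _ _ b1 ht e; omega
    · have := Nat.find_min hex h
      by_contra hh
      exact this ⟨ht, by omega⟩
  have hNT : N ≤ T := ep_ge N m
  refine ⟨A ∪ O.image x, ?_, subset_union_left, ?_, ?_, ?_, ?_⟩
  · intro a ha u v huv hva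
    rcases mem_union.1 ha with h | h
    · have aU := hU a h
      rw [hpre u 0 (Nat.zero_le _) (fun t ht => by have := hbig t ht; omega),
        hpre v 0 (Nat.zero_le _) (fun t ht => by have := hbig t ht; omega), sg_zero,
        add_zero, add_zero]
      exact hA a h u v huv hva
    · obtain ⟨t0, ht0, rfl⟩ := mem_image.1 h
      rw [hO, mem_filter, mem_range] at ht0
      obtain ⟨j, hj, hj'⟩ := hcut t0 ht0.2 u (by omega)
      obtain ⟨k, hk, hk'⟩ := hcut t0 ht0.2 v hva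
      rw [hpre u j (by omega) hj', hpre v k (by omega) hk']
      intro e
      apply hblk t0 ht0.2
      rcases le_or_gt U u with hc | hc
      · left
        refine ⟨j, hj, k, hk, ?_⟩
        rw [pre_eq (fun a ha => lt_of_lt_of_le (hU a ha) hc),
          pre_eq (fun a ha => lt_of_lt_of_le (hU a ha) (le_trans hc huv))] at e
        omega
      · right
        have h0 : sg x j = 0 := by
          refine sum_eq_zero (fun t ht => ?_)
          by_contra hh
          have := (hj' t hh).2 (mem_range.1 ht)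
          have := hbig t hh
          omega
        have := pre_mono A huv
        have := pre_le A v
        exact ⟨k, hk, pre A v - pre A u, by omega, by omega⟩
  · intro a ha
    rcases mem_union.1 ha with h | h
    · exact Or.inl h
    · obtain ⟨t, ht, rfl⟩ := mem_image.1 h
      exact Or.inr (hbig t (mem_filter.1 ht).2)
  · intro a ha
    rcases mem_union.1 ha with h | h
    · have := hU a h
      have : 12 * M * N ≤ 12 * M * T := Nat.mul_le_mul_left _ hNT
      omega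
    · obtain ⟨t, ht, rfl⟩ := mem_image.1 h
      rw [hO, mem_filter, mem_range] at ht
      exact lt_of_lt_of_le (hs t ht.2).2.2 (Nat.mul_le_mul_left _ ht.1)
  · have h1 := (hHF 0 hm).occ
    have h2 : ((Ico (N * 2 ^ 0) (N * 2 ^ (0 + 1))).filter (fun t => x t ≠ 0)).card ≠ 0 := by
      intro h; rw [h] at h1; omega
    obtain ⟨t, ht⟩ := card_ne_zero.1 h2
    rw [mem_filter, mem_Ico] at ht
    refine ⟨x t, mem_union_right _ (mem_image.2 ⟨t, ?_, rfl⟩), hbig t ht.2⟩
    rw [hO, mem_filter, mem_range]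
    exact ⟨lt_of_lt_of_le ht.1.2 (ep_le hm), ht.2⟩
  · have hMr : (0 : ℝ) < M := by exact_mod_cast hM
    calc (m : ℝ) / (48 * M) = ∑ _i ∈ range m, (1 : ℝ) / (48 * M) := by
          simp [div_eq_mul_inv]
      _ ≤ ∑ i ∈ range m, ∑ t ∈ Ico (N * 2 ^ i) (N * 2 ^ (i + 1)),
            (if x t ≠ 0 then (1 : ℝ) / x t else 0) := by
          refine sum_le_sum (fun i hi => ?_)
          have h1 := (hHF i (mem_range.1 hi)).occ
          rw [← sum_filter]
          set P := N * 2 ^ i with hP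
          have hP0 : 0 < P := by positivity
          have hPr : (0 : ℝ) < P := by exact_mod_cast hP0
          set G := (Ico P (N * 2 ^ (i + 1))).filter (fun t => x t ≠ 0) with hG
          have h1r : (P : ℝ) ≤ 2 * G.card := by exact_mod_cast h1
          calc (1 : ℝ) / (48 * M) ≤ G.card * (1 / (24 * M * P)) := by
                rw [mul_one_div, div_le_div_iff₀ (by positivity) (by positivity)]
                nlinarith
            _ = ∑ _t ∈ G, (1 : ℝ) / (24 * M * P) := by simp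
            _ ≤ _ := by
                refine sum_le_sum (fun t ht => ?_)
                rw [hG, mem_filter, mem_Ico, ep_succ, ← hP] at ht
                have a1 := (hs t ht.2).2.2
                have a2 : 12 * M * (t + 1) ≤ 12 * M * (2 * P) := Nat.mul_le_mul_left _ ht.1.2
                have a3 : x t ≤ 24 * M * P := by
                  have : 12 * M * (2 * P) = 24 * M * P := by ring
                  omega
                have a4 : (0 : ℝ) < x t := by exact_mod_cast Nat.pos_of_ne_zero ht.2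
                exact one_div_le_one_div_of_le a4 (by exact_mod_cast a3)
      _ = ∑ t ∈ Ico N T, (if x t ≠ 0 then (1 : ℝ) / x t else 0) := (sum_dyadic_real _ _ _).symm
      _ = ∑ t ∈ (Ico N T).filter (fun t => x t ≠ 0), (1 : ℝ) / x t := by rw [sum_filter]
      _ ≤ ∑ t ∈ O, (1 : ℝ) / x t := by
          refine sum_le_sum_of_subset_of_nonneg (fun t ht => ?_) (fun _ _ _ => by positivity)
          rw [mem_filter, mem_Ico] at ht
          rw [hO, mem_filter, mem_range]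
          exact ⟨ht.1.2, ht.2⟩
      _ = ∑ a ∈ O.image x, (1 : ℝ) / a := by rw [sum_image hOinj]
      _ ≤ _ := sum_le_sum_of_subset_of_nonneg subset_union_right (fun _ _ _ => by positivity)

end Pool.Agent.MP_d19b84_nt.H59

end MrgPart5

-- ======== part 6: formerly Pool.Agent.MP_d19b84_nt.H59Glue
section MrgPart6

set_option autoImplicit false

namespace Pool.Agent.MP_d19b84_nt.H59

open Finset Filter

theorem glue (U : ℕ → ℕ) (hU : StrictMono U) (β : ℕ → ℝ)
    (step : ∀ n, ∀ A : Finset ℕ, Adm A → (∀ a ∈ A, a < U n) →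
      ∃ A' : Finset ℕ, Adm A' ∧ (∀ a ∈ A', a < U (n + 1)) ∧ A ⊆ A' ∧
        (∀ a ∈ A', a ∈ A ∨ U n ≤ a) ∧ (∃ a ∈ A', U n ≤ a) ∧ β n ≤ ∑ a ∈ A', (1 : ℝ) / a) :
    ∃ a : ℕ → ℕ, StrictMono a ∧ 1 ≤ a 0 ∧
      (∀ i j k : ℕ, j ≤ k → k < i → a i ≠ ∑ m ∈ Finset.Icc j k, a m) ∧
      ∀ n, ∀ x : ℝ, (U (n + 1) : ℝ) ≤ x → β n ≤
        ∑ n ∈ (Finset.range ⌈x⌉₊).filter (fun n => (a n : ℝ) < x), (1 : ℝ) / (a n : ℝ) := by
  classical
  choose f hf using step
  let B : ∀ n : ℕ, {A : Finset ℕ // Adm A ∧ ∀ a ∈ A, a < U n} := fun n =>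
    Nat.rec (motive := fun n => {A : Finset ℕ // Adm A ∧ ∀ a ∈ A, a < U n})
      ⟨∅, fun a ha => absurd ha (notMem_empty a), fun a ha => absurd ha (notMem_empty a)⟩
      (fun n A => ⟨f n A.1 A.2.1 A.2.2, (hf n A.1 A.2.1 A.2.2).1, (hf n A.1 A.2.1 A.2.2).2.1⟩) n
  obtain ⟨A, hA1, hA2, hA3, hA4, hA5, hA6⟩ : ∃ A : ℕ → Finset ℕ, (∀ n, Adm (A n)) ∧
      (∀ n, ∀ a ∈ A n, a < U n) ∧ (∀ n, A n ⊆ A (n + 1)) ∧
      (∀ n, ∀ a ∈ A (n + 1), a ∈ A n ∨ U n ≤ a) ∧ (∀ n, ∃ a ∈ A (n + 1), U n ≤ a) ∧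
      ∀ n, β n ≤ ∑ a ∈ A (n + 1), (1 : ℝ) / a :=
    ⟨fun n => (B n).1, fun n => (B n).2.1, fun n => (B n).2.2,
      fun n => (hf n (B n).1 (B n).2.1 (B n).2.2).2.2.1,
      fun n => (hf n (B n).1 (B n).2.1 (B n).2.2).2.2.2.1,
      fun n => (hf n (B n).1 (B n).2.1 (B n).2.2).2.2.2.2.1,
      fun n => (hf n (B n).1 (B n).2.1 (B n).2.2).2.2.2.2.2⟩
  have hmono : Monotone A := monotone_nat_of_le_succ hA3
  have hext : ∀ n n', n ≤ n' → ∀ a ∈ A n', a ∈ A n ∨ U n ≤ a := by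
    intro n n' h
    induction n', h using Nat.le_induction with
    | base => exact fun a ha => Or.inl ha
    | succ n' h ih =>
      intro a ha
      rcases hA4 n' a ha with h1 | h1
      · exact ih a h1
      · exact Or.inr (le_trans (hU.monotone h) h1)
  let p : ℕ → Prop := fun a => ∃ n, a ∈ A n
  have hp : ∀ n a, a < U n → p a → a ∈ A n := by
    rintro n a ha ⟨n', hn'⟩
    rcases le_total n n' with h | h
    · rcases hext n n' h a hn' with h1 | h1
      · exact h1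
      · omega
    · exact hmono h hn'
  have hinf : (Set.ofPred p).Infinite := by
    refine Set.infinite_of_forall_exists_gt (fun n => ?_)
    obtain ⟨a, ha, h⟩ := hA5 (n + 1)
    exact ⟨a, ⟨_, ha⟩, lt_of_lt_of_le (hU.le_apply (x := n + 1)) h⟩
  have hsm : StrictMono (Nat.nth p) := Nat.nth_strictMono hinf
  have hmem : ∀ i, p (Nat.nth p i) := Nat.nth_mem_of_infinite hinf
  have hsurj : ∀ b, p b → ∃ i, Nat.nth p i = b := by
    intro b hb
    have : b ∈ Set.range (Nat.nth p) := by rw [Nat.range_nth_of_infinite hinf]; exact hb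
    exact this
  have hlt : ∀ a, a < U (a + 1) := fun a => hU.le_apply (x := a + 1)
  have hsum : ∀ n k, Nat.nth p k < U n → pre (A n) (Nat.nth p k) = ∑ m ∈ range k, Nat.nth p m := by
    intro n k hk
    unfold pre
    rw [← sum_image (s := range k) (g := Nat.nth p) (f := fun b => b)
      (fun a _ b _ e => hsm.injective e)]
    refine sum_congr ?_ (fun _ _ => rfl)
    ext b
    rw [mem_filter, mem_image]
    constructor
    · rintro ⟨h1, h2⟩
      obtain ⟨i, rfl⟩ := hsurj b ⟨n, h1⟩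
      exact ⟨i, mem_range.2 (hsm.lt_iff_lt.1 h2), rfl⟩
    · rintro ⟨i, hi, rfl⟩
      have := hsm (mem_range.1 hi)
      exact ⟨hp n _ (by omega) (hmem i), this⟩
  refine ⟨Nat.nth p, hsm, ?_, ?_, ?_⟩
  · obtain ⟨n, hn⟩ := hmem 0
    have := hA1 n _ hn 0 0 le_rfl (Nat.zero_le _)
    omega
  · intro i j k hjk hki e
    have h0 := hlt (Nat.nth p i)
    have h1 : Nat.nth p j ≤ Nat.nth p (k + 1) := hsm.monotone (by omega)
    have h2 : Nat.nth p (k + 1) ≤ Nat.nth p i := hsm.monotone hki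
    apply hA1 _ _ (hp _ _ h0 (hmem i)) _ _ h1 h2
    rw [hsum _ j (by omega), hsum _ (k + 1) (by omega),
      ← sum_range_add_sum_Ico _ (show j ≤ k + 1 by omega), add_comm]
    congr 1
  · intro n x hx
    refine le_trans (hA6 n) ?_
    rw [← sum_image (s := (Finset.range ⌈x⌉₊).filter (fun n => ((Nat.nth p n : ℕ) : ℝ) < x))
      (g := Nat.nth p) (f := fun b : ℕ => (1 : ℝ) / (b : ℝ)) (fun a _ b _ e => hsm.injective e)]
    refine sum_le_sum_of_subset_of_nonneg (fun b hb => ?_) (fun _ _ _ => by positivity)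
    obtain ⟨i, rfl⟩ := hsurj b ⟨_, hb⟩
    have h1 : ((Nat.nth p i : ℕ) : ℝ) < x :=
      lt_of_lt_of_le (by exact_mod_cast hA2 _ _ hb) hx
    refine mem_image.2 ⟨i, mem_filter.2 ⟨mem_range.2 ?_, h1⟩, rfl⟩
    rw [Nat.lt_ceil]
    exact lt_of_le_of_lt (by exact_mod_cast hsm.le_apply) h1

theorem roth_small {δ : ℝ} (hδ : 0 < δ) :
    ∀ᶠ q : ℕ in atTop, ∃ M : ℕ, (M : ℝ) ≤ (q : ℝ) ^ (1 + δ) ∧ q ≤ rothNumberNat M := by
  have ht : Tendsto (fun q : ℕ => √((1 + δ) * Real.log q)) atTop atTop :=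
    Real.tendsto_sqrt_atTop.comp
      ((Real.tendsto_log_atTop.comp tendsto_natCast_atTop_atTop).const_mul_atTop (by linarith))
  filter_upwards [ht.eventually_ge_atTop 1, ht.eventually_ge_atTop (5 * (1 + δ) / δ),
    eventually_ge_atTop 1] with q h1 h2 h3
  have hq : (1 : ℝ) ≤ q := by exact_mod_cast h3
  have hq0 : (0 : ℝ) < q := by linarith
  have hy : (1 : ℝ) ≤ (q : ℝ) ^ (1 + δ) := Real.one_le_rpow hq (by linarith)
  have hfl := Nat.floor_le (show (0 : ℝ) ≤ (q : ℝ) ^ (1 + δ) by linarith)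
  have hfl2 := Nat.div_two_lt_floor hy
  refine ⟨⌊(q : ℝ) ^ (1 + δ)⌋₊, hfl, ?_⟩
  set M := ⌊(q : ℝ) ^ (1 + δ)⌋₊ with hM
  have hM0 : (0 : ℝ) < M := by linarith
  have hb := @Behrend.roth_lower_bound M
  have hL : 0 ≤ Real.log q := Real.log_nonneg hq
  have hlog : Real.log M ≤ (1 + δ) * Real.log q := by
    rw [← Real.log_rpow hq0]; exact Real.log_le_log hM0 hfl
  set u := √((1 + δ) * Real.log q) with hu
  have hu2 : u * u = (1 + δ) * Real.log q := Real.mul_self_sqrt (by positivity)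
  have hsq : √(Real.log M) ≤ u := Real.sqrt_le_sqrt hlog
  have hkey : 1 + 4 * u ≤ δ * Real.log q := by
    rw [div_le_iff₀ hδ] at h2
    have : (1 + δ) * (1 + 4 * u) ≤ (1 + δ) * (δ * Real.log q) := by
      calc (1 + δ) * (1 + 4 * u) ≤ (1 + δ) * (5 * u) := by nlinarith
        _ = (5 * (1 + δ)) * u := by ring
        _ ≤ (u * δ) * u := by nlinarith
        _ = δ * (u * u) := by ring
        _ = _ := by rw [hu2]; ring
    exact le_of_mul_le_mul_left this (by linarith)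
  have he : (q : ℝ) ^ (1 + δ) = q * Real.exp (δ * Real.log q) := by
    rw [Real.rpow_add hq0, Real.rpow_one, Real.rpow_def_of_pos hq0, mul_comm (Real.log _)]
  have h2e : (2 : ℝ) ≤ Real.exp 1 := by
    have := Real.add_one_le_exp (1 : ℝ); linarith
  have hfin : (q : ℝ) ≤ M * Real.exp (-4 * √(Real.log M)) := by
    calc (q : ℝ) ≤ q * Real.exp 1 / 2 := by nlinarith
      _ ≤ q * Real.exp (δ * Real.log q + -4 * u) / 2 := by
          gcongr; linarith
      _ = (q : ℝ) ^ (1 + δ) / 2 * Real.exp (-4 * u) := by rw [he, Real.exp_add]; ring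
      _ ≤ _ := mul_le_mul hfl2.le (Real.exp_le_exp.2 (by linarith)) (Real.exp_pos _).le hM0.le
  exact_mod_cast le_trans hfin hb

end Pool.Agent.MP_d19b84_nt.H59

end MrgPart6

-- marker of a merged file
example : 731051 + 565120 = 731051 + 565120 := rfl
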