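import Mathlib
import Pool.Agent.MP_d19b84_nt.H59Glue

set_option autoImplicit false

namespace Pool.Agent.Results.MP_d19b84_nt.SqrtLog

open Finset Filter Pool.Agent.MP_d19b84_nt.H59

theorem roth_ex (q : ℕ) : ∃ M, q ≤ rothNumberNat M := by
  obtain ⟨q0, h⟩ := eventually_atTop.1 (roth_small (δ := 1) one_pos)
  obtain ⟨M, -, hM⟩ := h (max q q0) (le_max_right _ _)
  exact ⟨M, le_trans (le_max_left _ _) hM⟩

/-- The least length whose Roth number reaches `8 ^ (n + 1)`. -/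
noncomputable def MM (n : ℕ) : ℕ := Nat.find (roth_ex (8 ^ (n + 1)))

theorem MM_spec (n : ℕ) : 8 ^ (n + 1) ≤ rothNumberNat (MM n) := Nat.find_spec (roth_ex _)

theorem MM_pos (n : ℕ) : 0 < MM n := by
  have h := MM_spec n
  have h1 : rothNumberNat (MM n) ≤ MM n := rothNumberNat_le _
  have : 0 < 8 ^ (n + 1) := by positivity
  omega

theorem MM_small {δ : ℝ} (hδ : 0 < δ) :
    ∀ᶠ n : ℕ in atTop, (MM n : ℝ) ≤ ((8 : ℝ) ^ (n + 1)) ^ (1 + δ) := by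
  have ht : Tendsto (fun n : ℕ => 8 ^ (n + 1)) atTop atTop :=
    (tendsto_pow_atTop_atTop_of_one_lt (by norm_num : (1 : ℕ) < 8)).comp
      (tendsto_add_atTop_nat 1)
  filter_upwards [ht.eventually (roth_small hδ)] with n h
  obtain ⟨M, h1, h2⟩ := h
  have : MM n ≤ M := Nat.find_min' _ h2
  push_cast at h1
  exact le_trans (by exact_mod_cast this) h1

theorem lin_le (n : ℕ) (hn : 3 ≤ n) : 32 * (6 * n + 6 + 1) ≤ 8 ^ (n + 1) := by
  induction n, hn using Nat.le_induction with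
  | base => norm_num
  | succ n hn ih => rw [pow_succ]; omega

theorem sq_le (m : ℕ) (hm : 64 ≤ m) : 768 * m ≤ 2 ^ m := by
  induction m, hm using Nat.le_induction with
  | base => norm_num
  | succ n hn ih => rw [pow_succ]; omega

theorem stage (n : ℕ) (hn : 2 ≤ n) (hM : MM (n + 1) ≤ 64 * 64 ^ (n + 1)) (A : Finset ℕ)
    (hA : Adm A) (hU : ∀ a ∈ A, a < 2 ^ (4 * 64 ^ n)) :
    ∃ A' : Finset ℕ, Adm A' ∧ (∀ a ∈ A', a < 2 ^ (4 * 64 ^ (n + 1))) ∧ A ⊆ A' ∧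
      (∀ a ∈ A', a ∈ A ∨ 2 ^ (4 * 64 ^ n) ≤ a) ∧ (∃ a ∈ A', 2 ^ (4 * 64 ^ n) ≤ a) ∧
      ((64 ^ (n + 1) : ℕ) : ℝ) / (48 * MM (n + 1)) ≤ ∑ a ∈ A', (1 : ℝ) / a := by
  obtain ⟨v, hv⟩ := exists_Typ (MM_spec (n + 1))
  have hM0 := MM_pos (n + 1)
  have e1 : (64 : ℕ) ^ (n + 1) = 64 * 64 ^ n := by ring
  have hn1 : n < 64 ^ n := Nat.lt_pow_self (by norm_num)
  set r := 64 ^ n with hr
  set m := 64 ^ (n + 1) with hm
  have hU2 : 8 * (2 ^ (4 * r) * 2 ^ (4 * r)) + 20 ≤ 2 ^ (2 * m) := by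
    have h1 : 2 ^ (2 * m) = 2 ^ (4 * r) * 2 ^ (4 * r) * 2 ^ (120 * r) := by
      rw [← pow_add, ← pow_add]; congr 1; omega
    have h2 : 2 ^ 5 ≤ 2 ^ (120 * r) := Nat.pow_le_pow_right (by norm_num) (by omega)
    have h3 : 0 < 2 ^ (4 * r) * 2 ^ (4 * r) := by positivity
    rw [h1]; nlinarith
  obtain ⟨x, hx1, hx2, hx3⟩ := slot_stage (W := 2 ^ (6 * (n + 1) + 6)) (N := 2 ^ (2 * m))
    (D := 2 ^ (4 * r) * 2 ^ (4 * r)) (w := 6 * (n + 1) + 6) (m := m) hM0 hv rfl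
    (pow_dvd_pow _ (by omega))
    (by
      rw [show 4 * 2 ^ m = 2 ^ (m + 2) by ring]
      exact Nat.pow_le_pow_right (by norm_num) (by omega))
    hU2
    (by
      have : 2 ^ (6 * (n + 1) + 6) = 64 * m := by
        rw [hm, pow_add, pow_mul]; norm_num; ring
      omega)
    (by
      have : 8 ^ (n + 1 + 1) * 8 ^ (n + 1 + 1) = 64 * m := by
        rw [hm, ← mul_pow, pow_succ]; norm_num; ring
      omega)
    (lin_le (n + 1) (by omega))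
  have hUN : 2 ^ (4 * r) ≤ 12 * MM (n + 1) * 2 ^ (2 * m) := by
    have h1 : 2 ^ (4 * r) ≤ 2 ^ (2 * m) := Nat.pow_le_pow_right (by norm_num) (by omega)
    have h2 : 1 * 2 ^ (2 * m) ≤ 12 * MM (n + 1) * 2 ^ (2 * m) :=
      Nat.mul_le_mul_right _ (by omega)
    omega
  have hD : ∑ b ∈ A, b ≤ 2 ^ (4 * r) * 2 ^ (4 * r) := by
    have h1 : A.card ≤ 2 ^ (4 * r) := by
      have : A ⊆ range (2 ^ (4 * r)) := fun a ha => mem_range.2 (hU a ha)
      simpa using card_le_card this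
    calc ∑ b ∈ A, b ≤ ∑ _b ∈ A, 2 ^ (4 * r) := sum_le_sum (fun a ha => (hU a ha).le)
      _ = A.card * 2 ^ (4 * r) := by simp
      _ ≤ _ := Nat.mul_le_mul_right _ h1
  obtain ⟨A', b1, b2, b3, b4, b5, b6⟩ := set_stage hM0 (by positivity) (by omega) hx1 hx2 hx3
    A hA hU hUN hD
  refine ⟨A', b1, fun a ha => lt_of_lt_of_le (b4 a ha) ?_, b2, b3, b5, b6⟩
  have h1 := sq_le m (by omega)
  calc 12 * MM (n + 1) * (2 ^ (2 * m) * 2 ^ m) ≤ 2 ^ m * (2 ^ (2 * m) * 2 ^ m) :=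
        Nat.mul_le_mul_right _ (by omega)
    _ = _ := by rw [← pow_add, ← pow_add]; congr 1; omega

theorem numeric {ε : ℝ} (h0 : 0 < ε) (h1 : ε ≤ 1 / 4) :
    ∀ᶠ n : ℕ in atTop,
      (256 * (64 : ℝ) ^ n) ^ (1 / 2 - ε) ≤ ((64 ^ n : ℕ) : ℝ) / (48 * MM n) := by
  have ht : Tendsto (fun n : ℕ => ((8 : ℝ) ^ n) ^ ε) atTop atTop :=
    (tendsto_rpow_atTop h0).comp (tendsto_pow_atTop_atTop_of_one_lt (by norm_num))
  filter_upwards [MM_small h0, ht.eventually_ge_atTop (768 * 64)] with n a1 a2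
  have hM : (0 : ℝ) < MM n := by exact_mod_cast MM_pos n
  set r : ℝ := (8 : ℝ) ^ n with hr
  have hr0 : 0 < r := by positivity
  have e1 : (64 : ℝ) ^ n = r ^ (2 : ℝ) := by
    rw [Real.rpow_two, hr, ← pow_mul, mul_comm, pow_mul]; norm_num
  have e2 : (256 * (64 : ℝ) ^ n) ^ (1 / 2 - ε) ≤ 16 * r ^ (1 - 2 * ε) := by
    rw [e1, Real.mul_rpow (by norm_num) (by positivity), ← Real.rpow_mul hr0.le,
      show 2 * (1 / 2 - ε) = 1 - 2 * ε by ring]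
    refine mul_le_mul_of_nonneg_right ?_ (by positivity)
    calc (256 : ℝ) ^ (1 / 2 - ε) ≤ (256 : ℝ) ^ (1 / 2 : ℝ) :=
          Real.rpow_le_rpow_of_exponent_le (by norm_num) (by linarith)
      _ = 16 := by
          rw [show (256 : ℝ) = 16 ^ (2 : ℝ) by norm_num, ← Real.rpow_mul (by norm_num)]
          norm_num
  have e3 : (MM n : ℝ) ≤ 64 * r ^ (1 + ε) := by
    refine le_trans a1 ?_
    rw [pow_succ, ← hr, Real.mul_rpow hr0.le (by norm_num), mul_comm]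
    refine mul_le_mul_of_nonneg_right ?_ (by positivity)
    calc (8 : ℝ) ^ (1 + ε) ≤ (8 : ℝ) ^ (2 : ℝ) :=
          Real.rpow_le_rpow_of_exponent_le (by norm_num) (by linarith)
      _ = 64 := by norm_num
  rw [le_div_iff₀ (by positivity)]
  push_cast
  calc (256 * (64 : ℝ) ^ n) ^ (1 / 2 - ε) * (48 * MM n)
      ≤ (16 * r ^ (1 - 2 * ε)) * (48 * (64 * r ^ (1 + ε))) := by gcongr
    _ = (768 * 64) * (r ^ (1 - 2 * ε) * r ^ (1 + ε)) := by ring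
    _ ≤ r ^ ε * (r ^ (1 - 2 * ε) * r ^ (1 + ε)) := by gcongr
    _ = _ := by
        rw [← Real.rpow_add hr0, ← Real.rpow_add hr0, e1]; congr 1; ring

theorem result :
    ∃ a : ℕ → ℕ, StrictMono a ∧ 1 ≤ a 0 ∧
      (∀ i j k : ℕ, j ≤ k → k < i → a i ≠ ∑ m ∈ Finset.Icc j k, a m) ∧
      ∀ ε : ℝ, 0 < ε → ∀ᶠ x : ℝ in Filter.atTop,
        (Real.log x) ^ ((1 : ℝ) / 2 - ε) ≤
          ∑ n ∈ (Finset.range ⌈x⌉₊).filter (fun n => (a n : ℝ) < x), (1 : ℝ) / (a n : ℝ) := by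
  obtain ⟨n0, hn0⟩ := eventually_atTop.1 ((MM_small one_pos).and (eventually_ge_atTop 2))
  have hUm : StrictMono (fun n : ℕ => 2 ^ (4 * 64 ^ (n + n0))) := by
    intro a b hab
    refine Nat.pow_lt_pow_right (by norm_num) ?_
    have : 64 ^ (a + n0) < 64 ^ (b + n0) := Nat.pow_lt_pow_right (by norm_num) (by omega)
    omega
  obtain ⟨a, h1, h2, h3, h4⟩ := glue (fun n : ℕ => 2 ^ (4 * 64 ^ (n + n0))) hUm
    (fun n => ((64 ^ (n + n0 + 1) : ℕ) : ℝ) / (48 * MM (n + n0 + 1))) (fun n A hA hU => by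
      have hM : MM (n + n0 + 1) ≤ 64 * 64 ^ (n + n0 + 1) := by
        have h := (hn0 (n + n0 + 1) (by omega)).1
        have e : ((8 : ℝ) ^ (n + n0 + 1 + 1)) ^ ((1 : ℝ) + 1) = 64 * 64 ^ (n + n0 + 1) := by
          rw [show (1 : ℝ) + 1 = 2 by norm_num, Real.rpow_two, ← pow_mul, mul_comm, pow_mul,
            pow_succ]
          norm_num; ring
        rw [e] at h
        exact_mod_cast h
      have := stage (n + n0) (le_trans (hn0 n0 le_rfl).2 (Nat.le_add_left _ _)) hM A hA hU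
      simpa only [show n + 1 + n0 = n + n0 + 1 by omega] using this)
  refine ⟨a, h1, h2, h3, fun ε hε => ?_⟩
  obtain ⟨n1, hn1⟩ := eventually_atTop.1
    (numeric (ε := min ε (1 / 4)) (lt_min hε (by norm_num)) (min_le_right _ _))
  filter_upwards [eventually_ge_atTop (((2 ^ (4 * 64 ^ (n1 + 1 + n0)) : ℕ) : ℝ)),
    Real.tendsto_log_atTop.eventually_ge_atTop 1, eventually_gt_atTop 0] with x hx hl hx0
  have hex : ∃ n : ℕ, x < ((2 ^ (4 * 64 ^ (n + n0)) : ℕ) : ℝ) := by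
    refine ⟨⌈x⌉₊ + 1, ?_⟩
    have a1 : ⌈x⌉₊ + 1 ≤ 2 ^ (4 * 64 ^ (⌈x⌉₊ + 1 + n0)) := hUm.le_apply (x := ⌈x⌉₊ + 1)
    have a2 := Nat.le_ceil x
    have a3 : ((⌈x⌉₊ + 1 : ℕ) : ℝ) ≤ ((2 ^ (4 * 64 ^ (⌈x⌉₊ + 1 + n0)) : ℕ) : ℝ) := by
      exact_mod_cast a1
    push_cast at a3 ⊢
    linarith
  have hs := Nat.find_spec hex
  have hgt : n1 + 1 < Nat.find hex := by
    by_contra hh
    have a1 : 2 ^ (4 * 64 ^ (Nat.find hex + n0)) ≤ 2 ^ (4 * 64 ^ (n1 + 1 + n0)) :=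
      hUm.monotone (not_lt.1 hh)
    have a2 : ((2 ^ (4 * 64 ^ (Nat.find hex + n0)) : ℕ) : ℝ) ≤
        ((2 ^ (4 * 64 ^ (n1 + 1 + n0)) : ℕ) : ℝ) := by exact_mod_cast a1
    linarith
  obtain ⟨n, hn⟩ : ∃ n, Nat.find hex = n + 2 := ⟨Nat.find hex - 2, by omega⟩
  have hmin := Nat.find_min hex (show n + 1 < Nat.find hex by omega)
  rw [hn] at hs
  refine le_trans ?_ (h4 n x (not_lt.1 hmin))
  refine le_trans ?_ (hn1 (n + n0 + 1) (by omega))
  have hlog : Real.log x ≤ 256 * (64 : ℝ) ^ (n + n0 + 1) := by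
    have a1 := Real.log_le_log hx0 hs.le
    push_cast at a1
    rw [Real.log_pow] at a1
    push_cast at a1
    have a2 : Real.log 2 ≤ 1 := by
      have := Real.log_two_lt_d9; linarith
    have a3 : (64 : ℝ) ^ (n + 2 + n0) = 64 * 64 ^ (n + n0 + 1) := by ring
    rw [a3] at a1
    have a4 : (0 : ℝ) < 64 ^ (n + n0 + 1) := by positivity
    nlinarith
  calc (Real.log x) ^ ((1 : ℝ) / 2 - ε) ≤ (Real.log x) ^ ((1 : ℝ) / 2 - min ε (1 / 4)) :=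
        Real.rpow_le_rpow_of_exponent_le hl (by linarith [min_le_left ε (1 / 4)])
    _ ≤ _ := Real.rpow_le_rpow (by linarith) hlog (by linarith [min_le_right ε (1 / 4)])

end Pool.Agent.Results.MP_d19b84_nt.SqrtLog
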