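import Mathlib.Analysis.SpecialFunctions.Pow.Asymptotics
import Pool.Agent.MP_d19b84_nt.H59Glue

-- ======== part 0: formerly Pool.Agent.MP_d19b84_nt.LogDefs
section MrgPart0

/-!
PROJECT LOGD (Erdos 839, reciprocal sum at least `(log x)^(1-eps)`): definitions and statements.
-/

set_option autoImplicit false

namespace Pool.Agent.MP_d19b84_nt.Logd

open Finset Pool.Agent.MP_d19b84_nt.H59

/-- The parabola of ideal running sums. -/
def gq (P n : ℕ) : ℕ := P * n ^ 2 + n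

/-- The window of slot `t`; `gq P t + wv P t = gq P (t + 1)`. -/
def wv (P t : ℕ) : ℕ := P * (2 * t + 1) + 1

open Classical in
/-- Sum of the windows of the used slots in `[a, b)`. -/
noncomputable def Ws (P : ℕ) (u : ℕ → Prop) (a b : ℕ) : ℕ := ∑ v ∈ (Ico a b).filter u, wv P v

open Classical in
/-- Number of slots in `[a, b)` with property `u`. -/
noncomputable def cn (u : ℕ → Prop) (a b : ℕ) : ℕ := ((Ico a b).filter u).card

/-- A rigid colouring of the labels. -/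
structure Col (P q M K : ℕ) (F : ℕ → ℕ) : Prop where
  lt : ∀ x, F x < K
  per : ∀ x y, x ≡ y [MOD q] → F x = F y
  ne : ∀ x, F (x + 1) ≠ F x
  bit : ∀ x y, F x = F y → M ∣ x → M ∣ y
  rig : ∀ x y t, gq P y + gq P t ≡ gq P x + gq P (t + 1) [MOD q] → F x = F t →
    F y = F (t + 1) → y ≡ x + 1 [MOD q]

/-- A stretch `[a, b)` of slots: `u` the used slots, `y τ` the type of the state at time `τ`. -/
structure Seg (P q M R K : ℕ) (F : ℕ → ℕ) (NB SB u : ℕ → Prop) (y : ℕ → ℕ) (a b : ℕ) : Prop where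
  y0 : y a = F a
  y1 : y b = F b
  w1 : Ws P u a b + gq P a ≡ gq P b [MOD q]
  lt : ∀ τ, a ≤ τ → τ ≤ b → y τ < K + 2
  keep : ∀ t, a ≤ t → t < b → ¬ u t → y (t + 1) = y t
  use : ∀ t, a ≤ t → t < b → u t → y (t + 1) ≠ y t ∧
    ((¬ NB t ∧ y t = F t ∧ y (t + 1) = F (t + 1)) ∨
      (¬ SB t ∧ (K ≤ y t ∨ ∃ e, M ∣ e ∧ y t = F e)))
  rep : ∀ j, a ≤ j → j ≤ b → y j < K → ∃ τ, a ≤ τ ∧ τ ≤ b ∧ Ws P u a τ = Ws P u a j ∧
    y j = F τ ∧ Ws P u a τ + gq P a ≡ gq P τ [MOD q]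
  emp : cn (fun t => ¬ u t) a b ≤ M * cn NB a b
  sp : cn (fun t => u t ∧ K ≤ y (t + 1)) a b ≤ 2 * R * cn NB a b

def CoreStmt : Prop :=
  ∀ D : ℕ, 1 ≤ D → ∃ P : ℕ, 3 ≤ P ∧ Odd P ∧ ∀ a : ℕ, 1 ≤ a → ∃ F : ℕ → ℕ,
    Col P ((P ^ (D * a)) ^ 4) ((P ^ (D * a)) ^ 3) (2 * P ^ (D + 28 * a)) F

def LocalStmt : Prop :=
  ∀ (P R K s : ℕ) (F : ℕ → ℕ) (NB SB : ℕ → Prop), Odd R → P ∣ R → 10 ≤ R →
    Col P (R ^ 4) (R ^ 3) K F → R ^ 3 ∣ s →
    (∀ i < R, 8 * cn SB (s + i * R ^ 3) (s + (i + 1) * R ^ 3) < R ^ 3) →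
    ∃ (u : ℕ → Prop) (y : ℕ → ℕ), Seg P (R ^ 4) (R ^ 3) R K F NB SB u y s (s + R ^ 4)

def GlobalStmt : Prop :=
  ∀ (P R K N D m : ℕ) (F : ℕ → ℕ), 3 ≤ P → Odd R → P ∣ R → Col P (R ^ 4) (R ^ 3) K F →
    R ^ 4 ∣ N → 1 ≤ m → 1000 * m ≤ R → 16 * R ^ 4 * (D + 3) ≤ N →
    ∃ x : ℕ → ℕ,
      (∀ t, x t = 0 ∨ (N ≤ t ∧ 12 * (P * (K + 2) ^ 3) * t ≤ x t ∧
        x t < 12 * (P * (K + 2) ^ 3) * (t + 1))) ∧
      (∀ t, x t ≠ 0 → ¬ Blk x D t (x t)) ∧ ∀ i < m, HF N x i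

def MainStmt : Prop :=
  ∃ a : ℕ → ℕ, StrictMono a ∧ 1 ≤ a 0 ∧
    (∀ i j k : ℕ, j ≤ k → k < i → a i ≠ ∑ m ∈ Finset.Icc j k, a m) ∧
    ∀ ε : ℝ, 0 < ε → ∀ᶠ x : ℝ in Filter.atTop,
      (Real.log x) ^ (1 - ε) ≤
        ∑ n ∈ (Finset.range ⌈x⌉₊).filter (fun n => (a n : ℝ) < x), (1 : ℝ) / (a n : ℝ)

variable {P : ℕ} {u u' : ℕ → Prop} {a b c : ℕ}

theorem gq_succ (P t : ℕ) : gq P (t + 1) = gq P t + wv P t := by unfold gq wv; ring

theorem wv_mono (P : ℕ) (h : a ≤ b) : wv P a ≤ wv P b := by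
  unfold wv; have := Nat.mul_le_mul_left P (show 2 * a + 1 ≤ 2 * b + 1 by omega); omega

theorem Ws_add (P : ℕ) (u : ℕ → Prop) (h1 : a ≤ b) (h2 : b ≤ c) :
    Ws P u a c = Ws P u a b + Ws P u b c := by
  classical
  simp only [Ws, sum_filter]
  exact (sum_Ico_consecutive _ h1 h2).symm

theorem cn_add (u : ℕ → Prop) (h1 : a ≤ b) (h2 : b ≤ c) : cn u a c = cn u a b + cn u b c := by
  classical
  simp only [cn, card_filter]
  exact (sum_Ico_consecutive _ h1 h2).symm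

theorem Ws_self (P : ℕ) (u : ℕ → Prop) (h : b ≤ a) : Ws P u a b = 0 := by
  simp [Ws, Ico_eq_empty_of_le h]

theorem cn_self (u : ℕ → Prop) (h : b ≤ a) : cn u a b = 0 := by
  simp [cn, Ico_eq_empty_of_le h]

theorem Ws_one_pos (P : ℕ) (h : u a) : Ws P u a (a + 1) = wv P a := by
  simp [Ws, filter_singleton, h]

theorem Ws_one_neg (P : ℕ) (h : ¬ u a) : Ws P u a (a + 1) = 0 := by
  simp [Ws, filter_singleton, h]

theorem cn_one_pos (h : u a) : cn u a (a + 1) = 1 := by simp [cn, filter_singleton, h]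

theorem cn_one_neg (h : ¬ u a) : cn u a (a + 1) = 0 := by simp [cn, filter_singleton, h]

theorem cn_mono (h : ∀ t, a ≤ t → t < b → u t → u' t) : cn u a b ≤ cn u' a b := by
  classical
  refine card_le_card fun t ht => ?_
  simp only [mem_filter, mem_Ico] at ht ⊢
  exact ⟨ht.1, h t ht.1.1 ht.1.2 ht.2⟩

theorem cn_congr (h : ∀ t, a ≤ t → t < b → (u t ↔ u' t)) : cn u a b = cn u' a b :=
  le_antisymm (cn_mono fun t h1 h2 => (h t h1 h2).1) (cn_mono fun t h1 h2 => (h t h1 h2).2)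

theorem Ws_congr (P : ℕ) (h : ∀ t, a ≤ t → t < b → (u t ↔ u' t)) : Ws P u a b = Ws P u' a b := by
  classical
  refine sum_congr (Finset.ext fun t => ?_) fun _ _ => rfl
  simp only [mem_filter, mem_Ico]
  exact and_congr_right fun ht => h t ht.1 ht.2

theorem cn_le (u : ℕ → Prop) (a b : ℕ) : cn u a b ≤ b - a := by
  classical
  exact (card_filter_le _ _).trans (Nat.card_Ico a b).le

theorem cn_compl (u : ℕ → Prop) (a b : ℕ) : cn u a b + cn (fun t => ¬ u t) a b = b - a := by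
  classical
  rw [← Nat.card_Ico a b, ← card_filter_add_card_filter_not (s := Ico a b) u]
  unfold cn
  congr

theorem cn_or (u u' : ℕ → Prop) (a b : ℕ) :
    cn (fun t => u t ∨ u' t) a b ≤ cn u a b + cn u' a b := by
  classical
  refine le_trans (card_le_card fun t ht => ?_) (card_union_le _ _)
  simp only [mem_filter, mem_union] at ht ⊢
  exact ht.2.imp (fun h => ⟨ht.1, h⟩) fun h => ⟨ht.1, h⟩

theorem cn_zero (h : ∀ t, a ≤ t → t < b → ¬ u t) : cn u a b = 0 := by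
  classical
  refine card_eq_zero.2 (filter_eq_empty_iff.2 fun t ht => ?_)
  exact h t (mem_Ico.1 ht).1 (mem_Ico.1 ht).2

theorem cn_pos {t : ℕ} (h1 : a ≤ t) (h2 : t < b) (h : u t) : 0 < cn u a b := by
  classical
  exact card_pos.2 ⟨t, mem_filter.2 ⟨mem_Ico.2 ⟨h1, h2⟩, h⟩⟩

theorem cn_mul_le (P : ℕ) (u : ℕ → Prop) (a b : ℕ) : cn u a b * wv P a ≤ Ws P u a b := by
  classical
  have := card_nsmul_le_sum ((Ico a b).filter u) (wv P) (wv P a)
    fun t ht => wv_mono P (mem_Ico.1 (mem_filter.1 ht).1).1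
  simpa [cn, Ws] using this

theorem Ws_zero (P : ℕ) (h : cn u a b = 0) : Ws P u a b = 0 := by
  classical
  have : (Ico a b).filter u = ∅ := card_eq_zero.1 h
  unfold Ws
  rw [this, sum_empty]

end Pool.Agent.MP_d19b84_nt.Logd

end MrgPart0

-- ======== part 1: formerly Pool.Agent.MP_d19b84_nt.LogCore
section MrgPart1

/-!
PROJECT LOGD: a rigid colouring modulo a prime-like power with few colours.
-/

set_option autoImplicit false

namespace Pool.Agent.MP_d19b84_nt.Logd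

open Finset

namespace CoreP

/-- a periodic colouring with `K` colours whose classes satisfy `Rel` -/
def Cl (q K : ℕ) (Rel : ℕ → ℕ → Prop) : Prop :=
  ∃ F : ℕ → ℕ, (∀ x, F x < K) ∧ (∀ x y, x ≡ y [MOD q] → F x = F y) ∧ ∀ x y, F x = F y → Rel x y

theorem Cl.mul {q K K' : ℕ} {R R' : ℕ → ℕ → Prop} (h : Cl q K R) (h' : Cl q K' R') :
    Cl q (K * K') fun x y => R x y ∧ R' x y := by
  obtain ⟨F, a, b, c⟩ := h
  obtain ⟨F', a', b', c'⟩ := h'
  refine ⟨fun x => F x + K * F' x, fun x => ?_, fun x y k => by simp only [b x y k, b' x y k],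
    fun x y k => ?_⟩
  · have := Nat.mul_le_mul_left K (Nat.succ_le_of_lt (a' x))
    have := a x
    rw [Nat.mul_succ] at *
    show F x + K * F' x < _
    omega
  · have e : F x = F y := by
      have := congrArg (· % K) k
      simpa [Nat.mod_eq_of_lt (a x), Nat.mod_eq_of_lt (a y)] using this
    have e' : F' x = F' y := by
      have k' : F x + K * F' x = F y + K * F' y := k
      rw [e] at k'
      exact Nat.eq_of_mul_eq_mul_left (lt_of_le_of_lt (Nat.zero_le _) (a x))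
        (Nat.add_left_cancel k')
    exact ⟨c x y e, c' x y e'⟩

theorem Cl.prod {ι : Type} [DecidableEq ι] {q K : ℕ} {R : ι → ℕ → ℕ → Prop} (s : Finset ι)
    (h : ∀ i ∈ s, Cl q K (R i)) : Cl q (K ^ s.card) fun x y => ∀ i ∈ s, R i x y := by
  induction s using Finset.induction_on with
  | empty => exact ⟨fun _ => 0, fun _ => by simp, fun _ _ _ => rfl, fun _ _ _ => by simp⟩
  | insert i s hi ih =>
    obtain ⟨F, a, b, c⟩ := (h i (mem_insert_self _ _)).mul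
      (ih fun j hj => h j (mem_insert_of_mem hj))
    refine ⟨F, fun x => by rw [card_insert_of_notMem hi, pow_succ']; exact a x, b, fun x y k => ?_⟩
    exact forall_mem_insert _ _ _ |>.2 (c x y k)

theorem bucket {q c G : ℕ} (hG : 0 < G) (f : ℕ → ℝ) (hp : ∀ x y, x ≡ y [MOD q] → f x = f y)
    (h0 : ∀ x, 0 ≤ f x) (h1 : ∀ x, f x < c) :
    Cl q (c * G) fun x y => |f x - f y| < 1 / (G : ℝ) := by
  have hG' : (0 : ℝ) < G := by exact_mod_cast hG
  refine ⟨fun x => ⌊G * f x⌋₊, fun x => ?_, fun x y k => by simp only [hp x y k], fun x y k => ?_⟩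
  · refine (Nat.floor_lt (mul_nonneg hG'.le (h0 x))).2 ?_
    push_cast
    rw [mul_comm]
    exact mul_lt_mul_of_pos_right (h1 x) hG'
  · have a := Nat.floor_le (mul_nonneg hG'.le (h0 x))
    have b := Nat.floor_le (mul_nonneg hG'.le (h0 y))
    have a' := Nat.lt_floor_add_one (G * f x)
    have b' := Nat.lt_floor_add_one (G * f y)
    have k' : (⌊G * f x⌋₊ : ℝ) = ⌊G * f y⌋₊ := by exact_mod_cast k
    show |f x - f y| < 1 / (G : ℝ)
    rw [lt_div_iff₀ hG', ← abs_of_pos hG', ← abs_mul, abs_lt]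
    constructor <;> nlinarith

/-- the convexity step -/
theorem real_step (S : Finset ℕ) (hS : ∀ r ∈ S, 2 ≤ r) (θ t s : ℕ → ℝ) (τ η : ℝ)
    (hθ : ∀ r, 0 ≤ θ r ∧ θ r ≤ 1) (hs : ∀ r ∈ S, |s r| ≤ 1) (hτ : |τ| < η) (hη : η ≤ 1)
    (he : ∀ r ∈ S, r * t r = (r - 1) * s r + τ)
    (h1 : |∑ r ∈ S, (r : ℝ) * (θ r + t r) ^ 2 - ∑ r ∈ S, (r : ℝ) * θ r ^ 2| < η)
    (h2 : |∑ r ∈ S, ((r : ℝ) - 1) * (θ r + s r) ^ 2 - ∑ r ∈ S, ((r : ℝ) - 1) * θ r ^ 2| < η) :
    ∀ r ∈ S, s r ^ 2 < 14 * S.card * η := by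
  have hη0 : 0 < η := (abs_nonneg τ).trans_lt hτ
  obtain ⟨τ1, τ2⟩ := abs_lt.1 hτ
  have term : ∀ r ∈ S, ((r : ℝ) * (θ r + t r) ^ 2 - r * θ r ^ 2) -
      (((r : ℝ) - 1) * (θ r + s r) ^ 2 - ((r : ℝ) - 1) * θ r ^ 2) ≤ 5 * η - s r ^ 2 / 2 := by
    intro r hr
    have r2 : (2 : ℝ) ≤ r := by exact_mod_cast hS r hr
    have e := he r hr
    obtain ⟨a, b⟩ := hθ r
    have c : s r * τ ≤ η := by
      calc s r * τ ≤ |s r * τ| := le_abs_self _
        _ = |s r| * |τ| := abs_mul _ _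
        _ ≤ 1 * η := mul_le_mul (hs r hr) hτ.le (abs_nonneg _) zero_le_one
        _ = η := one_mul η
    have c2 : τ ^ 2 ≤ η := by nlinarith
    have c3 : θ r * τ ≤ η := by nlinarith
    have c4 : (r : ℝ) * (r * t r ^ 2 - (r - 1) * s r ^ 2) ≤ r * (3 * η - s r ^ 2 / 2) := by
      have : (r : ℝ) * (r * t r ^ 2 - (r - 1) * s r ^ 2) =
          -((r - 1) * s r ^ 2) + 2 * (r - 1) * (s r * τ) + τ ^ 2 := by
        calc _ = (r * t r) ^ 2 - r * (r - 1) * s r ^ 2 := by ring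
          _ = _ := by rw [e]; ring
      rw [this]
      nlinarith [sq_nonneg (s r), mul_le_mul_of_nonneg_left c (show (0 : ℝ) ≤ r - 1 by linarith)]
    have c5 := le_of_mul_le_mul_left c4 (by linarith)
    have : ((r : ℝ) * (θ r + t r) ^ 2 - r * θ r ^ 2) -
        (((r : ℝ) - 1) * (θ r + s r) ^ 2 - ((r : ℝ) - 1) * θ r ^ 2) =
        2 * θ r * (r * t r - (r - 1) * s r) + (r * t r ^ 2 - (r - 1) * s r ^ 2) := by ring
    rw [this, e]
    nlinarith
  have hsum := sum_le_sum term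
  simp only [sum_sub_distrib, sum_const, nsmul_eq_mul, ← sum_div] at hsum
  intro r hr
  have a := single_le_sum (f := fun r => s r ^ 2) (fun r _ => sq_nonneg _) hr
  have b : (1 : ℝ) ≤ S.card := by exact_mod_cast card_pos.2 ⟨r, hr⟩
  have c := (abs_lt.1 h1).1
  have d := (abs_lt.1 h2).2
  nlinarith

/-- divided differences -/
theorem divdiff (P d Del : ℤ) (D E : ℕ) (hP : P ≠ 0) (hd : IsCoprime P d) (hDel : IsCoprime P Del)
    (hD : Del = 2 * (E.factorial : ℤ)) (S : Finset ℕ) : (∀ r ∈ S, r ≤ E) → ∀ z V : ℤ,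
    IsCoprime P V → P ^ (D + 1) ∣ z * P ^ S.card →
    (∀ r ∈ S, ∃ v : ℤ, (2 * Del) ^ S.card * |v| < P ^ D ∧
      P ^ (D + 1) ∣ v * (d + 2 * P * r) * V - z) → P ^ (D + 1) ∣ z := by
  have hf : (1 : ℤ) ≤ E.factorial := by exact_mod_cast E.factorial_pos
  induction S using Finset.induction_on with
  | empty => intro _ z V _ h _; simpa using h
  | insert r0 S hr ih =>
    intro hS z V hV hz hv
    rw [card_insert_of_notMem hr] at hz hv
    obtain ⟨v0, a0, b0⟩ := hv r0 (mem_insert_self _ _)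
    have he : IsCoprime P (d + 2 * P * r0) := by
      have := hd.add_mul_left_right (2 * r0)
      rwa [show d + P * (2 * r0) = d + 2 * P * r0 by ring] at this
    have hp : (0 : ℤ) < (2 * Del) ^ S.card := pow_pos (by omega) _
    have k := ih (fun r h => hS r (mem_insert_of_mem h)) (Del * P * z) (V * (d + 2 * P * r0))
      (hV.mul_right he) (by
        rw [show Del * P * z * P ^ S.card = Del * (z * P ^ (S.card + 1)) by ring]
        exact hz.mul_left _) fun r h => by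
      obtain ⟨v, a, b⟩ := hv r (mem_insert_of_mem h)
      have hne : r ≠ r0 := fun c => hr (c ▸ h)
      have h1 := hS r (mem_insert_of_mem h)
      have h2 := hS r0 (mem_insert_self _ _)
      obtain ⟨w, hw⟩ : ((r0 : ℤ) - r) ∣ (E.factorial : ℤ) := by
        rw [← Int.natAbs_dvd, Int.natCast_dvd_natCast]
        exact Nat.dvd_factorial (by omega) (by omega)
      have hw1 : |w| ≤ E.factorial := by
        refine Int.le_of_dvd (by omega) ((abs_dvd _ _).2 ⟨r0 - r, by rw [hw]; ring⟩)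
      refine ⟨w * (v - v0), ?_, ?_⟩
      · have c1 : |w * (v - v0)| ≤ E.factorial * (|v| + |v0|) := by
          rw [abs_mul]
          exact mul_le_mul hw1 (abs_sub _ _) (abs_nonneg _) (by omega)
        have c2 := mul_le_mul_of_nonneg_left c1 hp.le
        rw [pow_succ, hD] at a a0
        rw [hD] at c2 hp ⊢
        have c3 := mul_nonneg hp.le (mul_nonneg (show (0 : ℤ) ≤ E.factorial by omega) (abs_nonneg v))
        have c4 := mul_nonneg hp.le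
          (mul_nonneg (show (0 : ℤ) ≤ E.factorial by omega) (abs_nonneg v0))
        nlinarith
      · have : w * (v - v0) * (d + 2 * P * r) * (V * (d + 2 * P * r0)) - Del * P * z =
            w * (d + 2 * P * r0) * (v * (d + 2 * P * r) * V - z) -
              w * (d + 2 * P * r) * (v0 * (d + 2 * P * r0) * V - z) := by
          rw [hD, hw]; ring
        rw [this]
        exact (b.mul_left _).sub (b0.mul_left _)
    have k1 : P ^ D ∣ z := by
      rw [pow_succ, show Del * P * z = Del * z * P by ring, mul_dvd_mul_iff_right hP] at k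
      exact (hDel.pow_left (m := D)).dvd_of_dvd_mul_left k
    have k2 : P ^ D ∣ v0 := by
      have := ((pow_dvd_pow P (Nat.le_succ D)).trans b0).add k1
      rw [sub_add_cancel, mul_assoc] at this
      exact ((he.mul_right hV).pow_left (m := D)).dvd_of_dvd_mul_right this
    have k3 : v0 = 0 := by
      refine Int.eq_zero_of_abs_lt_dvd k2 (lt_of_le_of_lt ?_ a0)
      exact le_mul_of_one_le_left (abs_nonneg _) (one_le_pow₀ (by omega))
    rw [k3, zero_mul, zero_mul, zero_sub] at b0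
    exact (dvd_neg).1 b0

theorem exists_inv (P : ℤ) (D : ℕ) : ∃ inv : ℤ → ℤ, ∀ c, P ^ D ∣ inv c * (2 * P * c + 1) - 1 := by
  have : ∀ c : ℤ, ∃ x, P ^ D ∣ x * (2 * P * c + 1) - 1 := fun c => by
    have h : IsCoprime (2 * P * c + 1) P := ⟨1, -(2 * c), by ring⟩
    obtain ⟨a, b, k⟩ := h.pow_right (n := D)
    exact ⟨a, -b, by linear_combination k⟩
  choose inv h using this
  exact ⟨inv, h⟩

/-- the phase of `X` at level `i` for the node `r` -/
noncomputable def th (inv : ℤ → ℤ) (N : ℤ) (i r X : ℕ) : ℝ :=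
  ((inv (X % N + r - 1) * X % N ^ (i + 1) : ℤ) : ℝ) / (N : ℝ) ^ (i + 1)

theorem th_bd (inv : ℤ → ℤ) {N : ℤ} (hN : 0 < N) (i r X : ℕ) :
    0 ≤ th inv N i r X ∧ th inv N i r X < 1 := by
  have hQ : 0 < N ^ (i + 1) := pow_pos hN _
  have hQ' : (0 : ℝ) < (N : ℝ) ^ (i + 1) := by exact_mod_cast hQ
  have a := Int.emod_nonneg (inv (X % N + r - 1) * X) hQ.ne'
  have b := Int.emod_lt_of_pos (inv (X % N + r - 1) * X) hQ
  unfold th
  refine ⟨div_nonneg (by exact_mod_cast a) hQ'.le, (div_lt_one hQ').2 (by exact_mod_cast b)⟩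

theorem th_per (inv : ℤ → ℤ) {N : ℤ} {q i : ℕ} (hq : N ^ (i + 1) ∣ (q : ℤ)) (r : ℕ) {X Y : ℕ}
    (h : X ≡ Y [MOD q]) : th inv N i r X = th inv N i r Y := by
  have h1 : (X : ℤ) ≡ Y [ZMOD N ^ (i + 1)] := (Int.natCast_modEq_iff.2 h).of_dvd hq
  have h2 : (X : ℤ) % N = Y % N := h1.of_dvd (dvd_pow_self N (Nat.succ_ne_zero i))
  have h3 : inv (Y % N + r - 1) * X % N ^ (i + 1) = inv (Y % N + r - 1) * Y % N ^ (i + 1) :=
    h1.mul_left _
  unfold th
  rw [h2, h3]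

theorem th_lift {P N : ℤ} {inv : ℤ → ℤ} (hinv : ∀ c, N ∣ inv c * (2 * P * c + 1) - 1) (hN : 0 < N)
    {i : ℕ} (hi : 1 ≤ i) (r : ℕ) {X t : ℕ} {a : ℤ} (hX : (X : ℤ) = (t + 1 : ℕ) + N ^ i * a) :
    ∃ u : ℤ, (N : ℝ) * (th inv N i r X - th inv N i r (t + 1)) = u ∧
      N ∣ u * (2 * P * t + 1 + 2 * P * r) - a := by
  have h2 : (X : ℤ) % N = ((t + 1 : ℕ) : ℤ) % N := by
    obtain ⟨j, rfl⟩ := Nat.exists_eq_add_of_le' hi
    rw [hX, pow_succ', mul_assoc, Int.add_mul_emod_self_left]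
  have hN' : (0 : ℝ) < N := by exact_mod_cast hN
  unfold th
  rw [h2]
  set n : ℤ := ((t + 1 : ℕ) : ℤ) with hn
  set ξ := inv (n % N + r - 1) with hξ
  refine ⟨ξ * a - N * (ξ * X / N ^ (i + 1) - ξ * n / N ^ (i + 1)), ?_, ?_⟩
  · rw [Int.emod_def, Int.emod_def]
    have : (X : ℝ) = n + (N : ℝ) ^ i * a := by exact_mod_cast hX
    push_cast
    rw [this]
    field_simp
    ring
  · obtain ⟨c, hc⟩ := hinv (n % N + r - 1)
    rw [← hξ, Int.emod_def] at hc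
    have ht : (t : ℤ) = n - 1 := by rw [hn]; push_cast; ring
    refine ⟨a * c + 2 * P * ξ * a * (n / N) - (ξ * X / N ^ (i + 1) - ξ * n / N ^ (i + 1)) *
      (2 * P * t + 1 + 2 * P * r), ?_⟩
    rw [ht]
    linear_combination a * hc

/-- what the colour records at level `i` -/
def Lev (inv : ℤ → ℤ) (N : ℤ) (D G i x y : ℕ) : Prop :=
  ((∀ r ∈ Icc 2 (D + 1), |th inv N i r (x + 1) - th inv N i r (y + 1)| < 1 / ((4 * (D + 1) : ℕ) : ℝ)) ∧
    |∑ r ∈ Icc 2 (D + 1), (r : ℝ) * th inv N i r (x + 1) ^ 2 -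
      ∑ r ∈ Icc 2 (D + 1), (r : ℝ) * th inv N i r (y + 1) ^ 2| < 1 / (G : ℝ)) ∧
  ((∀ r ∈ Icc 2 (D + 1), |th inv N i r x - th inv N i r y| < 1 / ((4 * (D + 1) : ℕ) : ℝ)) ∧
    |∑ r ∈ Icc 2 (D + 1), ((r : ℝ) - 1) * th inv N i r x ^ 2 -
      ∑ r ∈ Icc 2 (D + 1), ((r : ℝ) - 1) * th inv N i r y ^ 2| < 1 / (G : ℝ)) ∧
  |th inv N i 0 x - th inv N i 0 y| < 1 / (G : ℝ)

theorem cl_lev (inv : ℤ → ℤ) {N : ℤ} (hN : 0 < N) {D G q i : ℕ} (hD : 1 ≤ D) (hG : 0 < G)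
    (hq : N ^ (i + 1) ∣ (q : ℤ)) :
    Cl q (((1 * (4 * (D + 1))) ^ D * (D * (D + 1) * G)) *
      (((1 * (4 * (D + 1))) ^ D * (D * (D + 1) * G)) * (1 * G))) (Lev inv N D G i) := by
  have hc : (Icc 2 (D + 1)).card = D := by simp
  have box : ∀ g : ℕ → ℕ, (∀ x y, x ≡ y [MOD q] → g x ≡ g y [MOD q]) →
      Cl q ((1 * (4 * (D + 1))) ^ D) fun x y => ∀ r ∈ Icc 2 (D + 1),
        |th inv N i r (g x) - th inv N i r (g y)| < 1 / ((4 * (D + 1) : ℕ) : ℝ) := by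
    intro g hg
    have := Cl.prod (Icc 2 (D + 1)) fun r _ => bucket (q := q) (c := 1) (G := 4 * (D + 1))
      (by omega) (fun x => th inv N i r (g x)) (fun x y k => th_per inv hq r (hg x y k))
      (fun x => (th_bd inv hN i r _).1) fun x => by simpa using (th_bd inv hN i r _).2
    rwa [hc] at this
  have sph : ∀ (g : ℕ → ℕ) (w : ℕ → ℝ), (∀ x y, x ≡ y [MOD q] → g x ≡ g y [MOD q]) →
      (∀ r ∈ Icc 2 (D + 1), 0 < w r ∧ w r ≤ D + 1) →
      Cl q (D * (D + 1) * G) fun x y => |∑ r ∈ Icc 2 (D + 1), w r * th inv N i r (g x) ^ 2 -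
        ∑ r ∈ Icc 2 (D + 1), w r * th inv N i r (g y) ^ 2| < 1 / (G : ℝ) := by
    intro g w hg hw
    refine bucket hG (fun x => ∑ r ∈ Icc 2 (D + 1), w r * th inv N i r (g x) ^ 2)
      (fun x y k => sum_congr rfl fun r _ => by rw [th_per inv hq r (hg x y k)])
      (fun x => sum_nonneg fun r hr => mul_nonneg (hw r hr).1.le (sq_nonneg _)) fun x => ?_
    have : ∑ r ∈ Icc 2 (D + 1), w r * th inv N i r (g x) ^ 2 <
        ∑ _r ∈ Icc 2 (D + 1), ((D : ℝ) + 1) := by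
      refine sum_lt_sum_of_nonempty ⟨2, mem_Icc.2 ⟨le_rfl, by omega⟩⟩ fun r hr => ?_
      obtain ⟨a, b⟩ := th_bd inv hN i r (g x)
      obtain ⟨c, d⟩ := hw r hr
      have : th inv N i r (g x) ^ 2 < 1 := by nlinarith
      nlinarith
    rw [sum_const, hc, nsmul_eq_mul] at this
    push_cast
    exact this
  have w1 : ∀ r ∈ Icc 2 (D + 1), (2 : ℝ) ≤ r ∧ (r : ℝ) ≤ D + 1 := fun r hr =>
    ⟨by exact_mod_cast (mem_Icc.1 hr).1, by exact_mod_cast (mem_Icc.1 hr).2⟩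
  exact ((box (· + 1) fun x y k => k.add_right 1).mul (sph (· + 1) (fun r => r)
    (fun x y k => k.add_right 1) fun r hr => ⟨by linarith [(w1 r hr).1], (w1 r hr).2⟩)).mul
    (((box id fun x y k => k).mul (sph id (fun r => (r : ℝ) - 1) (fun x y k => k)
      fun r hr => ⟨by linarith [(w1 r hr).1], by linarith [(w1 r hr).2]⟩)).mul
    (bucket (c := 1) hG (fun x => th inv N i 0 x) (fun x y k => th_per inv hq 0 k)
      (fun x => (th_bd inv hN i 0 _).1) fun x => by simpa using (th_bd inv hN i 0 _).2))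

/-- one level of the rigidity argument -/
theorem step {P Del : ℤ} {D G i x y t : ℕ} {inv : ℤ → ℤ} {a b : ℤ} (hP : 0 < P)
    (hinv : ∀ c, P ^ (D + 1) ∣ inv c * (2 * P * c + 1) - 1) (hDel : IsCoprime P Del)
    (hD : Del = 2 * ((D + 2).factorial : ℤ))
    (hG : (G : ℤ) = 15 * (D + 1) * (2 * Del) ^ (2 * (D + 1)) * P ^ 2) (hi : 1 ≤ i)
    (hx : ((x + 1 : ℕ) : ℤ) = (t + 1 : ℕ) + (P ^ (D + 1)) ^ i * a)
    (hy : (y : ℤ) = (t + 1 : ℕ) + (P ^ (D + 1)) ^ i * b)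
    (hab : P ^ (D + 1) ∣ b * (2 * P * t + 1 + 2 * P) - a * (2 * P * t + 1))
    (h1 : Lev inv (P ^ (D + 1)) (D + 1) G i x t)
    (h2 : Lev inv (P ^ (D + 1)) (D + 1) G i y (t + 1)) : P ^ (D + 1) ∣ a ∧ P ^ (D + 1) ∣ b := by
  set N := P ^ (D + 1) with hNd
  have hN : 0 < N := pow_pos hP _
  have hN' : (0 : ℝ) < N := by exact_mod_cast hN
  have hf : (1 : ℤ) ≤ (D + 2).factorial := by exact_mod_cast (D + 2).factorial_pos
  have hW : (1 : ℤ) ≤ (2 * Del) ^ (D + 1) := one_le_pow₀ (by omega)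
  set d : ℤ := 2 * P * t + 1 with hd
  have cd : IsCoprime P d := ⟨-(2 * t), 1, by rw [hd]; ring⟩
  have ce : ∀ r : ℕ, IsCoprime P (d + 2 * P * r) := fun r =>
    ⟨-(2 * t) - 2 * r, 1, by rw [hd]; ring⟩
  choose u hu hu' using fun r => th_lift hinv hN hi r hx
  choose v hv hv' using fun r => th_lift hinv hN hi r hy
  obtain ⟨⟨a1, a2⟩, -⟩ := h1
  obtain ⟨-, ⟨b1, b2⟩, b3⟩ := h2
  set θ := fun r => th inv N i r (t + 1) with hθ
  set T := fun r => th inv N i r (x + 1) - θ r with hT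
  set s := fun r => th inv N i r y - θ r with hs
  obtain ⟨W, hWd⟩ : ∃ W : ℝ, W = (((2 * Del) ^ (D + 1) * P : ℤ) : ℝ) := ⟨_, rfl⟩
  have hW1 : (1 : ℝ) ≤ W := by
    rw [hWd]; exact_mod_cast one_le_mul_of_one_le_of_one_le hW hP
  have hD0 : (0 : ℝ) ≤ D := Nat.cast_nonneg D
  have hG' : (G : ℝ) = 15 * (D + 1) * W ^ 2 := by
    have : (G : ℝ) = ((15 * (D + 1) * (2 * Del) ^ (2 * (D + 1)) * P ^ 2 : ℤ) : ℝ) := by
      rw [← hG]; simp
    rw [this, hWd]; push_cast; ring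
  have hG4 : (4 : ℝ) ≤ G := by rw [hG']; nlinarith
  have hη : 1 / (G : ℝ) ≤ 1 / 4 := one_div_le_one_div_of_le (by norm_num) hG4
  have hM : ((4 * (D + 1 + 1) : ℕ) : ℝ) = 4 * (D + 2) := by push_cast; ring
  have small : ∀ (c z : ℝ), 0 ≤ c → c ≤ D + 2 → |z| < 1 / ((4 * (D + 1 + 1) : ℕ) : ℝ) →
      |c * z| ≤ 1 / 4 := by
    intro c z c0 c1 hz
    rw [hM, lt_div_iff₀ (by positivity)] at hz
    rw [abs_mul, abs_of_nonneg c0]
    nlinarith [abs_nonneg z]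
  have lin : ∀ r ∈ Icc 2 (D + 1 + 1), (r : ℝ) * T r = (r - 1) * s r + s 0 := by
    intro r hr
    have r1 : (2 : ℝ) ≤ r := by exact_mod_cast (mem_Icc.1 hr).1
    have r2 : (r : ℝ) ≤ D + 2 := by exact_mod_cast (mem_Icc.1 hr).2
    have k1 : N ∣ (r * u r - (r - 1) * v r - v 0) * ((d + 2 * P * r) * d) := by
      have : (r * u r - (r - 1) * v r - v 0) * ((d + 2 * P * r) * d) =
          r * d * (u r * (d + 2 * P * r) - a) - (r - 1) * d * (v r * (d + 2 * P * r) - b) -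
          (d + 2 * P * r) * (v 0 * (d + 2 * P * (0 : ℕ)) - b) - r * (b * (d + 2 * P) - a * d) := by
        push_cast; ring
      rw [this]
      exact ((((hu' r).mul_left _).sub ((hv' r).mul_left _)).sub ((hv' 0).mul_left _)).sub
        (hab.mul_left _)
    have k2 := (((ce r).mul_right cd).pow_left (m := D + 1)).dvd_of_dvd_mul_right k1
    have k3 : ((r * u r - (r - 1) * v r - v 0 : ℤ) : ℝ) = N * (r * T r - (r - 1) * s r - s 0) := by
      push_cast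
      rw [← hu r, ← hv r, ← hv 0]
      ring
    have m1 := abs_le.1 (small r (T r) (by linarith) r2 (a1 r hr))
    have m2 := abs_le.1 (small (r - 1) (s r) (by linarith) (by linarith) (b1 r hr))
    have m3 := abs_lt.1 (b3.trans_le hη)
    have k4 : |r * T r - (r - 1) * s r - s 0| < 1 :=
      abs_lt.2 ⟨by linarith [m1.1, m2.2, m3.2], by linarith [m1.2, m2.1, m3.1]⟩
    have k5 : (r * u r - (r - 1) * v r - v 0 : ℤ) = 0 := by
      refine Int.eq_zero_of_abs_lt_dvd k2 ?_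
      have : ((|r * u r - (r - 1) * v r - v 0| : ℤ) : ℝ) < (N : ℝ) := by
        rw [Int.cast_abs, k3, abs_mul, abs_of_pos hN']
        exact mul_lt_of_lt_one_right hN' k4
      exact_mod_cast this
    rw [k5, Int.cast_zero] at k3
    have := (mul_eq_zero.1 k3.symm).resolve_left hN'.ne'
    linarith
  have rs := real_step (Icc 2 (D + 1 + 1)) (fun r hr => (mem_Icc.1 hr).1) θ T s (s 0) (1 / G)
    (fun r => ⟨(th_bd inv hN i r _).1, (th_bd inv hN i r _).2.le⟩)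
    (fun r hr => by
      have := small 1 (s r) zero_le_one (by linarith) (b1 r hr)
      rw [one_mul] at this
      linarith) b3 (by linarith) lin
    (by simpa only [hT, add_sub_cancel] using a2) (by simpa only [hs, add_sub_cancel] using b2)
  have hc : (Icc 2 (D + 1 + 1)).card = D + 1 := by simp
  have hb : N ∣ b := by
    refine divdiff P d Del D (D + 2) hP.ne' cd hDel hD (Icc 2 (D + 1 + 1))
      (fun r hr => (mem_Icc.1 hr).2) b 1 isCoprime_one_right (by rw [hc]; exact Dvd.intro_left _ rfl)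
      fun r hr => ⟨v r, ?_, by rw [mul_one]; exact hv' r⟩
    have k1 := rs r hr
    rw [hc, hG', mul_one_div, lt_div_iff₀ (by positivity)] at k1
    push_cast at k1
    have k2 : (W * s r) ^ 2 < 1 := by nlinarith [sq_nonneg (W * s r)]
    have k3 : |W * s r| < 1 := (sq_lt_one_iff_abs_lt_one _).1 k2
    have k4 : (((2 * Del) ^ (D + 1) * P * |v r| : ℤ) : ℝ) < (N : ℝ) := by
      rw [Int.cast_mul, ← hWd, Int.cast_abs, ← hv r, abs_mul, abs_of_pos hN', mul_left_comm]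
      rw [abs_mul, abs_of_pos (by linarith : 0 < W)] at k3
      exact mul_lt_of_lt_one_right hN' k3
    have k5 : (2 * Del) ^ (D + 1) * P * |v r| < P ^ (D + 1) := by exact_mod_cast k4
    rw [hc]
    rw [pow_succ P, mul_right_comm] at k5
    exact lt_of_mul_lt_mul_right k5 hP.le
  refine ⟨?_, hb⟩
  have := (hb.mul_right (d + 2 * P)).sub hab
  rw [sub_sub_cancel] at this
  exact (cd.pow_left (m := D + 1)).dvd_of_dvd_mul_right this

end CoreP

open CoreP in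
theorem core : CoreStmt := by
  intro D hD
  obtain ⟨D, rfl⟩ := Nat.exists_eq_add_of_le' hD
  obtain ⟨Del, hDel⟩ : ∃ Del : ℕ, Del = 2 * (D + 2).factorial := ⟨_, rfl⟩
  obtain ⟨g, hg⟩ : ∃ g : ℕ, g = 15 * (D + 1) * (2 * Del) ^ (2 * (D + 1)) := ⟨_, rfl⟩
  obtain ⟨C, hC⟩ : ∃ C : ℕ,
      C = ((1 * (4 * (D + 1 + 1))) ^ (D + 1) * ((D + 1) * (D + 1 + 1))) ^ 2 * g ^ 3 := ⟨_, rfl⟩
  have hf := (D + 2).factorial_pos
  have hDel0 : 0 < Del := by omega
  have hg0 : 0 < g := by rw [hg]; positivity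
  have hC0 : 0 < C := by rw [hC]; positivity
  obtain ⟨P, hP⟩ : ∃ P : ℕ, P = 1 + Del * C := ⟨_, rfl⟩
  have hP2 : 2 * C ≤ Del * C := Nat.mul_le_mul_right _ (by omega)
  refine ⟨P, by omega, ⟨(D + 2).factorial * C, by rw [hP, hDel]; ring⟩, fun a ha => ?_⟩
  have hP0 : (0 : ℤ) < P := by exact_mod_cast (by omega : 0 < P)
  obtain ⟨inv, hinv⟩ := exists_inv P (D + 1)
  have hPp : 0 < P := by omega
  obtain ⟨q, hq⟩ : ∃ q : ℕ, q = (P ^ ((D + 1) * a)) ^ 4 := ⟨_, rfl⟩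
  obtain ⟨M, hM⟩ : ∃ M : ℕ, M = (P ^ ((D + 1) * a)) ^ 3 := ⟨_, rfl⟩
  have hMq : M ∣ q := by rw [hM, hq]; exact pow_dvd_pow _ (by norm_num)
  rw [← hq, ← hM]
  have hqN : (q : ℤ) = ((P : ℤ) ^ (D + 1)) ^ (4 * a) := by rw [hq]; push_cast; ring
  have hN : (0 : ℤ) < (P : ℤ) ^ (D + 1) := pow_pos hP0 _
  have hdv : ∀ i, i ≤ 4 * a → ((P : ℤ) ^ (D + 1)) ^ i ∣ (q : ℤ) := fun i hi =>
    hqN ▸ pow_dvd_pow _ hi
  have c1 : Cl q 2 fun x y => M ∣ x → M ∣ y := by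
    refine ⟨fun x => if M ∣ x then 1 else 0, fun x => by dsimp only; split_ifs <;> omega, fun x y k => ?_,
      fun x y k hx => ?_⟩
    · simp only [(k.dvd_iff hMq : M ∣ x ↔ M ∣ y)]
    · by_contra c
      simp [hx, c] at k
  have c2 : Cl q (P ^ (D + 1)) fun x y => x ≡ y [MOD P ^ (D + 1)] := by
    refine ⟨fun x => x % P ^ (D + 1), fun x => Nat.mod_lt _ (by positivity), fun x y k => ?_,
      fun x y k => k⟩
    have := hdv 1 (by omega)
    rw [pow_one] at this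
    exact k.of_dvd (by exact_mod_cast this)
  have c3 := Cl.prod (Ico 1 (4 * a)) fun i hi => cl_lev inv hN (D := D + 1) (G := g * P ^ 2)
    (q := q) (i := i) (by omega) (by positivity) (hdv _ (mem_Ico.1 hi).2)
  obtain ⟨F, f1, f2, f3⟩ := c1.mul (c2.mul c3)
  refine ⟨F, fun x => (f1 x).trans_le ?_, f2, fun x k => ?_, fun x y k => (f3 x y k).1,
    fun x y t he h1 h2 => ?_⟩
  · rw [pow_add P (D + 1) (28 * a)]
    refine Nat.mul_le_mul_left _ (Nat.mul_le_mul_left _ ?_)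
    calc _ ≤ (P ^ 7) ^ (Ico 1 (4 * a)).card := by
          refine Nat.pow_le_pow_left ?_ _
          calc _ = C * P ^ 6 := by rw [hC]; ring
            _ ≤ P * P ^ 6 := Nat.mul_le_mul_right _ (by omega)
            _ = P ^ 7 := by ring
      _ ≤ (P ^ 7) ^ (4 * a) := Nat.pow_le_pow_right (by positivity) (by simp)
      _ = P ^ (28 * a) := by ring
  · have := (Nat.modEq_iff_dvd' (Nat.le_succ x)).1 (f3 _ _ k).2.1.symm
    rw [Nat.succ_sub (le_refl x), Nat.sub_self] at this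
    have k1 := Nat.le_of_dvd (by omega) this
    have k2 : P ≤ P ^ (D + 1) := Nat.le_self_pow (by omega) P
    omega
  · obtain ⟨-, a1, a2⟩ := f3 _ _ h1
    obtain ⟨-, b1, b2⟩ := f3 _ _ h2
    have he' : (q : ℤ) ∣ (gq P x + gq P (t + 1) : ℕ) - (gq P y + gq P t : ℕ) := he.dvd
    have key : ∀ i, 1 ≤ i → i ≤ 4 * a → ((P : ℤ) ^ (D + 1)) ^ i ∣ ((x + 1 : ℕ) : ℤ) - (t + 1 : ℕ) ∧
        ((P : ℤ) ^ (D + 1)) ^ i ∣ (y : ℤ) - (t + 1 : ℕ) := by
      intro i hi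
      induction i, hi using Nat.le_induction with
      | base =>
        intro _
        rw [pow_one]
        exact ⟨by exact_mod_cast (a1.add_right 1).symm.dvd, by exact_mod_cast b1.symm.dvd⟩
      | succ i hi ih =>
        intro hi'
        obtain ⟨⟨α, hα⟩, ⟨β, hβ⟩⟩ := ih (by omega)
        have hm : i ∈ Ico 1 (4 * a) := mem_Ico.2 ⟨hi, by omega⟩
        have hab : (P : ℤ) ^ (D + 1) ∣ β * (2 * P * t + 1 + 2 * P) - α * (2 * P * t + 1) := by
          have k := (hdv _ hi').trans he'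
          obtain ⟨j, rfl⟩ := Nat.exists_eq_add_of_le' hi
          set N : ℤ := (P : ℤ) ^ (D + 1) with hNd
          have ex : (x : ℤ) = t + N ^ (j + 1) * α := by push_cast at hα; linarith
          have ey : (y : ℤ) = t + 1 + N ^ (j + 1) * β := by push_cast at hβ; linarith
          have : ((gq P x + gq P (t + 1) : ℕ) : ℤ) - (gq P y + gq P t : ℕ) = N ^ (j + 1) *
              (N * (P * N ^ j * (α ^ 2 - β ^ 2)) -
                (β * (2 * P * t + 1 + 2 * P) - α * (2 * P * t + 1))) := by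
            unfold gq
            push_cast
            rw [ex, ey]
            ring
          rw [this, pow_succ N (j + 1), mul_dvd_mul_iff_left (pow_pos hN _).ne'] at k
          have := (Dvd.intro _ rfl : N ∣ N * (P * N ^ j * (α ^ 2 - β ^ 2))).sub k
          rwa [sub_sub_cancel] at this
        obtain ⟨k1, k2⟩ := step (Del := Del) (G := g * P ^ 2) hP0 hinv
          ⟨1, -C, by rw [hP]; push_cast; ring⟩ (by rw [hDel]; push_cast; ring)
          (by rw [hg]; push_cast; ring) hi (sub_eq_iff_eq_add'.1 hα) (sub_eq_iff_eq_add'.1 hβ) hab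
          (a2 i hm) (b2 i hm)
        rw [hα, hβ, pow_succ _ i]
        exact ⟨mul_dvd_mul_left _ k1, mul_dvd_mul_left _ k2⟩
    obtain ⟨k1, k2⟩ := key (4 * a) (by omega) le_rfl
    rw [← hqN] at k1 k2
    refine (Nat.modEq_iff_dvd).2 ?_
    have := k1.sub k2
    rwa [sub_sub_sub_cancel_right] at this

end Pool.Agent.MP_d19b84_nt.Logd

end MrgPart1

-- ======== part 2: formerly Pool.Agent.MP_d19b84_nt.LogLocal
section MrgPart2

/-!
PROJECT LOGD: clean blocks, repair blocks and their concatenation.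
-/

set_option autoImplicit false

namespace Pool.Agent.MP_d19b84_nt.Logd

open Finset

namespace LocalM

variable {P q M R K : ℕ} {F : ℕ → ℕ} {NB SB u u' : ℕ → Prop} {y y' : ℕ → ℕ} {a b c : ℕ}

theorem seg_congr (hab : a ≤ b) (h : Seg P q M R K F NB SB u y a b)
    (hu : ∀ t, a ≤ t → t < b → (u' t ↔ u t)) (hy : ∀ τ, a ≤ τ → τ ≤ b → y' τ = y τ) :
    Seg P q M R K F NB SB u' y' a b := by
  have hW : ∀ τ, τ ≤ b → Ws P u' a τ = Ws P u a τ := fun τ k =>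
    Ws_congr P fun t h1 h2 => hu t h1 (h2.trans_le k)
  refine ⟨(hy a le_rfl hab).trans h.y0, (hy b hab le_rfl).trans h.y1, ?_, fun τ h1 h2 => ?_,
    fun t h1 h2 h3 => ?_, fun t h1 h2 h3 => ?_, fun j h1 h2 h3 => ?_, ?_, ?_⟩
  · rw [hW b le_rfl]
    exact h.w1
  · rw [hy τ h1 h2]
    exact h.lt τ h1 h2
  · rw [hy t h1 h2.le, hy (t + 1) (by omega) h2]
    exact h.keep t h1 h2 fun k => h3 ((hu t h1 h2).2 k)
  · rw [hy t h1 h2.le, hy (t + 1) (by omega) h2]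
    exact h.use t h1 h2 ((hu t h1 h2).1 h3)
  · rw [hy j h1 h2] at h3 ⊢
    obtain ⟨τ, k1, k2, k3⟩ := h.rep j h1 h2 h3
    refine ⟨τ, k1, k2, ?_⟩
    rwa [hW τ k2, hW j h2]
  · exact (cn_mono fun t h1 h2 k k' => k ((hu t h1 h2).2 k')).trans h.emp
  · refine (cn_mono fun t h1 h2 k => ?_).trans h.sp
    exact ⟨(hu t h1 h2).1 k.1, hy (t + 1) (by omega) h2 ▸ k.2⟩

theorem seg_trans (hab : a ≤ b) (hbc : b ≤ c) (h : Seg P q M R K F NB SB u y a b)
    (h' : Seg P q M R K F NB SB u y b c) : Seg P q M R K F NB SB u y a c := by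
  have hW : ∀ τ, b ≤ τ → Ws P u b τ + gq P b ≡ gq P τ [MOD q] →
      Ws P u a τ + gq P a ≡ gq P τ [MOD q] := fun τ k k' => by
    rw [Ws_add P u hab k, add_comm (Ws P u a b), add_assoc]
    exact (h.w1.add_left _).trans k'
  refine ⟨h.y0, h'.y1, hW c hbc h'.w1, fun τ h1 h2 => ?_, fun t h1 h2 h3 => ?_,
    fun t h1 h2 h3 => ?_, fun j h1 h2 h3 => ?_, ?_, ?_⟩
  · rcases le_total τ b with k | k
    exacts [h.lt τ h1 k, h'.lt τ k h2]
  · rcases lt_or_ge t b with k | k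
    exacts [h.keep t h1 k h3, h'.keep t k h2 h3]
  · rcases lt_or_ge t b with k | k
    exacts [h.use t h1 k h3, h'.use t k h2 h3]
  · rcases le_total j b with k | k
    · obtain ⟨τ, k1, k2, k3⟩ := h.rep j h1 k h3
      exact ⟨τ, k1, k2.trans hbc, k3⟩
    · obtain ⟨τ, k1, k2, k3, k4, k5⟩ := h'.rep j k h2 h3
      refine ⟨τ, hab.trans k1, k2, ?_, k4, hW τ k1 k5⟩
      rw [Ws_add P u hab k1, Ws_add P u hab k, k3]
  · rw [cn_add _ hab hbc, cn_add NB hab hbc, mul_add]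
    exact add_le_add h.emp h'.emp
  · rw [cn_add _ hab hbc, cn_add NB hab hbc, mul_add]
    exact add_le_add h.sp h'.sp

theorem seg_concat (hab : a ≤ b) (hbc : b ≤ c) (h : Seg P q M R K F NB SB u y a b)
    (h' : Seg P q M R K F NB SB u' y' b c) : ∃ u y, Seg P q M R K F NB SB u y a c := by
  refine ⟨fun t => (t < b ∧ u t) ∨ (b ≤ t ∧ u' t), fun τ => if τ ≤ b then y τ else y' τ,
    seg_trans hab hbc (seg_congr hab h (fun t _ k => ?_) fun τ _ k => if_pos k)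
      (seg_congr hbc h' (fun t k _ => ?_) fun τ k _ => ?_)⟩
  · exact ⟨fun e => e.elim And.right fun e => absurd e.1 (by omega), fun e => Or.inl ⟨k, e⟩⟩
  · exact ⟨fun e => e.elim (fun e => absurd e.1 (by omega)) And.right, fun e => Or.inr ⟨k, e⟩⟩
  · by_cases e : τ ≤ b
    · rw [if_pos e, le_antisymm e k, h.y1, h'.y0]
    · exact if_neg e

theorem Ws_true (P : ℕ) (h : a ≤ b) : Ws P (fun _ => True) a b + gq P a = gq P b := by
  induction b, h using Nat.le_induction with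
  | base => rw [Ws_self P _ le_rfl, zero_add]
  | succ b h ih =>
    rw [Ws_add P _ h (Nat.le_succ b), Ws_one_pos P trivial, gq_succ, ← ih]
    ring

theorem clean (hF : Col P q M K F) (hab : a ≤ b) (hN : ∀ t, a ≤ t → t < b → ¬ NB t) :
    Seg P q M R K F NB SB (fun _ => True) F a b := by
  refine ⟨rfl, rfl, by rw [Ws_true P hab], fun τ _ _ => (hF.lt τ).trans (by omega),
    fun t _ _ k => absurd trivial k, fun t h1 h2 _ => ⟨hF.ne t, Or.inl ⟨hN t h1 h2, rfl, rfl⟩⟩,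
    fun j h1 h2 _ => ⟨j, h1, h2, rfl, rfl, by rw [Ws_true P h1]⟩, ?_, ?_⟩
  · rw [cn_zero fun t _ _ k => k trivial]
    exact Nat.zero_le _
  · rw [cn_zero fun t _ _ k => absurd (hF.lt (t + 1)) (not_lt.2 k.2)]
    exact Nat.zero_le _

theorem pair {e T : ℕ} (hM : 20 < M) {Z : Finset ℕ} (hZ : Z.card < M / 5) (h1 : 2 * e + M / 2 ≤ T)
    (h2 : T ≤ 2 * e + M / 2 + M) :
    ∃ v w, v < w ∧ e ≤ v ∧ w < e + M ∧ v ∉ Z ∧ w ∉ Z ∧ v + w = T := by
  by_contra hc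
  have : Icc 1 (M / 5) ⊆ Z.image fun z => if z < T / 2 then T / 2 - z else z - (T - T / 2) := by
    intro i hi
    rw [mem_Icc] at hi
    by_cases k : T / 2 - i ∈ Z
    · exact mem_image.2 ⟨_, k, by rw [if_pos (by omega)]; omega⟩
    · by_cases k' : T - T / 2 + i ∈ Z
      · exact mem_image.2 ⟨_, k', by rw [if_neg (by omega)]; omega⟩
      · exact absurd ⟨_, _, by omega, by omega, by omega, k, k', by omega⟩ hc
  have := (card_le_card this).trans card_image_le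
  rw [Nat.card_Icc] at this
  omega

theorem sets {e : ℕ} (hM : 20 < M) {Z : Finset ℕ} (k : ℕ) (hZ : Z.card + 2 * k < M / 5) :
    ∀ T, k * (2 * e + M / 2) ≤ T → T ≤ k * (2 * e + M / 2) + k * M →
      ∃ V : Finset ℕ, (∀ v ∈ V, e ≤ v ∧ v < e + M ∧ v ∉ Z) ∧ V.card = 2 * k ∧ ∑ v ∈ V, v = T := by
  induction k with
  | zero => exact fun T _ h => ⟨∅, by simp, rfl, by simp at h ⊢; omega⟩
  | succ k ih =>
    intro T h1 h2
    obtain ⟨lo, hlo⟩ : ∃ lo, lo = 2 * e + M / 2 := ⟨_, rfl⟩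
    rw [← hlo] at ih h1 h2
    rw [add_mul, one_mul] at h1 h2
    rw [add_mul, one_mul] at h2
    obtain ⟨V, v1, v2, v3⟩ := ih (by omega) (T - min (lo + M) (T - k * lo)) (by omega) (by omega)
    obtain ⟨v, w, a1, a2, a3, a4, a5, a6⟩ := pair (e := e) (T := min (lo + M) (T - k * lo)) hM
      (Z := Z ∪ V) ((card_union_le _ _).trans_lt (by omega)) (by omega) (by omega)
    rw [mem_union, not_or] at a4 a5
    have n1 : v ∉ insert w V := by
      rw [mem_insert, not_or]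
      exact ⟨a1.ne, a4.2⟩
    refine ⟨insert v (insert w V), fun x hx => ?_, ?_, ?_⟩
    · rcases mem_insert.1 hx with rfl | hx
      · exact ⟨a2, by omega, a4.1⟩
      · rcases mem_insert.1 hx with rfl | hx
        · exact ⟨by omega, a3, a5.1⟩
        · exact v1 x hx
    · rw [card_insert_of_notMem n1, card_insert_of_notMem a5.2, v2]
      ring
    · rw [sum_insert n1, sum_insert a5.2, v3]
      omega

theorem half (hq : Odd q) (c d : ℕ) : ∃ r < q, 2 * r + c ≡ d [MOD q] := by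
  obtain ⟨k, rfl⟩ := hq
  refine ⟨(d + 2 * k * c) * (k + 1) % (2 * k + 1), Nat.mod_lt _ (by omega), ?_⟩
  refine (((Nat.mod_modEq _ _).mul_left 2).add_right c).trans ?_
  rw [show 2 * ((d + 2 * k * c) * (k + 1)) + c = d + (2 * k + 1) * (d + 2 * k * c + c) by ring]
  exact Nat.add_mul_mod_self_left _ _ _

theorem repair {e : ℕ} (hF : Col P q M K F) (hR : 1 ≤ R) (he : M ∣ e) (hN : 0 < cn NB e (e + M))
    {V : Finset ℕ} (v1 : ∀ v ∈ V, e ≤ v ∧ v < e + M ∧ ¬ SB v) (v2 : V.card = 2 * R)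
    (v3 : ∑ v ∈ V, wv P v + gq P e ≡ gq P (e + M) [MOD q]) :
    ∃ u y, Seg P q M R K F NB SB u y e (e + M) := by
  have f : ∀ d : DecidablePred fun t => t ∈ V, @filter _ _ d (Ico e (e + M)) = V := fun d => by
    ext t
    simp only [mem_filter, mem_Ico]
    exact ⟨And.right, fun k => ⟨⟨(v1 t k).1, (v1 t k).2.1⟩, k⟩⟩
  have c1 : cn (fun t => t ∈ V) e (e + M) = 2 * R := by
    unfold cn
    rw [f, v2]
  have w1 : Ws P (fun t => t ∈ V) e (e + M) + gq P e ≡ gq P (e + M) [MOD q] := by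
    unfold Ws
    rw [f]
    exact v3
  obtain ⟨u, hu⟩ : ∃ u : ℕ → Prop, u = fun t => t ∈ V := ⟨_, rfl⟩
  rw [← hu] at c1 w1
  have c0 : cn u e e = 0 := cn_self u le_rfl
  have l0 := hF.lt e
  have l1 := hF.lt (e + M)
  refine ⟨u, fun τ => if cn u e τ = 0 then F e else if cn u e τ = 2 * R then F (e + M)
    else K + cn u e τ % 2, if_pos c0, ?_, w1, fun τ _ _ => ?_, fun t h1 _ h3 => ?_,
    fun t h1 h2 h3 => ?_, fun j h1 h2 h3 => ?_, ?_, ?_⟩
  · rw [if_neg (by omega), if_pos c1]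
  · split_ifs <;> omega
  · rw [cn_add u h1 (Nat.le_succ t), cn_one_neg h3, add_zero]
  · have a1 := cn_add u h1 (Nat.le_add_right t 1)
    have a2 := cn_add u (show e ≤ t + 1 by omega) h2
    rw [cn_one_pos h3] at a1
    refine ⟨?_, Or.inr ⟨(v1 t (by rwa [hu] at h3)).2.2, ?_⟩⟩
    · split_ifs <;> omega
    · by_cases k : cn u e t = 0
      · exact Or.inr ⟨e, he, if_pos k⟩
      · rw [if_neg k, if_neg (by omega)]
        exact Or.inl (Nat.le_add_right _ _)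
  · by_cases k : cn u e j = 0
    · exact ⟨e, le_rfl, by omega, by rw [Ws_self P u le_rfl, Ws_zero P k], if_pos k,
        by rw [Ws_self P u le_rfl, zero_add]⟩
    · by_cases k' : cn u e j = 2 * R
      · have a2 := cn_add u h1 h2
        refine ⟨e + M, by omega, le_rfl, ?_, by rw [if_neg k, if_pos k'], w1⟩
        rw [Ws_add P u h1 h2, Ws_zero P (show cn u j (e + M) = 0 by omega), add_zero]
      · rw [if_neg k, if_neg k'] at h3
        omega
  · exact (cn_le _ _ _).trans (by rw [Nat.add_sub_cancel_left]; exact Nat.le_mul_of_pos_right _ hN)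
  · exact (cn_mono fun t _ _ k => k.1).trans (c1.le.trans (Nat.le_mul_of_pos_right _ hN))

theorem block {e : ℕ} (ho : Odd R) (hP : P ∣ R) (hR : 10 ≤ R) (hF : Col P (R ^ 4) (R ^ 3) K F)
    (he : R ^ 3 ∣ e) (hS : 8 * cn SB e (e + R ^ 3) < R ^ 3) :
    ∃ u y, Seg P (R ^ 4) (R ^ 3) R K F NB SB u y e (e + R ^ 3) := by
  classical
  by_cases hN : ∀ t, e ≤ t → t < e + R ^ 3 → ¬ NB t
  · exact ⟨_, _, clean hF (Nat.le_add_right _ _) hN⟩
  simp only [not_forall, not_not] at hN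
  obtain ⟨t, t1, t2, t3⟩ := hN
  obtain ⟨R', hR'⟩ := hP
  have m1 : 100 * R ≤ R ^ 3 := by
    rw [pow_succ, pow_two]
    exact Nat.mul_le_mul_right _ (Nat.mul_le_mul hR hR)
  obtain ⟨r, r1, r2⟩ := half (ho.pow (n := 4)) (2 * (R * (2 * e + R ^ 3 / 2)) + 2 * R + 2 * R')
    (2 * e * R ^ 3 + (R ^ 3) ^ 2 + R ^ 2 * R')
  unfold cn at hS
  obtain ⟨V, v1, v2, v3⟩ := sets (M := R ^ 3) (e := e) (by omega)
    (Z := (Ico e (e + R ^ 3)).filter SB) R (by omega) (R * (2 * e + R ^ 3 / 2) + r) (by omega)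
    (by rw [← pow_succ']; exact Nat.add_le_add_left r1.le _)
  refine repair hF (by omega) he (cn_pos t1 t2 t3) (V := V) (fun v hv => ?_) v2 ?_
  · obtain ⟨a1, a2, a3⟩ := v1 v hv
    exact ⟨a1, a2, fun k => a3 (mem_filter.2 ⟨mem_Ico.2 ⟨a1, a2⟩, k⟩)⟩
  · have s1 : ∑ v ∈ V, wv P v = 2 * P * ∑ v ∈ V, v + (P + 1) * V.card := by
      rw [mul_sum, card_eq_sum_ones, mul_sum, ← sum_add_distrib]
      exact sum_congr rfl fun v _ => by unfold wv; ring
    have s2 : ∑ v ∈ V, wv P v =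
        P * (2 * r + (2 * (R * (2 * e + R ^ 3 / 2)) + 2 * R + 2 * R')) := by
      rw [s1, v2, v3, mul_add P (2 * r), mul_add P _ (2 * R'), mul_left_comm P 2 R', ← hR']
      ring
    have s3 : gq P (e + R ^ 3) =
        P * (2 * e * R ^ 3 + (R ^ 3) ^ 2 + R ^ 2 * R') + gq P e := by
      rw [mul_add P _ (R ^ 2 * R'), mul_left_comm P (R ^ 2) R', ← hR']
      unfold gq
      ring
    rw [s2, s3]
    exact (r2.mul_left P).add_right _

end LocalM

open LocalM in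
theorem localS : LocalStmt := by
  intro P R K s F NB SB ho hP hR hF hs hS
  have key : ∀ i ≤ R, ∃ u y, Seg P (R ^ 4) (R ^ 3) R K F NB SB u y s (s + i * R ^ 3) := by
    intro i hi
    induction i with
    | zero => exact ⟨_, _, clean hF (Nat.le_add_right _ _) fun t h1 h2 => by omega⟩
    | succ i ih =>
      obtain ⟨u, y, h⟩ := ih (by omega)
      have e : s + (i + 1) * R ^ 3 = s + i * R ^ 3 + R ^ 3 := by ring
      obtain ⟨u', y', h'⟩ := block (NB := NB) ho hP hR hF (hs.add (dvd_mul_left _ i))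
        (e ▸ hS i hi)
      rw [e]
      exact seg_concat (Nat.le_add_right _ _) (Nat.le_add_right _ _) h h'
  have := key R le_rfl
  rwa [← pow_succ'] at this

end Pool.Agent.MP_d19b84_nt.Logd

end MrgPart2

-- ======== part 3: formerly Pool.Agent.MP_d19b84_nt.LogRun
section MrgPart3

/-!
PROJECT LOGD: the run over super-blocks and its structural facts.
-/

set_option autoImplicit false

namespace Pool.Agent.MP_d19b84_nt.Logd

open Finset Pool.Agent.MP_d19b84_nt.H59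

/-- Parameters of an epoch. -/
structure Par where
  P : ℕ
  R : ℕ
  K : ℕ
  N : ℕ
  D : ℕ
  F : ℕ → ℕ

namespace Par

variable (π : Par)

def q : ℕ := π.R ^ 4

def M : ℕ := π.R ^ 3

def N1 : ℕ := π.N + π.q

/-- Good times: boundaries and times inside a nearly full super-block. -/
def Gd (u : ℕ → Prop) (s τ : ℕ) : Prop :=
  π.q ∣ τ ∨ ∃ e, π.q ∣ e ∧ e < τ ∧ τ < e + π.q ∧ e + π.q ≤ s ∧
    4 * cn (fun t => ¬ u t) e (e + π.q) ≤ π.q

def oB (u : ℕ → Prop) (s t : ℕ) : Prop :=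
  ∃ k, π.N1 ≤ k ∧ k ≤ s ∧ wv π.P π.N + Ws π.P u π.N1 k ≤ wv π.P t + 1 ∧
    wv π.P t ≤ wv π.P π.N + Ws π.P u π.N1 k + π.D + 1

def n1 (u : ℕ → Prop) (s t : ℕ) : Prop :=
  ∃ j k, π.N1 ≤ j ∧ j < k ∧ k ≤ s ∧ k ≤ t ∧ π.Gd u s j ∧ π.Gd u s k ∧ k ≡ j + 1 [MOD π.q] ∧
    Ws π.P u j k = wv π.P t

def Mk (u : ℕ → Prop) (y : ℕ → ℕ) (j : ℕ) : Prop :=
  π.M ∣ j ∨ ∃ v, j = v + 1 ∧ π.N1 ≤ v ∧ u v ∧ π.K ≤ y (v + 1)

def s1 (u : ℕ → Prop) (y : ℕ → ℕ) (s t : ℕ) : Prop :=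
  ∃ j k, π.N1 ≤ j ∧ j < k ∧ k ≤ s ∧ π.Mk u y j ∧ Ws π.P u j k = wv π.P t

def nB (u : ℕ → Prop) (s t : ℕ) : Prop := π.oB u s t ∨ π.n1 u s t

def sB (u : ℕ → Prop) (y : ℕ → ℕ) (s t : ℕ) : Prop := π.oB u s t ∨ π.s1 u y s t

/-- The super-block starting at `s` is used or skipped. -/
def Sup (u : ℕ → Prop) (y : ℕ → ℕ) (s : ℕ) : Prop :=
  (Seg π.P π.q π.M π.R π.K π.F (π.nB u s) (π.sB u y s) u y s (s + π.q) ∧
    4 * π.M * cn (π.nB u s) s (s + π.q) ≤ π.q) ∨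
  ((∀ t, s ≤ t → t < s + π.q → ¬ u t) ∧ (∀ τ, s ≤ τ → τ ≤ s + π.q → y τ = π.F s) ∧
    π.q ≤ 4 * π.M * cn (π.nB u s) s (s + π.q) + 8 * π.R * cn (π.sB u y s) s (s + π.q))

structure Ok : Prop where
  P3 : 3 ≤ π.P
  odd : Odd π.R
  dvd : π.P ∣ π.R
  R10 : 10 ≤ π.R
  col : Col π.P π.q π.M π.K π.F
  qN : π.q ∣ π.N
  big : 16 * π.q * (π.D + 3) ≤ π.N

variable {π} {u u' : ℕ → Prop} {y y' : ℕ → ℕ} {s s' t τ : ℕ}

theorem Gd.lift (hs : s ≤ s') (hu : ∀ t < s, (u t ↔ u' t)) (h : π.Gd u s τ) : π.Gd u' s' τ := by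
  rcases h with h | ⟨e, h1, h2, h3, h4, h5⟩
  · exact Or.inl h
  · refine Or.inr ⟨e, h1, h2, h3, h4.trans hs, ?_⟩
    rwa [cn_congr (u := fun t => ¬ u' t) (u' := fun t => ¬ u t)
      fun t _ ht => not_congr (hu t (by omega)).symm]

theorem oB.lift (hs : s ≤ s') (hu : ∀ t < s, (u t ↔ u' t)) (h : π.oB u s t) : π.oB u' s' t := by
  obtain ⟨k, h1, h2, h3⟩ := h
  refine ⟨k, h1, h2.trans hs, ?_⟩
  rwa [← Ws_congr π.P (u := u) fun t _ ht => hu t (by omega)]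

theorem nB.lift (hs : s ≤ s') (hu : ∀ t < s, (u t ↔ u' t)) (h : π.nB u s t) : π.nB u' s' t := by
  rcases h with h | ⟨j, k, h1, h2, h3, h4, h5, h6, h7, h8⟩
  · exact Or.inl (h.lift hs hu)
  · refine Or.inr ⟨j, k, h1, h2, h3.trans hs, h4, h5.lift hs hu, h6.lift hs hu, h7, ?_⟩
    rwa [← Ws_congr π.P (u := u) fun t _ ht => hu t (by omega)]

theorem sB.lift (hs : s ≤ s') (hu : ∀ t < s, (u t ↔ u' t)) (hy : ∀ τ ≤ s, y τ = y' τ)
    (h : π.sB u y s t) : π.sB u' y' s' t := by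
  rcases h with h | ⟨j, k, h1, h2, h3, h4, h5⟩
  · exact Or.inl (h.lift hs hu)
  · refine Or.inr ⟨j, k, h1, h2, h3.trans hs, ?_, ?_⟩
    · rcases h4 with h | ⟨v, e1, e2, e3, e4⟩
      · exact Or.inl h
      · exact Or.inr ⟨v, e1, e2, (hu v (by omega)).1 e3, by rwa [← hy _ (by omega)]⟩
    · rwa [← Ws_congr π.P (u := u) fun t _ ht => hu t (by omega)]

theorem nB_eq (hu : ∀ t < s, (u t ↔ u' t)) : π.nB u s = π.nB u' s :=
  funext fun _ => propext ⟨nB.lift le_rfl hu, nB.lift le_rfl fun t ht => (hu t ht).symm⟩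

theorem sB_eq (hu : ∀ t < s, (u t ↔ u' t)) (hy : ∀ τ ≤ s, y τ = y' τ) :
    π.sB u y s = π.sB u' y' s :=
  funext fun _ => propext ⟨sB.lift le_rfl hu hy,
    sB.lift le_rfl (fun t ht => (hu t ht).symm) fun τ hτ => (hy τ hτ).symm⟩

end Par

theorem Seg.congr {P q M R K : ℕ} {F : ℕ → ℕ} {NB SB u u' : ℕ → Prop} {y y' : ℕ → ℕ} {a b : ℕ}
    (hab : a ≤ b) (hu : ∀ t, a ≤ t → t < b → (u t ↔ u' t)) (hy : ∀ τ, a ≤ τ → τ ≤ b → y τ = y' τ)
    (h : Seg P q M R K F NB SB u y a b) : Seg P q M R K F NB SB u' y' a b := by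
  have hW : ∀ τ ≤ b, Ws P u' a τ = Ws P u a τ := fun τ hτ =>
    Ws_congr P fun t h1 h2 => (hu t h1 (by omega)).symm
  refine ⟨by rw [← hy a le_rfl hab, h.y0], by rw [← hy b hab le_rfl, h.y1],
    by rw [hW b le_rfl]; exact h.w1, fun τ h1 h2 => by rw [← hy τ h1 h2]; exact h.lt τ h1 h2,
    fun t h1 h2 h3 => ?_, fun t h1 h2 h3 => ?_, fun j h1 h2 h3 => ?_, ?_, ?_⟩
  · rw [← hy t h1 h2.le, ← hy (t + 1) (by omega) h2]
    exact h.keep t h1 h2 fun h4 => h3 ((hu t h1 h2).1 h4)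
  · rw [← hy t h1 h2.le, ← hy (t + 1) (by omega) h2]
    exact h.use t h1 h2 ((hu t h1 h2).2 h3)
  · rw [← hy j h1 h2] at h3 ⊢
    obtain ⟨τ, a1, a2, a3, a4, a5⟩ := h.rep j h1 h2 h3
    exact ⟨τ, a1, a2, by rw [hW τ a2, hW j h2, a3], a4, by rw [hW τ a2]; exact a5⟩
  · rw [cn_congr (u := fun t => ¬ u' t) (u' := fun t => ¬ u t)
      fun t h1 h2 => not_congr (hu t h1 h2).symm]
    exact h.emp
  · rw [cn_congr (u := fun t => u' t ∧ K ≤ y' (t + 1)) (u' := fun t => u t ∧ K ≤ y (t + 1))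
      fun t h1 h2 => by rw [hu t h1 h2, hy (t + 1) (by omega) h2]]
    exact h.sp

namespace Par

variable {π : Par} {u u' : ℕ → Prop} {y y' : ℕ → ℕ} {s s' t τ T : ℕ}

theorem Sup.congr (hu : ∀ t < s + π.q, (u t ↔ u' t)) (hy : ∀ τ ≤ s + π.q, y τ = y' τ)
    (h : π.Sup u y s) : π.Sup u' y' s := by
  have e1 : π.nB u s = π.nB u' s := nB_eq fun t ht => hu t (by omega)
  have e2 : π.sB u y s = π.sB u' y' s :=
    sB_eq (fun t ht => hu t (by omega)) fun τ hτ => hy τ (by omega)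
  unfold Sup at h ⊢
  rw [← e1, ← e2]
  rcases h with ⟨h1, h2⟩ | ⟨h1, h2, h3⟩
  · exact Or.inl ⟨h1.congr (by omega) (fun t _ ht => hu t ht) fun τ _ hτ => hy τ hτ, h2⟩
  · exact Or.inr ⟨fun t a b c => h1 t a b ((hu t b).2 c),
      fun τ a b => by rw [← hy τ b]; exact h2 τ a b, h3⟩

theorem Ok.q_eq (_H : π.Ok) : π.q = π.R * π.M := by unfold q M; ring

theorem Ok.q_pos (H : π.Ok) : 0 < π.q := pow_pos (by have := H.R10; omega) 4

theorem Ok.M_pos (H : π.Ok) : 0 < π.M := pow_pos (by have := H.R10; omega) 3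

theorem Ok.M_dvd (H : π.Ok) : π.M ∣ π.q := by rw [H.q_eq]; exact Dvd.intro_left _ rfl

theorem Ok.qN1 (H : π.Ok) : π.q ∣ π.N1 := dvd_add H.qN dvd_rfl

theorem Ok.q48 (H : π.Ok) : 48 * π.q ≤ π.N := by have := H.big; nlinarith

theorem Ok.DN (H : π.Ok) : π.D < π.N := by have := H.big; have := H.q_pos; nlinarith

theorem step (hL : LocalStmt) (H : π.Ok) (hs : π.q ∣ s) (hy : y s = π.F s) (u : ℕ → Prop) :
    ∃ (u' : ℕ → Prop) (y' : ℕ → ℕ), (∀ t < s, (u t ↔ u' t)) ∧ (∀ τ ≤ s, y τ = y' τ) ∧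
      π.Sup u' y' s ∧ y' (s + π.q) = π.F (s + π.q) := by
  have hq := H.q_pos
  by_cases hc : 4 * π.M * cn (π.nB u s) s (s + π.q) ≤ π.q ∧
      ∀ i < π.R, 8 * cn (π.sB u y s) (s + i * π.R ^ 3) (s + (i + 1) * π.R ^ 3) < π.R ^ 3
  · obtain ⟨u1, y1, h1⟩ := hL π.P π.R π.K s π.F (π.nB u s) (π.sB u y s) H.odd H.dvd H.R10 H.col
      (H.M_dvd.trans hs) hc.2
    have hu : ∀ t < s, (u t ↔ if t < s then u t else u1 t) := fun t ht => by rw [if_pos ht]
    have hy' : ∀ τ ≤ s, y τ = if τ ≤ s then y τ else y1 τ := fun τ hτ => by rw [if_pos hτ]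
    have h2 : Seg π.P π.q π.M π.R π.K π.F (π.nB u s) (π.sB u y s)
        (fun t => if t < s then u t else u1 t) (fun τ => if τ ≤ s then y τ else y1 τ)
        s (s + π.q) := by
      refine Seg.congr (by omega) (fun t a _ => by rw [if_neg (by omega)]) (fun τ a _ => ?_) h1
      rcases a.eq_or_lt with rfl | a
      · rw [if_pos le_rfl, hy, h1.y0]
      · rw [if_neg (by omega)]
    refine ⟨_, _, hu, hy', Or.inl ?_, h2.y1⟩
    rw [← nB_eq hu, ← sB_eq hu hy']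
    exact ⟨h2, hc.1⟩
  · have hu : ∀ t < s, (u t ↔ t < s ∧ u t) := fun t ht => by simp [ht]
    have hy' : ∀ τ ≤ s, y τ = if τ ≤ s then y τ else π.F s := fun τ hτ => by rw [if_pos hτ]
    refine ⟨_, _, hu, hy', Or.inr ⟨fun t a _ c => by omega, fun τ a _ => ?_, ?_⟩, ?_⟩
    · beta_reduce
      rcases a.eq_or_lt with rfl | a
      · rw [if_pos le_rfl, hy]
      · rw [if_neg (by omega)]
    · rw [← nB_eq hu, ← sB_eq hu hy']
      rw [not_and_or] at hc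
      rcases hc with hc | hc
      · omega
      · push Not at hc
        obtain ⟨i, hi, hc⟩ := hc
        have e1 : s + (i + 1) * π.R ^ 3 ≤ s + π.q := by
          have := Nat.mul_le_mul_right (π.R ^ 3) (show i + 1 ≤ π.R from hi)
          rw [H.q_eq]; unfold M; omega
        have e2 : s + i * π.R ^ 3 ≤ s + (i + 1) * π.R ^ 3 := by nlinarith [Nat.zero_le (π.R ^ 3)]
        have e3 := cn_add (π.sB u y s) (Nat.le_add_right s _) (e2.trans e1)
        have e4 := cn_add (π.sB u y s) e2 e1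
        have e5 : π.R ^ 3 ≤ 8 * cn (π.sB u y s) s (s + π.q) := by omega
        have e6 := Nat.mul_le_mul_left π.R e5
        have e7 := H.q_eq
        unfold M at e7
        nlinarith [Nat.zero_le (4 * π.M * cn (π.nB u s) s (s + π.q))]
    · simp only [if_neg (show ¬ s + π.q ≤ s by omega)]
      exact H.col.per _ _ (by simp [Nat.ModEq])

/-- The run up to time `T`. -/
structure Run (π : Par) (u : ℕ → Prop) (y : ℕ → ℕ) (T : ℕ) : Prop where
  y0 : y π.N1 = π.F π.N1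
  sup : ∀ s, π.q ∣ s → π.N1 ≤ s → s + π.q ≤ T → π.Sup u y s

theorem lt_dvd {q a b : ℕ} (ha : q ∣ a) (hb : q ∣ b) (h : a < b) : a + q ≤ b := by
  obtain ⟨a, rfl⟩ := ha
  obtain ⟨b, rfl⟩ := hb
  have := Nat.mul_le_mul_left q (show a + 1 ≤ b from Nat.lt_of_mul_lt_mul_left h)
  nlinarith

theorem exists_run (hL : LocalStmt) (H : π.Ok) (b : ℕ) : ∃ u y, π.Run u y (π.N1 + b * π.q) ∧
    y (π.N1 + b * π.q) = π.F (π.N1 + b * π.q) := by
  have hq := H.q_pos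
  induction b with
  | zero => exact ⟨fun _ => False, π.F, ⟨rfl, fun s _ h1 h2 => by omega⟩, rfl⟩
  | succ b ih =>
    obtain ⟨u, y, h1, h2⟩ := ih
    have hd : π.q ∣ π.N1 + b * π.q := dvd_add H.qN1 (Dvd.intro_left _ rfl)
    obtain ⟨u', y', a1, a2, a3, a4⟩ := step hL H hd h2 u
    have e : π.N1 + (b + 1) * π.q = π.N1 + b * π.q + π.q := by ring
    rw [e]
    refine ⟨u', y', ⟨by rw [← a2 _ (Nat.le_add_right _ _), h1.y0], fun s b1 b2 b3 => ?_⟩, a4⟩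
    rcases (show s ≤ π.N1 + b * π.q by omega).eq_or_lt with rfl | hlt
    · exact a3
    · have := lt_dvd b1 hd hlt
      exact (h1.sup s b1 b2 this).congr (fun t ht => a1 t (by omega)) fun τ hτ => a2 τ (by omega)

theorem gq_per (P : ℕ) {q a b : ℕ} (h : a ≡ b [MOD q]) : gq P a ≡ gq P b [MOD q] :=
  ((h.pow 2).mul_left P).add h

theorem blockOf (H : π.Ok) (hT : π.q ∣ T) (h1 : π.N1 ≤ t) (h2 : t < T) :
    ∃ s, π.q ∣ s ∧ π.N1 ≤ s ∧ s ≤ t ∧ t < s + π.q ∧ s + π.q ≤ T := by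
  have hq := H.q_pos
  have a1 : π.q ∣ π.q * (t / π.q) := Dvd.intro _ rfl
  have a2 := Nat.div_add_mod t π.q
  have a3 := Nat.mod_lt t hq
  refine ⟨_, a1, ?_, by omega, by omega, lt_dvd a1 hT (by omega)⟩
  by_contra hc
  have := lt_dvd a1 H.qN1 (not_le.1 hc)
  omega

/-- Induction over boundaries. -/
theorem bd_ind (_H : π.Ok) {a : ℕ} (ha : π.q ∣ a) {p : ℕ → Prop} (h0 : p a)
    (hs : ∀ s, π.q ∣ s → a ≤ s → s + π.q ≤ T → p s → p (s + π.q)) :
    ∀ s, π.q ∣ s → a ≤ s → s ≤ T → p s := by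
  have key : ∀ b, a + b * π.q ≤ T → p (a + b * π.q) := by
    intro b
    induction b with
    | zero => intro _; simpa using h0
    | succ b ih =>
      intro h
      have e : a + (b + 1) * π.q = a + b * π.q + π.q := by ring
      rw [e] at h ⊢
      exact hs _ (dvd_add ha (Dvd.intro_left _ rfl)) (Nat.le_add_right _ _) h (ih (by omega))
  intro s h1 h2 h3
  obtain ⟨b, hb⟩ := (Nat.dvd_sub h1 ha)
  have e : s = a + b * π.q := by rw [mul_comm]; omega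
  rw [e] at h3 ⊢
  exact key b h3

theorem Run.bd (H : π.Ok) (hR : π.Run u y T) : ∀ s, π.q ∣ s → π.N1 ≤ s → s ≤ T →
    y s = π.F s ∧ Ws π.P u π.N1 s + gq π.P π.N1 ≡ gq π.P s [MOD π.q] := by
  refine bd_ind H H.qN1 ⟨hR.y0, by rw [Ws_self _ _ le_rfl, zero_add]⟩ fun s h1 h2 h3 ih => ?_
  have hp : s ≡ s + π.q [MOD π.q] := by simp [Nat.ModEq]
  rw [Ws_add π.P u h2 (Nat.le_add_right s π.q)]
  rcases hR.sup s h1 h2 h3 with ⟨h, _⟩ | ⟨a1, a2, _⟩
  · refine ⟨h.y1, Nat.ModEq.trans ?_ h.w1⟩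
    rw [add_right_comm, add_comm]
    exact ih.2.add_left _
  · rw [Ws_zero π.P (cn_zero a1), add_zero, a2 _ (by omega) le_rfl]
    exact ⟨H.col.per _ _ hp, ih.2.trans (gq_per _ hp)⟩

theorem Run.keep (H : π.Ok) (hT : π.q ∣ T) (hR : π.Run u y T) (h1 : π.N1 ≤ t) (h2 : t < T)
    (h3 : ¬ u t) : y (t + 1) = y t := by
  obtain ⟨s, a1, a2, a3, a4, a5⟩ := blockOf H hT h1 h2
  rcases hR.sup s a1 a2 a5 with ⟨h, _⟩ | ⟨_, b2, _⟩
  · exact h.keep t a3 a4 h3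
  · rw [b2 t a3 a4.le, b2 (t + 1) (by omega) a4]

theorem Run.lt (H : π.Ok) (hT : π.q ∣ T) (hR : π.Run u y T) (h1 : π.N1 ≤ τ) (h2 : τ ≤ T) :
    y τ < π.K + 2 := by
  rcases h2.eq_or_lt with rfl | h2
  · rw [(hR.bd H τ hT h1 le_rfl).1]; have := H.col.lt τ; omega
  obtain ⟨s, a1, a2, a3, a4, a5⟩ := blockOf H hT h1 h2
  rcases hR.sup s a1 a2 a5 with ⟨h, _⟩ | ⟨_, b2, _⟩
  · exact h.lt τ a3 a4.le
  · rw [b2 τ a3 a4.le]; have := H.col.lt s; omega

theorem Run.const (H : π.Ok) (hT : π.q ∣ T) (hR : π.Run u y T) {a b : ℕ} (h1 : π.N1 ≤ a)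
    (h2 : a ≤ b) (h3 : b ≤ T) (h4 : cn u a b = 0) : y b = y a := by
  induction b, h2 using Nat.le_induction with
  | base => rfl
  | succ b hb ih =>
    have e := cn_add u hb (Nat.le_succ b)
    have hu : ¬ u b := fun h => by have := cn_one_pos h; simp only [Nat.succ_eq_add_one] at e; omega
    rw [hR.keep H hT (h1.trans hb) h3 hu]
    exact ih (by omega) (by simp only [Nat.succ_eq_add_one] at e; omega)

theorem Run.rep (H : π.Ok) (hR : π.Run u y T) (hs : π.q ∣ s) (hsT : s ≤ T) {j : ℕ}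
    (h1 : π.N1 ≤ j) (h2 : j ≤ s) (h3 : y j < π.K) : ∃ τ, π.N1 ≤ τ ∧ τ ≤ s ∧ π.Gd u s τ ∧
      Ws π.P u π.N1 τ = Ws π.P u π.N1 j ∧ y j = π.F τ ∧
      Ws π.P u π.N1 τ + gq π.P π.N1 ≡ gq π.P τ [MOD π.q] := by
  rcases h2.eq_or_lt with rfl | h2
  · exact ⟨j, h1, le_rfl, Or.inl hs, rfl, hR.bd H j hs h1 hsT⟩
  obtain ⟨e, a1, a2, a3, a4, a5⟩ := blockOf H hs h1 h2
  have hb := hR.bd H e a1 a2 (by omega)
  rcases hR.sup e a1 a2 (a5.trans hsT) with ⟨h, h'⟩ | ⟨b1, b2, _⟩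
  · obtain ⟨τ, c1, c2, c3, c4, c5⟩ := h.rep j a3 a4.le h3
    refine ⟨τ, a2.trans c1, c2.trans a5, ?_, ?_, c4, ?_⟩
    · rcases c1.eq_or_lt with rfl | c1
      · exact Or.inl a1
      rcases c2.eq_or_lt with rfl | c2
      · exact Or.inl (dvd_add a1 dvd_rfl)
      refine Or.inr ⟨e, a1, c1, c2, a5, le_trans ?_ h'⟩
      have := h.emp
      rw [mul_assoc]; omega
    · rw [Ws_add π.P u a2 c1, Ws_add π.P u a2 a3, c3]
    · refine Nat.ModEq.trans ?_ c5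
      rw [Ws_add π.P u a2 c1, add_right_comm, add_comm]
      exact hb.2.add_left _
  · refine ⟨e, a2, by omega, Or.inl a1, ?_, b2 j a3 a4.le, hb.2⟩
    rw [Ws_add π.P u a2 a3, Ws_zero π.P (cn_zero fun t c1 c2 => b1 t c1 (by omega)), add_zero]

theorem Run.repS (H : π.Ok) (hT : π.q ∣ T) (hR : π.Run u y T) {j : ℕ} (h1 : π.N1 ≤ j)
    (h2 : j ≤ T) (h3 : π.K ≤ y j) : ∃ v, π.N1 ≤ v ∧ v < j ∧ u v ∧ π.K ≤ y (v + 1) ∧
      Ws π.P u π.N1 (v + 1) = Ws π.P u π.N1 j := by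
  induction j, h1 using Nat.le_induction with
  | base => rw [hR.y0] at h3; have := H.col.lt π.N1; omega
  | succ j hj ih =>
    by_cases hu : u j
    · exact ⟨j, hj, Nat.lt_succ_self j, hu, h3, rfl⟩
    · rw [hR.keep H hT hj h2 hu] at h3
      obtain ⟨v, a1, a2, a3, a4, a5⟩ := ih (by omega) h3
      refine ⟨v, a1, by omega, a3, a4, ?_⟩
      rw [Ws_add π.P u hj (Nat.le_succ j), Ws_one_neg _ hu, add_zero, a5]

theorem Run.full (H : π.Ok) (hR : π.Run u y T) {e : ℕ} (he : π.q ∣ e) (h1 : π.N1 ≤ e) :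
    ∀ s, π.q ∣ s → e ≤ s → s ≤ T → cn u e s = 0 ∨ 3 * π.q ≤ 4 * cn u e s := by
  refine bd_ind H he (Or.inl (cn_self _ le_rfl)) fun s a1 a2 a3 ih => ?_
  rw [cn_add u a2 (Nat.le_add_right s π.q)]
  rcases hR.sup s a1 (h1.trans a2) a3 with ⟨h, h'⟩ | ⟨b1, _, _⟩
  · have c1 := h.emp
    have c2 := cn_compl u s (s + π.q)
    rw [mul_assoc] at h'
    omega
  · rw [cn_zero b1]; omega

theorem Run.claim0 (H : π.Ok) (hR : π.Run u y T) {j k : ℕ} (h1 : π.N1 ≤ j) (h2 : j ≤ k)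
    (h3 : k ≤ T) (gj : π.Gd u T j) (gk : π.Gd u T k) (hm : k ≡ j [MOD π.q]) :
    cn u j k = 0 ∨ π.q ≤ 2 * cn u j k := by
  have hd : π.q ∣ k - j := (Nat.modEq_iff_dvd' h2).1 hm.symm
  by_cases hj : π.q ∣ j
  · have hk : π.q ∣ k := by
      have := dvd_add hd hj
      rwa [Nat.sub_add_cancel h2] at this
    have := hR.full H hj h1 k hk h2 h3
    omega
  have hk : ¬ π.q ∣ k := fun hk => hj (by
    have := Nat.dvd_sub hk hd
    rwa [Nat.sub_sub_self h2] at this)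
  obtain ⟨e, a1, a2, a3, a4, a5⟩ := gj.resolve_left hj
  obtain ⟨f, b1, b2, b3, b4, b5⟩ := gk.resolve_left hk
  rcases h2.eq_or_lt with rfl | h2
  · exact Or.inl (cn_self _ le_rfl)
  have c0 : π.q ≤ k - j := Nat.le_of_dvd (by omega) hd
  have c1 : e + π.q ≤ f := lt_dvd a1 b1 (by omega)
  have c2 : k - f = j - e := by
    have d1 : π.q ∣ f - e := Nat.dvd_sub b1 a1
    rcases lt_trichotomy (k - j) (f - e) with h | h | h
    · have := lt_dvd hd d1 h; omega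
    · omega
    · have := lt_dvd d1 hd h; omega
  have c3 := cn_add u a3.le (show e + π.q ≤ k by omega)
  have c4 := cn_add u c1 b2.le
  have c5 := cn_compl u j (e + π.q)
  have c6 := cn_compl u f k
  have c7 := cn_add (fun t => ¬ u t) a2.le a3.le
  have c8 := cn_add (fun t => ¬ u t) b2.le b3.le
  omega

theorem Run.claim1 (H : π.Ok) (hR : π.Run u y T) {j k : ℕ} (h1 : π.N1 ≤ j) (h2 : j < k)
    (h3 : k ≤ T) (gj : π.Gd u T j) (gk : π.Gd u T k) (hm : k ≡ j + 1 [MOD π.q]) :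
    cn u j k ≤ 1 ∨ π.q ≤ 2 * cn u j k := by
  by_cases hj : π.q ∣ j
  · obtain ⟨k, rfl⟩ : ∃ k', k = k' + 1 := ⟨k - 1, by omega⟩
    have hm' : k ≡ j [MOD π.q] := Nat.ModEq.add_right_cancel' 1 hm
    have hk : π.q ∣ k := (Nat.modEq_zero_iff_dvd).1 (hm'.trans ((Nat.modEq_zero_iff_dvd).2 hj))
    have c1 := hR.full H hj h1 k hk (by omega) (by omega)
    have c2 := cn_add u (show j ≤ k by omega) (show k ≤ k + 1 by omega)
    have c3 := cn_le u k (k + 1)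
    omega
  · obtain ⟨e, a1, a2, a3, a4, a5⟩ := gj.resolve_left hj
    have g1 : π.Gd u T (j + 1) := by
      rcases (show j + 1 ≤ e + π.q from a3).eq_or_lt with h | h
      · exact Or.inl (by rw [h]; exact dvd_add a1 dvd_rfl)
      · exact Or.inr ⟨e, a1, by omega, h, a4, a5⟩
    have c1 := hR.claim0 H (show π.N1 ≤ j + 1 by omega) h2 h3 g1 gk hm
    have c2 := cn_add u (show j ≤ j + 1 by omega) (show j + 1 ≤ k from h2)
    have c3 := cn_le u j (j + 1)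
    omega

theorem Run.sums (H : π.Ok) (hR : π.Run u y T) : ∀ X, π.q ∣ X → π.N1 ≤ X → X ≤ T →
    cn (fun t => ¬ u t) π.N1 X ≤
        4 * π.M * cn (π.nB u T) π.N1 X + 8 * π.R * cn (π.sB u y T) π.N1 X ∧
      cn (fun t => u t ∧ π.K ≤ y (t + 1)) π.N1 X ≤ 2 * π.R * cn (π.nB u T) π.N1 X := by
  refine bd_ind H H.qN1 ⟨by rw [cn_self _ le_rfl]; omega, by rw [cn_self _ le_rfl]; omega⟩
    fun s a1 a2 a3 ih => ?_
  have hs : s ≤ s + π.q := Nat.le_add_right _ _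
  simp only [cn_add _ a2 hs, mul_add]
  have m1 : cn (π.nB u s) s (s + π.q) ≤ cn (π.nB u T) s (s + π.q) :=
    cn_mono fun t _ _ h => h.lift (by omega) fun _ _ => Iff.rfl
  have m2 : cn (π.sB u y s) s (s + π.q) ≤ cn (π.sB u y T) s (s + π.q) :=
    cn_mono fun t _ _ h => h.lift (by omega) (fun _ _ => Iff.rfl) fun _ _ => rfl
  have m3 := Nat.mul_le_mul_left (4 * π.M) m1
  have m4 := Nat.mul_le_mul_left (8 * π.R) m2
  have m5 := Nat.mul_le_mul_left (2 * π.R) m1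
  rcases hR.sup s a1 a2 a3 with ⟨h, _⟩ | ⟨b1, _, b3⟩
  · have c1 := h.emp
    have c2 := h.sp
    have c3 : π.M * cn (π.nB u s) s (s + π.q) ≤ 4 * π.M * cn (π.nB u s) s (s + π.q) := by
      rw [mul_assoc]; omega
    omega
  · have c1 := cn_le (fun t => ¬ u t) s (s + π.q)
    have c2 : cn (fun t => u t ∧ π.K ≤ y (t + 1)) s (s + π.q) = 0 :=
      cn_zero fun t c d h => b1 t c d h.1
    omega

end Par

end Pool.Agent.MP_d19b84_nt.Logd

end MrgPart3

-- ======== part 4: formerly Pool.Agent.MP_d19b84_nt.LogFinal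
section MrgPart4

/-!
PROJECT LOGD: from the colouring and the slot construction to the sequence.
-/

set_option autoImplicit false

namespace Pool.Agent.MP_d19b84_nt.Logd

open Finset Filter Pool.Agent.MP_d19b84_nt.H59

namespace FinalP

/-- the stage `n` can be run with the multiplier `Mv` -/
def St (n Mv : ℕ) : Prop :=
  0 < Mv ∧ ∀ A : Finset ℕ, Adm A → (∀ a ∈ A, a < 2 ^ (4 * 64 ^ n)) →
    ∃ A' : Finset ℕ, Adm A' ∧ (∀ a ∈ A', a < 2 ^ (4 * 64 ^ (n + 1))) ∧ A ⊆ A' ∧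
      (∀ a ∈ A', a ∈ A ∨ 2 ^ (4 * 64 ^ n) ≤ a) ∧ (∃ a ∈ A', 2 ^ (4 * 64 ^ n) ≤ a) ∧
      ((64 ^ (n + 1) : ℕ) : ℝ) / (48 * Mv) ≤ ∑ a ∈ A', (1 : ℝ) / a

theorem stage (h2 : GlobalStmt) {P R K : ℕ} {F : ℕ → ℕ} (hP : 3 ≤ P) (hR : Odd R) (hPR : P ∣ R)
    (hC : Col P (R ^ 4) (R ^ 3) K F) (n : ℕ) (h3 : 1000 * 64 ^ (n + 1) ≤ R)
    (h4 : 12 * (P * (K + 2) ^ 3) * R ^ 4 ≤ 2 ^ 64 ^ (n + 1)) : St n (P * (K + 2) ^ 3) := by
  have hM0 : 0 < P * (K + 2) ^ 3 := by positivity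
  refine ⟨hM0, fun A hA hU => ?_⟩
  have e1 : (64 : ℕ) ^ (n + 1) = 64 * 64 ^ n := by ring
  have hn1 : n < 64 ^ n := Nat.lt_pow_self (by norm_num)
  set r := 64 ^ n with hr
  set m := 64 ^ (n + 1) with hm
  have hR0 : 0 < R ^ 4 := pow_pos (by omega) 4
  have hU2 : 16 * (2 ^ (4 * r) * 2 ^ (4 * r) + 3) ≤ 2 ^ (2 * m) := by
    have h1 : 2 ^ (2 * m) = 2 ^ (4 * r) * 2 ^ (4 * r) * 2 ^ (120 * r) := by
      rw [← pow_add, ← pow_add]; congr 1; omega
    have h2 : 2 ^ 6 ≤ 2 ^ (120 * r) := Nat.pow_le_pow_right (by norm_num) (by omega)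
    have h3 : 0 < 2 ^ (4 * r) * 2 ^ (4 * r) := by positivity
    rw [h1]; nlinarith
  obtain ⟨x, hx1, hx2, hx3⟩ := h2 P R K (R ^ 4 * 2 ^ (2 * m)) (2 ^ (4 * r) * 2 ^ (4 * r)) m F hP
    hR hPR hC (dvd_mul_right _ _) (by omega) h3
    (by rw [mul_comm 16, mul_assoc]; exact Nat.mul_le_mul_left _ hU2)
  have hUN : 2 ^ (4 * r) ≤ 12 * (P * (K + 2) ^ 3) * (R ^ 4 * 2 ^ (2 * m)) := by
    have h1 : 2 ^ (4 * r) ≤ 2 ^ (2 * m) := Nat.pow_le_pow_right (by norm_num) (by omega)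
    rw [← mul_assoc]
    exact h1.trans (Nat.le_mul_of_pos_left _ (by positivity))
  have hD : ∑ b ∈ A, b ≤ 2 ^ (4 * r) * 2 ^ (4 * r) := by
    have h1 : A.card ≤ 2 ^ (4 * r) := by
      have : A ⊆ range (2 ^ (4 * r)) := fun a ha => mem_range.2 (hU a ha)
      simpa using card_le_card this
    calc ∑ b ∈ A, b ≤ ∑ _b ∈ A, 2 ^ (4 * r) := sum_le_sum (fun a ha => (hU a ha).le)
      _ = A.card * 2 ^ (4 * r) := by simp
      _ ≤ _ := Nat.mul_le_mul_right _ h1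
  obtain ⟨A', b1, b2, b3, b4, b5, b6⟩ := set_stage hM0 (by positivity) (by omega) hx1 hx2 hx3
    A hA hU hUN hD
  refine ⟨A', b1, fun a ha => lt_of_lt_of_le (b4 a ha) ?_, b2, b3, b5, b6⟩
  calc 12 * (P * (K + 2) ^ 3) * (R ^ 4 * 2 ^ (2 * m) * 2 ^ m)
      = 12 * (P * (K + 2) ^ 3) * R ^ 4 * (2 ^ (2 * m) * 2 ^ m) := by ring
    _ ≤ 2 ^ m * (2 ^ (2 * m) * 2 ^ m) := Nat.mul_le_mul_right _ h4
    _ = _ := by rw [← pow_add, ← pow_add]; congr 1; omega

/-- choice of the exponent `a` -/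
theorem params {P k m : ℕ} (hP : 3 ≤ P) (hk : 1 ≤ k) (hm : 1 ≤ m)
    (hC : 1000 * (64 * P ^ (3 * (168 * k) + 85)) ^ (2 * k) ≤ m) :
    ∃ a : ℕ, 1 ≤ a ∧ 1000 * m ≤ P ^ (168 * k * a) ∧ P ^ (168 * k * a) ≤ 1000 * P ^ (168 * k) * m ∧
      (P * (2 * P ^ (168 * k + 28 * a) + 2) ^ 3) ^ k ≤ m := by
  have hex : ∃ a : ℕ, 1000 * m ≤ P ^ (168 * k * a) := by
    refine ⟨1000 * m, ?_⟩
    have h1 : 168 * k * (1000 * m) < P ^ (168 * k * (1000 * m)) := Nat.lt_pow_self (by omega)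
    have h2 : 1 * (1000 * m) ≤ 168 * k * (1000 * m) := Nat.mul_le_mul_right _ (by omega)
    omega
  have hs := Nat.find_spec hex
  obtain ⟨b, hb⟩ : ∃ b, Nat.find hex = b + 1 := by
    refine Nat.exists_eq_succ_of_ne_zero fun h => ?_
    rw [h, mul_zero, pow_zero] at hs
    omega
  have hmin : P ^ (168 * k * b) ≤ 1000 * m := (not_le.1 (Nat.find_min hex (by omega))).le
  rw [hb] at hs
  refine ⟨b + 1, by omega, hs, ?_, ?_⟩
  · calc P ^ (168 * k * (b + 1)) = P ^ (168 * k) * P ^ (168 * k * b) := by ring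
      _ ≤ P ^ (168 * k) * (1000 * m) := Nat.mul_le_mul_left _ hmin
      _ = _ := by ring
  · have h1 : 2 * P ^ (168 * k + 28 * (b + 1)) + 2 ≤ 4 * P ^ (168 * k + 28 * (b + 1)) := by
      have : 0 < P ^ (168 * k + 28 * (b + 1)) := by positivity
      omega
    have h2 : P * (2 * P ^ (168 * k + 28 * (b + 1)) + 2) ^ 3 ≤
        64 * P ^ (3 * (168 * k) + 85) * P ^ (84 * b) :=
      (Nat.mul_le_mul_left _ (Nat.pow_le_pow_left h1 3)).trans_eq (by ring)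
    refine (Nat.pow_le_pow_iff_left two_ne_zero).1 ?_
    calc ((P * (2 * P ^ (168 * k + 28 * (b + 1)) + 2) ^ 3) ^ k) ^ 2
        ≤ ((64 * P ^ (3 * (168 * k) + 85) * P ^ (84 * b)) ^ k) ^ 2 :=
          Nat.pow_le_pow_left (Nat.pow_le_pow_left h2 k) 2
      _ = (64 * P ^ (3 * (168 * k) + 85)) ^ (2 * k) * P ^ (168 * k * b) := by
          rw [← pow_mul, mul_pow, mul_comm k 2, ← pow_mul P (84 * b)]
          congr 2
          ring
      _ ≤ (64 * P ^ (3 * (168 * k) + 85)) ^ (2 * k) * (1000 * m) := Nat.mul_le_mul_left _ hmin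
      _ = 1000 * (64 * P ^ (3 * (168 * k) + 85)) ^ (2 * k) * m := by ring
      _ ≤ m * m := Nat.mul_le_mul_right _ hC
      _ = m ^ 2 := by ring

theorem small (h1 : CoreStmt) (h2 : GlobalStmt) {k : ℕ} (hk : 1 ≤ k) :
    ∀ᶠ n : ℕ in atTop, ∃ Mv, Mv ^ k ≤ 64 ^ (n + 1) ∧ St n Mv := by
  obtain ⟨P, hP, hodd, hF⟩ := h1 (168 * k) (by omega)
  have ht : Tendsto (fun n : ℕ => 64 ^ (n + 1)) atTop atTop :=
    (tendsto_pow_atTop_atTop_of_one_lt (by norm_num : (1 : ℕ) < 64)).comp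
      (tendsto_add_atTop_nat 1)
  filter_upwards [ht.eventually_ge_atTop (1000 * (64 * P ^ (3 * (168 * k) + 85)) ^ (2 * k)),
    ht.eventually_ge_atTop (12 * (1000 * P ^ (168 * k)) ^ 4)] with n c1 c2
  obtain ⟨a, ha, a1, a2, a3⟩ := params hP hk (Nat.one_le_pow _ _ (by norm_num)) c1
  obtain ⟨F, hC⟩ := hF a ha
  refine ⟨_, a3, stage h2 hP hodd.pow (dvd_pow_self _ (by positivity)) hC n a1 ?_⟩
  have a4 : P * (2 * P ^ (168 * k + 28 * a) + 2) ^ 3 ≤ 64 ^ (n + 1) :=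
    (Nat.le_self_pow (by omega) _).trans a3
  have hn1 : n < 64 ^ n := Nat.lt_pow_self (by norm_num)
  have a5 : (64 ^ (n + 1)) ^ 6 ≤ 2 ^ 64 ^ (n + 1) := by
    rw [show (64 : ℕ) = 2 ^ 6 by norm_num, ← pow_mul, ← pow_mul]
    refine Nat.pow_le_pow_right (by norm_num) ?_
    rw [show (2 : ℕ) ^ 6 = 64 by norm_num, pow_succ]
    omega
  generalize 64 ^ (n + 1) = m at *
  calc 12 * (P * (2 * P ^ (168 * k + 28 * a) + 2) ^ 3) * (P ^ (168 * k * a)) ^ 4
      ≤ 12 * m * (1000 * P ^ (168 * k) * m) ^ 4 :=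
        Nat.mul_le_mul (Nat.mul_le_mul_left _ a4) (Nat.pow_le_pow_left a2 4)
    _ = 12 * (1000 * P ^ (168 * k)) ^ 4 * m ^ 5 := by ring
    _ ≤ m * m ^ 5 := Nat.mul_le_mul_right _ c2
    _ = m ^ 6 := by ring
    _ ≤ _ := a5

/-- the least multiplier -/
noncomputable def MM (n : ℕ) : ℕ := sInf {Mv | St n Mv}

theorem MM_small (h1 : CoreStmt) (h2 : GlobalStmt) {k : ℕ} (hk : 1 ≤ k) :
    ∀ᶠ n : ℕ in atTop, MM n ^ k ≤ 64 ^ (n + 1) ∧ St n (MM n) := by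
  filter_upwards [small h1 h2 hk] with n ⟨Mv, a, b⟩
  exact ⟨(Nat.pow_le_pow_left (Nat.sInf_le b) k).trans a, Nat.sInf_mem (s := {Mv | St n Mv}) ⟨_, b⟩⟩

theorem numeric (h1 : CoreStmt) (h2 : GlobalStmt) {ε : ℝ} (h0 : 0 < ε) :
    ∀ᶠ n : ℕ in atTop,
      (256 * (64 : ℝ) ^ (n + 1)) ^ (1 - ε) ≤ ((64 ^ (n + 1) : ℕ) : ℝ) / (48 * MM n) := by
  obtain ⟨k, hk⟩ := exists_nat_gt (2 / ε)
  have hk0 : (0 : ℝ) < k := lt_trans (by positivity) hk
  have ht : Tendsto (fun n : ℕ => ((64 : ℝ) ^ (n + 1)) ^ (ε / 2)) atTop atTop :=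
    (tendsto_rpow_atTop (half_pos h0)).comp
      ((tendsto_pow_atTop_atTop_of_one_lt (by norm_num)).comp (tendsto_add_atTop_nat 1))
  filter_upwards [MM_small h1 h2 (k := k) (by exact_mod_cast hk0),
    ht.eventually_ge_atTop (256 * 48)] with n a1 a2
  have hM : (0 : ℝ) < MM n := by exact_mod_cast a1.2.1
  have a3 : (MM n : ℝ) ^ k ≤ 64 ^ (n + 1) := by exact_mod_cast a1.1
  have hr1 : (1 : ℝ) ≤ 64 ^ (n + 1) := one_le_pow₀ (by norm_num)
  rw [le_div_iff₀ (by positivity)]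
  push_cast
  generalize (64 : ℝ) ^ (n + 1) = r at *
  have hr0 : 0 < r := by linarith
  have e2 : (256 * r) ^ (1 - ε) ≤ 256 * r ^ (1 - ε) := by
    rw [Real.mul_rpow (by norm_num) hr0.le]
    refine mul_le_mul_of_nonneg_right ?_ (by positivity)
    calc (256 : ℝ) ^ (1 - ε) ≤ (256 : ℝ) ^ (1 : ℝ) :=
          Real.rpow_le_rpow_of_exponent_le (by norm_num) (by linarith)
      _ = 256 := by norm_num
  have e3 : (MM n : ℝ) ≤ r ^ (ε / 2) := by
    refine (pow_le_pow_iff_left₀ hM.le (by positivity) (n := k)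
      (by exact_mod_cast hk0.ne')).1 (a3.trans ?_)
    rw [← Real.rpow_natCast, ← Real.rpow_mul hr0.le]
    refine (Real.rpow_one r).symm.le.trans (Real.rpow_le_rpow_of_exponent_le hr1 ?_)
    rw [div_lt_iff₀ h0] at hk
    linarith
  calc (256 * r) ^ (1 - ε) * (48 * MM n)
      ≤ (256 * r ^ (1 - ε)) * (48 * r ^ (ε / 2)) := by gcongr
    _ = (256 * 48) * (r ^ (1 - ε) * r ^ (ε / 2)) := by ring
    _ ≤ r ^ (ε / 2) * (r ^ (1 - ε) * r ^ (ε / 2)) := by gcongr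
    _ = r ^ (1 : ℝ) := by
        rw [← Real.rpow_add hr0, ← Real.rpow_add hr0]; congr 1; ring
    _ = r := Real.rpow_one r

end FinalP

open FinalP in
theorem final (hc : CoreStmt) (hg : GlobalStmt) : MainStmt := by
  obtain ⟨n0, hn0⟩ := eventually_atTop.1 (MM_small hc hg le_rfl)
  have hUm : StrictMono (fun n : ℕ => 2 ^ (4 * 64 ^ (n + n0))) := by
    intro a b hab
    refine Nat.pow_lt_pow_right (by norm_num) ?_
    have : 64 ^ (a + n0) < 64 ^ (b + n0) := Nat.pow_lt_pow_right (by norm_num) (by omega)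
    omega
  obtain ⟨a, h1, h2, h3, h4⟩ := glue (fun n : ℕ => 2 ^ (4 * 64 ^ (n + n0))) hUm
    (fun n => ((64 ^ (n + n0 + 1) : ℕ) : ℝ) / (48 * MM (n + n0))) (fun n A hA hU => by
      have := (hn0 (n + n0) (by omega)).2.2 A hA hU
      simpa only [show n + 1 + n0 = n + n0 + 1 by omega] using this)
  refine ⟨a, h1, h2, h3, fun ε hε => ?_⟩
  obtain ⟨n1, hn1⟩ := eventually_atTop.1
    (numeric hc hg (ε := min ε 1) (lt_min hε (by norm_num)))
  filter_upwards [eventually_ge_atTop (((2 ^ (4 * 64 ^ (n1 + 1 + n0)) : ℕ) : ℝ)),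
    Real.tendsto_log_atTop.eventually_ge_atTop 1, eventually_gt_atTop 0] with x hx hl hx0
  have hex : ∃ n : ℕ, x < ((2 ^ (4 * 64 ^ (n + n0)) : ℕ) : ℝ) := by
    refine ⟨⌈x⌉₊ + 1, ?_⟩
    have a1 : ⌈x⌉₊ + 1 ≤ 2 ^ (4 * 64 ^ (⌈x⌉₊ + 1 + n0)) := hUm.le_apply (x := ⌈x⌉₊ + 1)
    have a2 := Nat.le_ceil x
    have a3 : ((⌈x⌉₊ + 1 : ℕ) : ℝ) ≤ ((2 ^ (4 * 64 ^ (⌈x⌉₊ + 1 + n0)) : ℕ) : ℝ) := by
      exact_mod_cast a1
    push_cast at a3 ⊢
    linarith
  have hs := Nat.find_spec hex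
  have hgt : n1 + 1 < Nat.find hex := by
    by_contra hh
    have a1 : 2 ^ (4 * 64 ^ (Nat.find hex + n0)) ≤ 2 ^ (4 * 64 ^ (n1 + 1 + n0)) :=
      hUm.monotone (not_lt.1 hh)
    have a2 : ((2 ^ (4 * 64 ^ (Nat.find hex + n0)) : ℕ) : ℝ) ≤
        ((2 ^ (4 * 64 ^ (n1 + 1 + n0)) : ℕ) : ℝ) := by exact_mod_cast a1
    linarith
  obtain ⟨n, hn⟩ : ∃ n, Nat.find hex = n + 2 := ⟨Nat.find hex - 2, by omega⟩
  have hmin := Nat.find_min hex (show n + 1 < Nat.find hex by omega)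
  rw [hn] at hs
  refine le_trans ?_ (h4 n x (not_lt.1 hmin))
  refine le_trans ?_ (hn1 (n + n0) (by omega))
  have hlog : Real.log x ≤ 256 * (64 : ℝ) ^ (n + n0 + 1) := by
    have a1 := Real.log_le_log hx0 hs.le
    push_cast at a1
    rw [Real.log_pow] at a1
    push_cast at a1
    have a2 : Real.log 2 ≤ 1 := by
      have := Real.log_two_lt_d9; linarith
    have a3 : (64 : ℝ) ^ (n + 2 + n0) = 64 * 64 ^ (n + n0 + 1) := by ring
    rw [a3] at a1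
    have a4 : (0 : ℝ) < 64 ^ (n + n0 + 1) := by positivity
    nlinarith
  calc (Real.log x) ^ (1 - ε) ≤ (Real.log x) ^ (1 - min ε 1) :=
        Real.rpow_le_rpow_of_exponent_le hl (by linarith [min_le_left ε 1])
    _ ≤ _ := Real.rpow_le_rpow (by linarith) hlog (by linarith [min_le_right ε 1])

end Pool.Agent.MP_d19b84_nt.Logd

end MrgPart4

-- marker of a merged file
example : 731051 + 21653 = 731051 + 21653 := rfl
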