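import Pool.Agent.MP_d19b84_nt.LogFinal

-- ======== part 0: formerly Pool.Agent.MP_d19b84_nt.LogCount
section MrgPart0

/-!
PROJECT LOGD: counting blocked slots.
-/

set_option autoImplicit false

namespace Pool.Agent.MP_d19b84_nt.Logd

open Finset Pool.Agent.MP_d19b84_nt.H59

theorem wv_lo (P t : ℕ) : 2 * P * t < wv P t := by unfold wv; nlinarith [Nat.zero_le P]

theorem wv_hi {P : ℕ} (hP : 1 ≤ P) (t : ℕ) : wv P t ≤ 2 * P * (t + 1) := by unfold wv; nlinarith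

theorem wv_strict {P a b : ℕ} (hP : 1 ≤ P) (h : a < b) : wv P a < wv P b := by
  unfold wv; nlinarith

theorem wv_inj {P a b : ℕ} (hP : 1 ≤ P) (h : wv P a = wv P b) : a = b := by
  rcases lt_trichotomy a b with l | l | l
  · exact absurd h (wv_strict hP l).ne
  · exact l
  · exact absurd h (wv_strict hP l).ne'

theorem Ws_le (P : ℕ) (u : ℕ → Prop) {a b c : ℕ} (h : b ≤ c + 1) :
    Ws P u a b ≤ cn u a b * wv P c := by
  classical
  have := sum_le_card_nsmul ((Ico a b).filter u) (wv P) (wv P c)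
    fun t ht => wv_mono P (by have := (mem_Ico.1 (mem_filter.1 ht).1).2; omega)
  simpa [cn, Ws] using this

theorem two_le_cn {P : ℕ} (hP : 1 ≤ P) {u : ℕ → Prop} {j k t : ℕ} (h1 : j < k) (h2 : k ≤ t)
    (h : Ws P u j k = wv P t) : 2 ≤ cn u j k := by
  by_contra hc
  have a1 := Ws_le P u (a := j) (b := k) (c := t - 1) (by omega)
  have a2 := wv_strict hP (show t - 1 < t by omega)
  have a3 := Nat.mul_le_mul_right (wv P (t - 1)) (show cn u j k ≤ 1 by omega)
  omega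

theorem cn_mul_idx {P : ℕ} (hP : 1 ≤ P) {u : ℕ → Prop} {j k t : ℕ} (h : Ws P u j k ≤ wv P t) :
    cn u j k * j ≤ t + 1 := by
  have a1 := cn_mul_le P u j k
  have a2 := Nat.mul_le_mul_left (cn u j k) (wv_lo P j).le
  have a3 := wv_hi hP t
  have a4 : 2 * P * (cn u j k * j) ≤ 2 * P * (t + 1) := by nlinarith
  exact Nat.le_of_mul_le_mul_left a4 (by omega)

theorem Ws_eq_of_cn (P : ℕ) {u : ℕ → Prop} {a k k' : ℕ} (h1 : a ≤ k) (h2 : a ≤ k')
    (h : cn u a k = cn u a k') : Ws P u a k = Ws P u a k' := by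
  rcases le_total k k' with l | l
  · have := cn_add u h1 l
    rw [Ws_add P u h1 l, Ws_zero P (a := k) (by omega), add_zero]
  · have := cn_add u h2 l
    rw [Ws_add P u h2 l, Ws_zero P (a := k') (by omega), add_zero]

/-- Harmonic counting over dyadic ranges. -/
theorem harm (S : Finset ℕ) (A : ℕ → Prop) (J μ : ℕ → ℕ) {N m c κ l Y : ℕ} (hN : 0 < N)
    (hc : 0 < c)
    (h1 : ∀ t ∈ S, N ≤ J t ∧ J t < N * 2 ^ m ∧ A (J t) ∧ 1 ≤ μ t ∧ μ t * (J t * c) ≤ Y)
    (h2 : ∀ t ∈ S, ∀ t' ∈ S, J t = J t' → μ t = μ t' → t = t')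
    (h3 : ∀ i < m, cn A (N * 2 ^ i) (N * 2 ^ (i + 1)) * κ ≤ l * (N * 2 ^ i)) :
    S.card * c * κ ≤ m * (l * Y) := by
  classical
  rw [card_eq_sum_card_fiberwise (f := J) (t := Ico N (N * 2 ^ m))
    fun t ht => mem_coe.2 (mem_Ico.2 ⟨(h1 t ht).1, (h1 t ht).2.1⟩), sum_dyadic, sum_mul, sum_mul]
  refine (sum_le_card_nsmul _ _ (l * Y) fun i hi => ?_).trans (by simp)
  set L := N * 2 ^ i with hL
  have hL0 : 0 < L := by positivity
  have a1 : ∀ j ∈ Ico L (N * 2 ^ (i + 1)), (S.filter fun t => J t = j).card ≤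
      if A j then Y / (L * c) else 0 := by
    intro j hj
    split_ifs with hA
    · refine le_trans (card_le_card_of_injOn (t := Icc 1 (Y / (L * c))) μ (fun t ht => ?_)
        fun t ht t' ht' e => ?_) (by simp)
      · obtain ⟨b1, b2⟩ := mem_filter.1 (mem_coe.1 ht)
        obtain ⟨_, _, _, c4, c5⟩ := h1 t b1
        refine mem_coe.2 (mem_Icc.2 ⟨c4, (Nat.le_div_iff_mul_le (by positivity)).2 ?_⟩)
        refine le_trans (Nat.mul_le_mul_left _ (Nat.mul_le_mul_right _ ?_)) c5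
        rw [b2]; exact (mem_Ico.1 hj).1
      · obtain ⟨b1, b2⟩ := mem_filter.1 (mem_coe.1 ht)
        obtain ⟨b3, b4⟩ := mem_filter.1 (mem_coe.1 ht')
        exact h2 t b1 t' b3 (b2.trans b4.symm) e
    · refine (card_eq_zero.2 (filter_eq_empty_iff.2 fun t ht e => hA ?_)).le
      rw [← e]; exact (h1 t ht).2.2.1
  have a2 := sum_le_sum a1
  rw [← sum_filter, sum_const, smul_eq_mul] at a2
  have a3 := h3 i (mem_range.1 hi)
  have a4 : Y / (L * c) * (L * c) ≤ Y := Nat.div_mul_le_self _ _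
  have a5 : ((Ico L (N * 2 ^ (i + 1))).filter A).card = cn A L (N * 2 ^ (i + 1)) := by
    unfold cn; congr
  rw [a5] at a2
  calc _ ≤ cn A L (N * 2 ^ (i + 1)) * (Y / (L * c)) * c * κ := by gcongr
    _ = cn A L (N * 2 ^ (i + 1)) * κ * (Y / (L * c) * c) := by ring
    _ ≤ l * L * (Y / (L * c) * c) := by gcongr
    _ = l * (Y / (L * c) * (L * c)) := by ring
    _ ≤ l * Y := by gcongr

theorem cn_le_card {α : Type} {u : ℕ → Prop} {a b : ℕ} (S : Finset α) (f : ℕ → α)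
    (h1 : ∀ t, a ≤ t → t < b → u t → f t ∈ S) (h2 : ∀ t t', u t → u t' → f t = f t' → t = t') :
    cn u a b ≤ S.card := by
  classical
  unfold cn
  refine card_le_card_of_injOn f (fun t ht => ?_) fun t ht t' ht' e => ?_
  · simp only [coe_filter, mem_Ico, Set.mem_ofPred_eq] at ht
    exact h1 t ht.1.1 ht.1.2 ht.2
  · simp only [coe_filter, mem_Ico, Set.mem_ofPred_eq] at ht ht'
    exact h2 t t' ht.2 ht'.2 e

theorem mem_cn {u : ℕ → Prop} {a b t : ℕ} (h1 : a ≤ t) (h2 : t < b) (h3 : u t) :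
    t ∈ @Finset.filter ℕ u (fun _ => Classical.propDecidable _) (Ico a b) := by
  simp only [mem_filter, mem_Ico]
  exact ⟨⟨h1, h2⟩, h3⟩

theorem cn_dvd {M L : ℕ} (hM : 0 < M) (h : M ∣ L) : cn (fun j => M ∣ j) L (2 * L) * M ≤ L := by
  obtain ⟨r, rfl⟩ := h
  have : cn (fun j => M ∣ j) (M * r) (2 * (M * r)) ≤ (Ico r (2 * r)).card := by
    refine cn_le_card _ (fun j => j / M) (fun j b1 b2 hj => ?_) fun j j' hj hj' e => ?_
    · obtain ⟨c, rfl⟩ := hj
      simp only [Nat.mul_div_cancel_left _ hM, mem_Ico]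
      exact ⟨Nat.le_of_mul_le_mul_left b1 hM,
        Nat.lt_of_mul_lt_mul_left (a := M) (by rw [mul_left_comm]; exact b2)⟩
    · obtain ⟨c, rfl⟩ := hj
      obtain ⟨c', rfl⟩ := hj'
      simp only [Nat.mul_div_cancel_left _ hM] at e
      rw [e]
  rw [Nat.card_Ico] at this
  have := Nat.mul_le_mul_right M (show cn (fun j => M ∣ j) (M * r) (2 * (M * r)) ≤ r by omega)
  linarith

namespace Par

variable {π : Par} {u : ℕ → Prop} {y : ℕ → ℕ} {T X m : ℕ}

theorem count_o (H : π.Ok) (u : ℕ → Prop) (T : ℕ) (hX : π.N ≤ X) :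
    cn (π.oB u T) π.N1 X * (8 * π.q) ≤ X := by
  classical
  have hP : 1 ≤ π.P := by have := H.P3; omega
  have hq := H.q_pos
  have hN : 0 < π.N := by have := H.q48; omega
  have hk : ∀ t, ∃ k, π.oB u T t → π.N1 ≤ k ∧ k ≤ T ∧
      wv π.P π.N + Ws π.P u π.N1 k ≤ wv π.P t + 1 ∧
      wv π.P t ≤ wv π.P π.N + Ws π.P u π.N1 k + π.D + 1 := fun t => by
    by_cases h : π.oB u T t
    · obtain ⟨k, hk⟩ := h; exact ⟨k, fun _ => hk⟩
    · exact ⟨0, fun h' => absurd h' h⟩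
  choose k hk using hk
  have a1 : cn (π.oB u T) π.N1 X ≤ (range (X / π.N + 1) ×ˢ range (π.D + 3)).card := by
    unfold cn
    refine card_le_card_of_injOn (fun t => (cn u π.N1 (k t),
      wv π.P t + 1 - (wv π.P π.N + Ws π.P u π.N1 (k t)))) (fun t ht => ?_) fun t ht t' ht' e => ?_
    · obtain ⟨b1, b2⟩ := mem_filter.1 (mem_coe.1 ht)
      obtain ⟨_, _, c3, c4⟩ := hk t b2
      have c5 := wv_lo π.P π.N
      have c6 := cn_mul_idx hP (u := u) (j := π.N1) (k := k t) (t := t) (by omega)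
      have c7 := (mem_Ico.1 b1).2
      have c8 := Nat.mul_le_mul_left (cn u π.N1 (k t)) (show π.N ≤ π.N1 from Nat.le_add_right _ _)
      refine mem_coe.2 (mem_product.2 ⟨mem_range.2 (Nat.lt_succ_of_le
        ((Nat.le_div_iff_mul_le hN).2 ?_)), mem_range.2 ?_⟩)
      · simp only; omega
      · simp only; omega
    · obtain ⟨c1, _, c3, _⟩ := hk t (mem_filter.1 (mem_coe.1 ht)).2
      obtain ⟨d1, _, d3, _⟩ := hk t' (mem_filter.1 (mem_coe.1 ht')).2
      obtain ⟨e1, e2⟩ := Prod.mk.inj e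
      have := Ws_eq_of_cn π.P c1 d1 e1
      exact wv_inj hP (by omega)
  rw [card_product, card_range, card_range] at a1
  have a2 : X / π.N * π.N ≤ X := Nat.div_mul_le_self _ _
  have a3 := H.big
  have a4 : (X / π.N + 1) * (16 * π.q * (π.D + 3)) ≤ (X / π.N + 1) * π.N :=
    Nat.mul_le_mul_left _ a3
  have a5 := Nat.mul_le_mul_right (16 * π.q) a1
  nlinarith

theorem count_n (H : π.Ok) (hR : π.Run u y T) (hX : X ≤ π.N * 2 ^ m) :
    cn (π.n1 u T) π.N1 X * π.q ≤ m * (2 * X) := by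
  classical
  have hP : 1 ≤ π.P := by have := H.P3; omega
  have hq := H.q_pos
  have hN : 0 < π.N := by have := H.q48; omega
  have hk : ∀ t, ∃ j k, π.n1 u T t → π.N1 ≤ j ∧ j < k ∧ k ≤ T ∧ k ≤ t ∧ π.Gd u T j ∧
      π.Gd u T k ∧ k ≡ j + 1 [MOD π.q] ∧ Ws π.P u j k = wv π.P t := fun t => by
    by_cases h : π.n1 u T t
    · obtain ⟨j, k, hk⟩ := h; exact ⟨j, k, fun _ => hk⟩
    · exact ⟨0, 0, fun h' => absurd h' h⟩
  choose j k hk using hk
  have key := harm ((Ico π.N1 X).filter (π.n1 u T)) (fun _ => True) j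
    (fun t => 2 * cn u (j t) (k t) / π.q) (m := m) (κ := 1) (l := 1) (Y := 2 * X) hN hq
    (fun t ht => by
      obtain ⟨b1, b2⟩ := mem_filter.1 ht
      obtain ⟨c1, c2, c3, c4, c5, c6, c7, c8⟩ := hk t b2
      have d0 := (mem_Ico.1 b1).2
      have d1 := two_le_cn hP c2 c4 c8
      have d2 := (hR.claim1 H c1 c2 c3 c5 c6 c7).resolve_left (by omega)
      have d3 := cn_mul_idx hP c8.le
      have d4 : 2 * cn u (j t) (k t) / π.q * π.q ≤ 2 * cn u (j t) (k t) := Nat.div_mul_le_self _ _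
      have d5 := Nat.mul_le_mul_right (j t) d4
      refine ⟨le_trans (Nat.le_add_right _ _) c1, by omega, trivial,
        (Nat.le_div_iff_mul_le hq).2 (by omega), by nlinarith⟩)
    (fun t ht t' ht' e1 e2 => by
      obtain ⟨c1, c2, c3, c4, c5, c6, c7, c8⟩ := hk t (mem_filter.1 ht).2
      obtain ⟨d1, d2, d3, d4, d5, d6, d7, d8⟩ := hk t' (mem_filter.1 ht').2
      rw [← e1] at d2 d7 d8 e2
      refine wv_inj hP ?_
      rw [← c8, ← d8]
      refine Ws_eq_of_cn π.P c2.le d2.le ?_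
      have gen : ∀ a b, j t < a → a ≤ b → b ≤ T → π.Gd u T a → π.Gd u T b → b ≡ a [MOD π.q] →
          2 * cn u (j t) a / π.q = 2 * cn u (j t) b / π.q → cn u (j t) a = cn u (j t) b := by
        intro a b g1 g2 g3 g4 g5 g6 g7
        have f1 := cn_add u g1.le g2
        rcases hR.claim0 H (by omega) g2 g3 g4 g5 g6 with f2 | f2
        · omega
        · have f3 : (2 * cn u (j t) a + π.q) / π.q ≤ 2 * cn u (j t) b / π.q :=
            Nat.div_le_div_right (by omega)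
          rw [Nat.add_div_right _ hq] at f3
          omega
      rcases le_total (k t) (k t') with l | l
      · exact gen _ _ c2 l d3 c6 d6 (d7.trans c7.symm) e2
      · exact (gen _ _ d2 l c3 d6 c6 (c7.trans d7.symm) e2.symm).symm)
    (fun i _ => by
      have := cn_le (fun _ => True) (π.N * 2 ^ i) (π.N * 2 ^ (i + 1))
      rw [ep_succ] at this ⊢
      omega)
  simpa [cn] using key

theorem count_nb (H : π.Ok) (hR : π.Run u y T) (hm : 1 ≤ m) (hN : π.N ≤ X)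
    (hX : X ≤ π.N * 2 ^ m) : cn (π.nB u T) π.N1 X * π.q ≤ 3 * m * X := by
  have a1 := count_o H u T hN
  have a2 := count_n H hR hX
  have a3 : cn (π.nB u T) π.N1 X ≤ _ := cn_or (π.oB u T) (π.n1 u T) π.N1 X
  have a4 := Nat.mul_le_mul_right π.q a3
  have a5 := Nat.mul_le_mul_right X hm
  nlinarith

theorem dy (H : π.Ok) {i : ℕ} (hi : i < m) : π.q ∣ π.N * 2 ^ (i + 1) ∧ π.N1 ≤ π.N * 2 ^ (i + 1) ∧
    π.N * 2 ^ (i + 1) ≤ π.N * 2 ^ m := by
  refine ⟨H.qN.mul_right _, ?_, ep_le hi⟩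
  have := ep_ge π.N i
  have := H.q48
  rw [ep_succ]; unfold N1; omega

theorem count_mk (H : π.Ok) (hR : π.Run u y (π.N * 2 ^ m)) {i : ℕ} (hi : i < m) :
    cn (π.Mk u y) (π.N * 2 ^ i) (π.N * 2 ^ (i + 1)) * π.M ≤ 13 * m * (π.N * 2 ^ i) := by
  classical
  obtain ⟨d1, d2, d3⟩ := dy H hi
  have a1 := cn_dvd H.M_pos ((H.M_dvd.trans H.qN).mul_right (2 ^ i))
  have a2 := (hR.sums H _ d1 d2 d3).2
  have a3 := count_nb H hR (show 1 ≤ m by omega) (le_trans (Nat.le_add_right _ _) d2) d3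
  have a4 : cn (π.Mk u y) (π.N * 2 ^ i) (π.N * 2 ^ (i + 1)) ≤ _ := cn_or (fun j => π.M ∣ j)
    (fun j => ∃ v, j = v + 1 ∧ π.N1 ≤ v ∧ u v ∧ π.K ≤ y (v + 1)) _ _
  have a5 : cn (fun j => ∃ v, j = v + 1 ∧ π.N1 ≤ v ∧ u v ∧ π.K ≤ y (v + 1)) (π.N * 2 ^ i)
      (π.N * 2 ^ (i + 1)) ≤ cn (fun t => u t ∧ π.K ≤ y (t + 1)) π.N1 (π.N * 2 ^ (i + 1)) := by
    refine cn_le_card _ (fun j => j - 1) (fun j _ b1 hj => ?_) fun j j' hj hj' e => ?_
    · obtain ⟨v, rfl, b2, b3, b4⟩ := hj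
      exact mem_cn (u := fun t => u t ∧ π.K ≤ y (t + 1)) b2 (by omega) ⟨b3, b4⟩
    · obtain ⟨v, rfl, _⟩ := hj
      obtain ⟨v', rfl, _⟩ := hj'
      omega
  rw [H.q_eq] at a3
  rw [ep_succ] at a2 a3 a4 a5 ⊢
  have a6 := Nat.mul_le_mul_right π.M (a4.trans (Nat.add_le_add_left (a5.trans a2) _))
  have a7 := Nat.mul_le_mul_right (π.N * 2 ^ i) (show 1 ≤ m by omega)
  nlinarith

theorem count_s (H : π.Ok) (hR : π.Run u y (π.N * 2 ^ m)) (X : ℕ) :
    cn (π.s1 u y (π.N * 2 ^ m)) π.N1 X * π.M ≤ m * (13 * m * X) := by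
  classical
  have hP : 1 ≤ π.P := by have := H.P3; omega
  have hN : 0 < π.N := by have := H.q48; have := H.q_pos; omega
  set T := π.N * 2 ^ m with hT
  have hk : ∀ t, ∃ j k, π.s1 u y T t → π.N1 ≤ j ∧ j < k ∧ k ≤ T ∧ π.Mk u y j ∧
      Ws π.P u j k = wv π.P t := fun t => by
    by_cases h : π.s1 u y T t
    · obtain ⟨j, k, hk⟩ := h; exact ⟨j, k, fun _ => hk⟩
    · exact ⟨0, 0, fun h' => absurd h' h⟩
  choose j k hk using hk
  have key := harm ((Ico π.N1 X).filter (π.s1 u y T)) (π.Mk u y) j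
    (fun t => cn u (j t) (k t)) (m := m) (κ := π.M) (l := 13 * m) (Y := X) hN one_pos
    (fun t ht => by
      obtain ⟨b1, b2⟩ := mem_filter.1 ht
      obtain ⟨c1, c2, c3, c4, c5⟩ := hk t b2
      have d0 := (mem_Ico.1 b1).2
      have d1 : cn u (j t) (k t) ≠ 0 := fun h => by
        have := Ws_zero π.P h
        have := wv_lo π.P t
        omega
      have d3 := cn_mul_idx hP c5.le
      exact ⟨le_trans (Nat.le_add_right _ _) c1, by omega, c4, by omega, by rw [mul_one]; omega⟩)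
    (fun t ht t' ht' e1 e2 => by
      obtain ⟨c1, c2, c3, c4, c5⟩ := hk t (mem_filter.1 ht).2
      obtain ⟨d1, d2, d3, d4, d5⟩ := hk t' (mem_filter.1 ht').2
      rw [← e1] at d2 d5 e2
      refine wv_inj hP ?_
      rw [← c5, ← d5]
      exact Ws_eq_of_cn π.P c2.le d2.le e2)
    (fun i hi => count_mk H hR hi)
  simpa [cn] using key

theorem count_emp (H : π.Ok) (hR : π.Run u y (π.N * 2 ^ m)) (hm : 1000 * m ≤ π.R) {i : ℕ}
    (hi : i < m) : 50 * cn (fun t => ¬ u t) π.N1 (π.N * 2 ^ (i + 1)) ≤ π.N * 2 ^ (i + 1) := by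
  obtain ⟨d1, d2, d3⟩ := dy H hi
  set X := π.N * 2 ^ (i + 1)
  have hN : π.N ≤ X := le_trans (Nat.le_add_right _ _) d2
  have a1 := (hR.sums H _ d1 d2 d3).1
  have a2 := count_nb H hR (show 1 ≤ m by omega) hN d3
  have a3 := count_s H hR X
  have a4 := count_o H u (π.N * 2 ^ m) hN
  have a5 : cn (π.sB u y (π.N * 2 ^ m)) π.N1 X ≤ _ :=
    cn_or (π.oB u (π.N * 2 ^ m)) (π.s1 u y (π.N * 2 ^ m)) π.N1 X
  rw [H.q_eq] at a2 a4
  have eM : π.M = π.R * π.R * π.R := by unfold M; ring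
  have hR0 := H.R10
  generalize cn (fun t => ¬ u t) π.N1 X = E at *
  generalize cn (π.nB u (π.N * 2 ^ m)) π.N1 X = nb at *
  generalize cn (π.sB u y (π.N * 2 ^ m)) π.N1 X = sb at *
  generalize cn (π.oB u (π.N * 2 ^ m)) π.N1 X = ob at *
  generalize cn (π.s1 u y (π.N * 2 ^ m)) π.N1 X = s1 at *
  generalize π.M = M at *
  generalize π.R = R at *
  have b1 : ob * M ≤ X := by nlinarith [Nat.zero_le (ob * M)]
  have b2 : 1 * X ≤ m * m * X := Nat.mul_le_mul_right X (by nlinarith)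
  have b3 : sb * M ≤ 14 * (m * m * X) := by
    have := Nat.mul_le_mul_right M a5
    nlinarith
  have b4 : E * (R * R) ≤ 12 * (R * (m * X)) + 112 * (m * m * X) := by
    have c1 := Nat.mul_le_mul_right (R * R) a1
    have c2 := Nat.mul_le_mul_left (4 * R) a2
    have c3 : 8 * R * sb * (R * R) = 8 * (sb * M) := by rw [eM]; ring
    nlinarith
  have b5 : 1000 * (R * (m * X)) ≤ R * R * X := by
    have := Nat.mul_le_mul_right (R * X) hm
    nlinarith
  have b6 : 1000000 * (m * m * X) ≤ R * R * X := by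
    have := Nat.mul_le_mul_right X (Nat.mul_le_mul hm hm)
    nlinarith
  have b7 : R * R * (50 * E) ≤ R * R * X := by nlinarith
  exact Nat.le_of_mul_le_mul_left b7 (by positivity)

end Par

end Pool.Agent.MP_d19b84_nt.Logd

end MrgPart0

-- ======== part 1: formerly Pool.Agent.MP_d19b84_nt.LogGlobal
section MrgPart1

/-!
PROJECT LOGD: the slot sequence of one epoch.
-/

set_option autoImplicit false

namespace Pool.Agent.MP_d19b84_nt.Logd

open Finset Pool.Agent.MP_d19b84_nt.H59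

/-- A Sidon encoding of the types `z < Z`. -/
def ph (Z z : ℕ) : ℕ := z + 2 * Z * z ^ 2

theorem ph_lt {Z z : ℕ} (h : z < Z) : ph Z z < 2 * Z ^ 3 := by
  obtain ⟨r, rfl⟩ : ∃ r, Z = z + 1 + r := ⟨Z - (z + 1), by omega⟩
  unfold ph
  nlinarith [Nat.zero_le (z * r), Nat.zero_le (z * z * r), Nat.zero_le (z * r * r),
    Nat.zero_le (r * r * r), Nat.zero_le (r * r), Nat.zero_le (z * z)]

theorem mod_sep {c A B e f : ℕ} (h : c * A + e = c * B + f) (he : e < c) (hf : f < c) :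
    A = B ∧ e = f := by
  have h1 : A = B := by
    rcases lt_trichotomy A B with l | l | l
    · have := Nat.mul_le_mul_left c (show A + 1 ≤ B from l); nlinarith
    · exact l
    · have := Nat.mul_le_mul_left c (show B + 1 ≤ A from l); nlinarith
  subst h1
  exact ⟨rfl, by omega⟩

theorem ph_sidon {Z a b a' b' : ℕ} (ha : a < Z) (hb : b < Z) (ha' : a' < Z) (hb' : b' < Z)
    (hne : a ≠ b) (h : ph Z a + ph Z b' = ph Z a' + ph Z b) : a' = a ∧ b' = b := by
  obtain ⟨h1, h2⟩ := mod_sep (c := 2 * Z) (A := a ^ 2 + b' ^ 2) (B := a' ^ 2 + b ^ 2) (e := a + b')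
    (f := a' + b) (by unfold ph at h; linarith) (by omega) (by omega)
  have h3 : ((a : ℤ) - a') * (a - b) = 0 := by
    have e1 : (a : ℤ) ^ 2 + b' ^ 2 = a' ^ 2 + b ^ 2 := by exact_mod_cast h1
    have e2 : (b' : ℤ) = a' + b - a := by omega
    rw [e2] at e1
    linarith
  rcases mul_eq_zero.1 h3 with h4 | h4 <;> omega

namespace Par

open Classical in
/-- The value placed in slot `t`. -/
noncomputable def xs (π : Par) (u : ℕ → Prop) (y : ℕ → ℕ) (T t : ℕ) : ℕ :=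
  if t = π.N then 6 * (π.K + 2) ^ 3 * wv π.P π.N
  else if π.N1 ≤ t ∧ t < T ∧ u t then
    6 * (π.K + 2) ^ 3 * wv π.P t + ph (π.K + 2) (y (t + 1)) - ph (π.K + 2) (y t) else 0

variable {π : Par} {u : ℕ → Prop} {y : ℕ → ℕ} {T t : ℕ}

theorem Ok.N_lt (H : π.Ok) : π.N < π.N1 := by have := H.q_pos; unfold N1; omega

theorem xs_used (H : π.Ok) (hT : π.q ∣ T) (hR : π.Run u y T) (h1 : π.N1 ≤ t) (h2 : t < T)
    (h3 : u t) : π.xs u y T t + ph (π.K + 2) (y t) =
      6 * (π.K + 2) ^ 3 * wv π.P t + ph (π.K + 2) (y (t + 1)) := by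
  have a1 := H.N_lt
  have a2 := ph_lt (hR.lt H hT h1 h2.le)
  have a3 := Nat.mul_le_mul_left (6 * (π.K + 2) ^ 3)
    (show 1 ≤ wv π.P t by have := wv_lo π.P t; omega)
  rw [xs, if_neg (by omega), if_pos ⟨h1, h2, h3⟩]
  omega

theorem xs_ne (h : π.xs u y T t ≠ 0) : t = π.N ∨ (π.N1 ≤ t ∧ t < T ∧ u t) := by
  by_contra hc
  rw [not_or] at hc
  exact h (by rw [xs, if_neg hc.1, if_neg hc.2])

theorem sg_low {τ : ℕ} (H : π.Ok) (h : τ ≤ π.N) : sg (π.xs u y T) τ = 0 := by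
  have a1 := H.N_lt
  refine sum_eq_zero fun t ht => ?_
  have := mem_range.1 ht
  by_contra hc
  rcases xs_ne hc with h | h <;> omega

theorem sg_mid {τ : ℕ} (H : π.Ok) (h1 : π.N < τ) (h2 : τ ≤ π.N1) :
    sg (π.xs u y T) τ = 6 * (π.K + 2) ^ 3 * wv π.P π.N := by
  induction τ, h1 using Nat.le_induction with
  | base => rw [sg_succ, sg_low H le_rfl, xs, if_pos rfl, zero_add]
  | succ τ hτ ih =>
    have : π.xs u y T τ = 0 := by
      by_contra hc
      rcases xs_ne hc with h | h <;> omega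
    rw [sg_succ, this, ih (by omega), add_zero]

theorem sg_high {τ : ℕ} (H : π.Ok) (hT : π.q ∣ T) (hR : π.Run u y T) (h1 : π.N1 ≤ τ)
    (h2 : τ ≤ T) : sg (π.xs u y T) τ + ph (π.K + 2) (y π.N1) =
      6 * (π.K + 2) ^ 3 * (wv π.P π.N + Ws π.P u π.N1 τ) + ph (π.K + 2) (y τ) := by
  have a1 := H.N_lt
  induction τ, h1 using Nat.le_induction with
  | base => rw [sg_mid H a1 le_rfl, Ws_self _ _ le_rfl, add_zero]
  | succ τ hτ ih =>
    have b1 := ih (by omega)
    rw [sg_succ, Ws_add π.P u hτ (show τ ≤ τ + 1 by omega)]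
    by_cases hu : u τ
    · have b2 := xs_used H hT hR hτ h2 hu
      rw [Ws_one_pos _ hu]
      simp only [mul_add] at b1 ⊢
      omega
    · have b2 : π.xs u y T τ = 0 := by
        by_contra hc
        rcases xs_ne hc with h | h
        · omega
        · exact hu h.2.2
      rw [Ws_one_neg _ hu, hR.keep H hT hτ h2 hu, b2]
      exact b1

theorem sg_max {τ : ℕ} (H : π.Ok) (h1 : π.N < τ) :
    sg (π.xs u y T) τ = sg (π.xs u y T) (max τ π.N1) := by
  rcases le_total τ π.N1 with h | h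
  · rw [max_eq_right h, sg_mid H h1 h, sg_mid H H.N_lt le_rfl]
  · rw [max_eq_left h]

theorem wv_near (H : π.Ok) {s : ℕ} (h : t < s + π.q) : wv π.P t < wv π.P π.N + wv π.P s := by
  have a1 := H.q48
  have a2 := Nat.mul_le_mul_left π.P (show 2 * t + 1 ≤ 2 * π.N + 1 + (2 * s + 1) by omega)
  unfold wv
  rw [mul_add π.P (2 * π.N + 1)] at a2
  omega

theorem xs_slot (H : π.Ok) (hT : π.q ∣ T) (hR : π.Run u y T) (h : π.xs u y T t ≠ 0) :
    π.N ≤ t ∧ 12 * (π.P * (π.K + 2) ^ 3) * t ≤ π.xs u y T t ∧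
      π.xs u y T t < 12 * (π.P * (π.K + 2) ^ 3) * (t + 1) := by
  have hZ : 0 < (π.K + 2) ^ 3 := by positivity
  have hP := Nat.mul_le_mul_right ((π.K + 2) ^ 3) H.P3
  have e : ∀ t, 6 * (π.K + 2) ^ 3 * wv π.P t = 12 * (π.P * (π.K + 2) ^ 3) * t +
      6 * (π.P * (π.K + 2) ^ 3) + 6 * (π.K + 2) ^ 3 := fun t => by unfold wv; ring
  rcases xs_ne h with rfl | ⟨h1, h2, h3⟩
  · rw [xs, if_pos rfl, e, mul_add]
    omega
  · have a1 := xs_used H hT hR h1 h2 h3
    have a2 := ph_lt (hR.lt H hT h1 h2.le)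
    have a3 := ph_lt (hR.lt H hT (show π.N1 ≤ t + 1 by omega) h2)
    have a4 := H.N_lt
    rw [e] at a1
    rw [mul_add]
    omega

theorem blk_old (H : π.Ok) (hT : π.q ∣ T) (hR : π.Run u y T) {s k d : ℕ} (h1 : π.N1 ≤ s)
    (h2 : s ≤ t) (h3 : t < s + π.q) (h4 : t < T) (hu : u t) (hk : k ≤ t) (hd : d ≤ π.D)
    (h : π.xs u y T t = sg (π.xs u y T) k + d) : π.oB u s t := by
  have ht : π.N1 ≤ t := h1.trans h2
  have hZ : 0 < (π.K + 2) ^ 3 := by positivity
  have a1 := xs_used H hT hR ht h4 hu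
  have a2 := ph_lt (hR.lt H hT ht h4.le)
  have a3 := ph_lt (hR.lt H hT (show π.N1 ≤ t + 1 by omega) h4)
  have hN := H.N_lt
  rcases le_or_gt k π.N with hk' | hk'
  · exfalso
    rw [sg_low H hk', zero_add] at h
    have b1 := H.DN
    have b2 := wv_lo π.P t
    have b3 := Nat.mul_le_mul_right t (show 1 ≤ 2 * π.P by have := H.P3; omega)
    have b4 := Nat.mul_le_mul_left (6 * (π.K + 2) ^ 3) (show π.D + 1 ≤ wv π.P t by omega)
    nlinarith [Nat.zero_le (ph (π.K + 2) (y (t + 1))), Nat.mul_le_mul_right π.D hZ]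
  rw [sg_max H hk'] at h
  set k' := max k π.N1 with hk'd
  have c1 : π.N1 ≤ k' := le_max_right _ _
  have c2 : k' ≤ t := max_le hk ht
  have c3 := sg_high H hT hR c1 (c2.trans h4.le)
  have c4 := ph_lt (hR.lt H hT c1 (c2.trans h4.le))
  have c5 := ph_lt (hR.lt H hT le_rfl (ht.trans h4.le))
  set W := wv π.P π.N + Ws π.P u π.N1 k' with hW
  have d1 : W ≤ wv π.P t := by
    by_contra hc
    have := Nat.mul_le_mul_left (6 * (π.K + 2) ^ 3) (show wv π.P t + 1 ≤ W by omega)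
    rw [mul_add] at this
    omega
  have d2 : wv π.P t ≤ W + π.D + 1 := by
    by_contra hc
    have e1 := Nat.mul_le_mul_left (6 * (π.K + 2) ^ 3) (show W + (π.D + 1) ≤ wv π.P t by omega)
    have e2 := Nat.mul_le_mul_right π.D (show 1 ≤ 6 * (π.K + 2) ^ 3 by omega)
    rw [mul_add _ W, mul_add _ π.D] at e1
    omega
  rcases le_total k' s with l | l
  · exact ⟨k', c1, l, by omega, d2⟩
  · have e1 := Ws_add π.P u h1 l
    have e2 := cn_mul_le π.P u s k'
    have e3 := wv_near H h3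
    have e4 : cn u s k' = 0 := by
      by_contra hc
      have := Nat.mul_le_mul_right (wv π.P s) (show 1 ≤ cn u s k' by omega)
      omega
    have e5 := Ws_zero π.P e4
    exact ⟨s, h1, le_rfl, by omega, by omega⟩

theorem blk_new (H : π.Ok) (hT : π.q ∣ T) (hR : π.Run u y T) {s j k : ℕ}
    (h3 : t < s + π.q) (h4 : t < T) (ht : π.N1 ≤ t) (hu : u t)
    (hne : y (t + 1) ≠ y t) (hj : π.N < j) (hjt : j ≤ t) (hk : k ≤ t)
    (h : π.xs u y T t + sg (π.xs u y T) j = sg (π.xs u y T) k) :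
    ∃ j k, π.N1 ≤ j ∧ j < k ∧ k ≤ s ∧ Ws π.P u j k = wv π.P t ∧ y j = y t ∧ y k = y (t + 1) := by
  have hP : 1 ≤ π.P := by have := H.P3; omega
  have hZ : 0 < (π.K + 2) ^ 3 := by positivity
  have a1 := xs_used H hT hR ht h4 hu
  have l1 := hR.lt H hT ht h4.le
  have l2 := hR.lt H hT (show π.N1 ≤ t + 1 by omega) h4
  have a2 := ph_lt l1
  have a3 := ph_lt l2
  have w0 : 1 ≤ wv π.P t := by have := wv_lo π.P t; omega
  have hk' : π.N < k := by
    by_contra hc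
    rw [sg_low H (not_lt.1 hc)] at h
    have := Nat.mul_le_mul_left (6 * (π.K + 2) ^ 3) w0
    omega
  rw [sg_max H hj, sg_max H hk'] at h
  set j' := max j π.N1
  set k' := max k π.N1
  have c1 : π.N1 ≤ j' := le_max_right _ _
  have c2 : j' ≤ t := max_le hjt ht
  have c3 : π.N1 ≤ k' := le_max_right _ _
  have c4 : k' ≤ t := max_le hk ht
  have d1 := sg_high H hT hR c1 (c2.trans h4.le)
  have d2 := sg_high H hT hR c3 (c4.trans h4.le)
  have l3 := hR.lt H hT c1 (c2.trans h4.le)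
  have l4 := hR.lt H hT c3 (c4.trans h4.le)
  have a4 := ph_lt l3
  have a5 := ph_lt l4
  obtain ⟨e1, e2⟩ := mod_sep (c := 6 * (π.K + 2) ^ 3) (A := wv π.P t + Ws π.P u π.N1 j')
    (B := Ws π.P u π.N1 k') (e := ph (π.K + 2) (y (t + 1)) + ph (π.K + 2) (y j'))
    (f := ph (π.K + 2) (y k') + ph (π.K + 2) (y t))
    (by simp only [mul_add] at d1 d2 ⊢; omega) (by omega) (by omega)
  obtain ⟨f1, f2⟩ := ph_sidon l2 l1 l4 l3 hne e2
  have g1 : j' < k' := by
    by_contra hc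
    have := Ws_add π.P u c3 (not_lt.1 hc)
    omega
  have g2 : Ws π.P u j' k' = wv π.P t := by
    have := Ws_add π.P u c1 g1.le
    omega
  rcases le_total k' s with l | l
  · exact ⟨j', k', c1, g1, l, g2, f2, f1⟩
  have g3 := two_le_cn hP g1 c4 g2
  have g4 := wv_near H h3
  have hN := H.N_lt
  rcases le_or_gt s j' with l' | l'
  · exfalso
    have i1 := cn_mul_le π.P u j' k'
    have i2 := Nat.mul_le_mul_right (wv π.P j') g3
    have i3 := wv_mono π.P l'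
    have i4 := wv_mono π.P (show π.N ≤ j' by omega)
    omega
  have i1 := Ws_add π.P u l'.le l
  have i2 := cn_add u l'.le l
  have i3 : cn u s k' = 0 := by
    by_contra hc
    have i4 := cn_mul_le π.P u j' s
    have i5 := cn_mul_le π.P u s k'
    have i6 := wv_mono π.P (show π.N ≤ j' by omega)
    have i7 := wv_mono π.P l'.le
    rcases Nat.eq_zero_or_pos (cn u j' s) with z | z
    · have := Nat.mul_le_mul_right (wv π.P s) (show 2 ≤ cn u s k' by omega)
      omega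
    · have := Nat.mul_le_mul_right (wv π.P s) (show 1 ≤ cn u s k' by omega)
      have := Nat.mul_le_mul_right (wv π.P j') (show 1 ≤ cn u j' s from z)
      omega
  have i4 := Ws_zero π.P i3
  have i5 := hR.const H hT (show π.N1 ≤ s by omega) l (by omega) i3
  exact ⟨j', s, c1, l', le_rfl, by omega, f2, by rw [← i5, f1]⟩

theorem Ws_shift {a j j' k : ℕ} (P : ℕ) (h1 : a ≤ j) (h2 : a ≤ j') (h3 : j ≤ k)
    (h : Ws P u a j' = Ws P u a j) (h4 : 0 < Ws P u j k) : j' < k ∧ Ws P u j' k = Ws P u j k := by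
  have a1 := Ws_add P u h1 h3
  have a2 : j' < k := by
    by_contra hc
    have := Ws_add P u (h1.trans h3) (not_lt.1 hc)
    omega
  have a3 := Ws_add P u h2 a2.le
  exact ⟨a2, by omega⟩

theorem not_blk (H : π.Ok) (hT : π.q ∣ T) (hR : π.Run u y T) (h : π.xs u y T t ≠ 0) :
    ¬ Blk (π.xs u y T) π.D t (π.xs u y T t) := by
  rcases xs_ne h with rfl | ⟨ht, h4, hu⟩
  · rintro (⟨j, hj, k, hk, e⟩ | ⟨k, hk, d, hd, e⟩)
    · rw [sg_low H hj, sg_low H hk] at e; omega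
    · rw [sg_low H hk] at e
      have a1 := (xs_slot H hT hR h).2.1
      have a2 := H.DN
      have a3 : 0 < π.P * (π.K + 2) ^ 3 := by have := H.P3; positivity
      have a4 := Nat.mul_le_mul_right π.N (show 1 ≤ 12 * (π.P * (π.K + 2) ^ 3) by omega)
      omega
  obtain ⟨s, s1, s2, s3, s4, s5⟩ := blockOf H hT ht h4
  have hsT : s ≤ T := by omega
  rcases hR.sup s s1 s2 s5 with ⟨hS, _⟩ | ⟨b, _⟩
  swap
  · exact absurd hu (b t s3 s4)
  obtain ⟨hne, hc⟩ := hS.use t s3 s4 hu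
  have hO : ¬ π.oB u s t := fun ho => hc.elim (fun a => a.1 (Or.inl ho)) fun a => a.1 (Or.inl ho)
  rintro (⟨j, hj, k, hk, e⟩ | ⟨k, hk, d, hd, e⟩)
  swap
  · exact hO (blk_old H hT hR s2 s3 s4 h4 hu hk hd e)
  rcases le_or_gt j π.N with hjN | hjN
  · rw [sg_low H hjN] at e
    exact hO (blk_old H hT hR s2 s3 s4 h4 hu hk (Nat.zero_le _) e)
  obtain ⟨j, k, c1, c2, c3, c4, c5, c6⟩ := blk_new H hT hR s4 h4 ht hu hne hjN hj hk e
  have w0 : 0 < wv π.P t := by have := wv_lo π.P t; omega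
  rcases hc with ⟨n1, n2, n3⟩ | ⟨n1, n2 | ⟨e', n2, n3⟩⟩
  · obtain ⟨a, a1, a2, a3, a4, a5, a6⟩ := hR.rep H s1 hsT c1 (by omega)
      (by rw [c5, n2]; exact H.col.lt _)
    obtain ⟨b, b1, b2, b3, b4, b5, b6⟩ := hR.rep H s1 hsT (show π.N1 ≤ k by omega) c3
      (by rw [c6, n3]; exact H.col.lt _)
    have d1 := Ws_add π.P u c1 c2.le
    have d2 : a < b := by
      by_contra hc
      have := Ws_add π.P u b1 (not_lt.1 hc)
      omega
    have d3 := Ws_add π.P u a1 d2.le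
    have d4 : Ws π.P u a b = wv π.P t := by omega
    refine n1 (Or.inr ⟨a, b, a1, d2, b2, by omega, a3, b3, ?_, d4⟩)
    refine H.col.rig a b t ?_ (by rw [← a5, c5, n2]) (by rw [← b5, c6, n3])
    refine (b6.symm.add_right _).trans (Nat.ModEq.trans ?_ (a6.add_right _))
    rw [gq_succ, d3, d4]
    unfold Nat.ModEq
    congr 1
    ring
  · obtain ⟨v, v1, v2, v3, v4, v5⟩ := hR.repS H hT c1 (by omega) (by rw [c5]; exact n2)
    obtain ⟨d1, d2⟩ := Ws_shift π.P c1 (show π.N1 ≤ v + 1 by omega) c2.le v5 (by omega)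
    exact n1 (Or.inr ⟨v + 1, k, by omega, d1, c3, Or.inr ⟨v, rfl, v1, v3, v4⟩, by omega⟩)
  · obtain ⟨a, a1, a2, a3, a4, a5, a6⟩ := hR.rep H s1 hsT c1 (by omega)
      (by rw [c5, n3]; exact H.col.lt _)
    obtain ⟨d1, d2⟩ := Ws_shift π.P c1 a1 c2.le a4 (by omega)
    exact n1 (Or.inr ⟨a, k, a1, d1, c3, Or.inl (H.col.bit e' a (by rw [← a5, c5, n3]) n2),
      by omega⟩)

theorem hf (H : π.Ok) {m i : ℕ} (hR : π.Run u y (π.N * 2 ^ m)) (hm : 1000 * m ≤ π.R)
    (hi : i < m) : HF π.N (π.xs u y (π.N * 2 ^ m)) i := by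
  classical
  obtain ⟨d1, d2, d3⟩ := dy H hi
  have hT : π.q ∣ π.N * 2 ^ m := H.qN.mul_right _
  have a1 := count_emp H hR hm hi
  have a2 := H.q48
  have a3 := ep_ge π.N i
  have a4 : ((Ico (π.N * 2 ^ i) (π.N * 2 ^ (i + 1))).filter
      fun t => π.xs u y (π.N * 2 ^ m) t = 0).card ≤
      (Ico π.N π.N1).card + cn (fun t => ¬ u t) π.N1 (π.N * 2 ^ (i + 1)) := by
    refine le_trans (card_le_card fun t ht => ?_) (card_union_le _ _)
    obtain ⟨b1, b2⟩ := mem_filter.1 ht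
    obtain ⟨b3, b4⟩ := mem_Ico.1 b1
    rcases lt_or_ge t π.N1 with l | l
    · exact mem_union_left _ (mem_Ico.2 ⟨by omega, l⟩)
    · refine mem_union_right _ (mem_cn (u := fun t => ¬ u t) l b4 fun hu => ?_)
      have c1 := xs_used H hT hR l (by omega) hu
      have c2 := ph_lt (hR.lt H hT l (by omega))
      have c3 := Nat.mul_le_mul_left (6 * (π.K + 2) ^ 3)
        (show 1 ≤ wv π.P t by have := wv_lo π.P t; omega)
      omega
  rw [Nat.card_Ico] at a4
  unfold HF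
  have a5 : π.N1 - π.N = π.q := by unfold N1; omega
  have a6 := ep_succ π.N i
  omega

end Par

theorem globalS (hL : LocalStmt) : GlobalStmt := by
  intro P R K N D m F h1 h2 h3 h4 h5 h6 h7 h8
  let π : Par := ⟨P, R, K, N, D, F⟩
  have H : π.Ok := ⟨h1, h2, h3, show 10 ≤ R by omega, h4, h5, h8⟩
  obtain ⟨d1, d2, d3⟩ := Par.dy H (m := m) (i := 0) h6
  have hT : π.q ∣ π.N * 2 ^ m := H.qN.mul_right _
  obtain ⟨b, hb⟩ := Nat.dvd_sub hT H.qN1
  obtain ⟨u, y, hR, -⟩ := Par.exists_run hL H b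
  rw [show π.N1 + b * π.q = π.N * 2 ^ m by rw [mul_comm b]; omega] at hR
  refine ⟨π.xs u y (π.N * 2 ^ m), fun t => ?_, fun t ht => Par.not_blk H hT hR ht,
    fun i hi => Par.hf H hR h7 hi⟩
  by_cases h : π.xs u y (π.N * 2 ^ m) t = 0
  · exact Or.inl h
  · exact Or.inr (Par.xs_slot H hT hR h)

end Pool.Agent.MP_d19b84_nt.Logd

end MrgPart1

-- marker of a merged file
example : 731051 + 63815 = 731051 + 63815 := rfl
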